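import Pool.Agent.helper88.SSF.Mod

/-!
Project SSF: the graded systems of quotients of a graded algebra: colon sequence, nonzerodivisors,
equality in high degrees, change of the grading group.
-/

namespace Pool.Agent.Helper88.SSF

open Module

universe u v w x y u' v' w' x'

section

variable {k : Type u} [CommRing k] {Γ : Type x} [AddCommGroup Γ] [DecidableEq Γ]
  {A : Type v} [CommRing A] [Algebra k A] (gA : Γ → Submodule k A) [GradedAlgebra gA]

/-- All pieces of the quotient are finite free. -/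
def FF (J : Ideal A) : Prop :=
  ∀ γ, Module.Free k (qpiece gA J γ) ∧ Module.Finite k (qpiece gA J γ)

/-- Index of the chosen basis. -/
def qI (J : Ideal A) (hJ : FF gA J) (γ : Γ) : Type v :=
  @Module.Free.ChooseBasisIndex k (qpiece gA J γ) _ _ _ (hJ γ).1

instance qI_finite (J : Ideal A) (hJ : FF gA J) (γ : Γ) : Finite (qI gA J hJ γ) := by
  have h1 := (hJ γ).1
  have h2 := (hJ γ).2
  cases subsingleton_or_nontrivial k
  · have : Subsingleton (qpiece gA J γ) := Module.subsingleton k _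
    unfold qI
    by_contra hinf
    rw [not_finite_iff_infinite] at hinf
    have h3 : Finite (@Module.Free.ChooseBasisIndex k (qpiece gA J γ) _ _ _ (hJ γ).1) :=
      Finite.of_fintype _
    exact hinf.not_finite h3
  · unfold qI
    exact Finite.of_fintype _

/-- The chosen basis. -/
noncomputable def qb (J : Ideal A) (hJ : FF gA J) (γ : Γ) :
    Basis (qI gA J hJ γ) k (qpiece gA J γ) :=
  @Module.Free.chooseBasis k (qpiece gA J γ) _ _ _ (hJ γ).1

/-- The graded module `A / J` with the chosen bases. -/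
noncomputable def qmod (J : Ideal A) (hJ : FF gA J) : GrMod.{u, v, v} k Γ (HEl k gA) (hdeg gA) :=
  quot gA J (qI gA J hJ) (qb gA J hJ)

/-- The graded system of `A / J` with the chosen bases. -/
noncomputable def qsys (J : Ideal A) (hJ : FF gA J) : GSys.{u, v, v} k Γ (HEl k gA) (hdeg gA) :=
  (qmod gA J hJ).sys

theorem qsys_mulRel (J : Ideal A) (hJ : FF gA J) (s t : HEl k gA) :
    (qsys gA J hJ).MulRel s t (s * t) := quot_mulRel gA J _ _ s t

theorem qsys_addRel (J : Ideal A) (hJ : FF gA J) (s' s h t : HEl k gA)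
    (H : hval gA s' = hval gA s + hval gA h * hval gA t) :
    (qsys gA J hJ).AddRel s' s h t := quot_addRel gA J _ _ s' s h t H

section maps

variable {I I' : Γ → Type w} [∀ a, Finite (I a)] [∀ a, Finite (I' a)]

/-- Multiplication by a homogeneous element as a map of graded modules. -/
def mulMor (J1 J : Ideal A) (b1 : ∀ a, Basis (I a) k (qpiece gA J1 a))
    (b : ∀ a, Basis (I' a) k (qpiece gA J a)) {δ : Γ} {r : A} (hr : r ∈ gA δ)
    (h : ∀ x ∈ J1, r * x ∈ J) : GrMod.Mor (quot gA J1 I b1) (quot gA J I' b) δ where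
  f := (Submodule.mapQ J1 J (LinearMap.mulLeft A r) h).restrictScalars k
  mem := by
    rintro a x ⟨y, hy, rfl⟩
    refine ⟨r * y, ?_, rfl⟩
    have h1 := SetLike.mul_mem_graded hr hy
    rwa [add_sub_cancel] at h1
  comm := by
    intro s x
    obtain ⟨y, rfl⟩ := Ideal.Quotient.mk_surjective x
    change Ideal.Quotient.mk J (r * (hval gA s * y)) = Ideal.Quotient.mk J (hval gA s * (r * y))
    rw [mul_left_comm]

omit [DecidableEq Γ] in
theorem mulMor_f [DecidableEq Γ] [GradedAlgebra gA] (J1 J : Ideal A)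
    (b1 : ∀ a, Basis (I a) k (qpiece gA J1 a))
    (b : ∀ a, Basis (I' a) k (qpiece gA J a)) {δ : Γ} {r : A} (hr : r ∈ gA δ)
    (h : ∀ x ∈ J1, r * x ∈ J) (y : A) :
    (mulMor gA J1 J b1 b hr h).f (Ideal.Quotient.mk J1 y) = Ideal.Quotient.mk J (r * y) := rfl

/-- The projection to a smaller quotient. -/
def facMor (J J2 : Ideal A) (b : ∀ a, Basis (I a) k (qpiece gA J a))
    (b2 : ∀ a, Basis (I' a) k (qpiece gA J2 a)) (h : J ≤ J2) :
    GrMod.Mor0 (quot gA J I b) (quot gA J2 I' b2) where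
  f := (Ideal.Quotient.factorₐ k h).toLinearMap
  mem := by
    rintro a x ⟨y, hy, rfl⟩
    exact ⟨y, hy, rfl⟩
  comm := by
    intro s x
    obtain ⟨y, rfl⟩ := Ideal.Quotient.mk_surjective x
    change Ideal.Quotient.factorₐ k h (Ideal.Quotient.mk J (hval gA s) * Ideal.Quotient.mk J y) =
      Ideal.Quotient.mk J2 (hval gA s) * Ideal.Quotient.factorₐ k h (Ideal.Quotient.mk J y)
    rw [map_mul]
    rfl

theorem facMor_f (J J2 : Ideal A) (b : ∀ a, Basis (I a) k (qpiece gA J a))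
    (b2 : ∀ a, Basis (I' a) k (qpiece gA J2 a)) (h : J ≤ J2) (y : A) :
    (facMor gA J J2 b b2 h).f (Ideal.Quotient.mk J y) = Ideal.Quotient.mk J2 y := rfl

end maps

/-- A homogeneous element of `J + (r)` is the sum of a homogeneous element of `J` and a multiple
of `r` by a homogeneous element. -/
theorem mem_sup_span (J : Ideal A) (hJ : J.IsHomogeneous gA) {δ a : Γ} {r y : A}
    (hr : r ∈ gA δ) (hy : y ∈ gA a) (h : y ∈ J ⊔ Ideal.span {r}) :
    ∃ x ∈ gA (a - δ), y - r * x ∈ J := by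
  obtain ⟨j, hj, z, hz, rfl⟩ := Submodule.mem_sup.1 h
  obtain ⟨c, rfl⟩ := Ideal.mem_span_singleton.1 hz
  refine ⟨(DirectSum.decompose gA c (a - δ) : A), (DirectSum.decompose gA c (a - δ)).2, ?_⟩
  have h1 : ((DirectSum.decompose gA (j + r * c) a : gA a) : A) = j + r * c :=
    DirectSum.decompose_of_mem_same gA hy
  have h2 : ((DirectSum.decompose gA (r * c) a : gA a) : A) =
      r * (DirectSum.decompose gA c (a - δ) : A) := by
    have := DirectSum.coe_decompose_mul_add_of_left_mem gA (i := δ) (j := a - δ) (b := c) hr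
    rwa [add_sub_cancel] at this
  rw [DirectSum.decompose_add, DirectSum.add_apply, Submodule.coe_add, h2] at h1
  rw [← h1, add_sub_cancel_right]
  exact hJ a hj

/-- (R2) The colon sequence. -/
theorem colon_seq (J : Ideal A) (hJ : J.IsHomogeneous gA) {δ : Γ} {r : A} (hr : r ∈ gA δ)
    (J1 : Ideal A) (hJ1 : ∀ x, x ∈ J1 ↔ r * x ∈ J) (fJ : FF gA J) (fJ1 : FF gA J1)
    (fJ2 : FF gA (J ⊔ Ideal.span {r})) :
    ∃ ρ : Γ → Sg k, ∀ (n : Γ) (l : List (HEl k gA)),
      ((qsys gA J1 fJ1).Good (n - δ) l → (qsys gA _ fJ2).Good n l → (qsys gA J fJ).Good n l) ∧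
      ((qsys gA J1 fJ1).Good (n - δ) l → (qsys gA J fJ).Good n l → (qsys gA _ fJ2).Good n l) ∧
      ((qsys gA J fJ).Good n l → (qsys gA _ fJ2).Good n l → (qsys gA J1 fJ1).Good (n - δ) l) ∧
      (IsDomain k → (qsys gA J1 fJ1).Good (n - δ) l → (qsys gA _ fJ2).Good n l →
        (qsys gA J fJ).D n l = (qsys gA J1 fJ1).D (n - δ) l * (qsys gA _ fJ2).D n l *
          diffs (l.map (hdeg gA)) ρ n) := by
  let i := mulMor gA J1 J (qb gA J1 fJ1) (qb gA J fJ) hr (fun x hx => (hJ1 x).1 hx)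
  let p := facMor gA J _ (qb gA J fJ) (qb gA _ fJ2) (le_sup_left (b := Ideal.span {r}))
  have hex : ∀ a, ∃ ρ, GSys.SesAt i.ghom p.ghom a ρ := by
    intro a
    refine GrMod.sesAt i p a ?_ ?_ ?_ ?_
    · rintro x ⟨y, hy, rfl⟩ hx
      have h1 : Ideal.Quotient.mk J (r * y) = 0 := hx
      rw [Ideal.Quotient.eq_zero_iff_mem] at h1
      exact Ideal.Quotient.eq_zero_iff_mem.2 ((hJ1 y).2 h1)
    · rintro x ⟨y, hy, rfl⟩
      refine Ideal.Quotient.eq_zero_iff_mem.2 ?_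
      exact Ideal.mem_sup_right (Ideal.mul_mem_right _ _ (Ideal.mem_span_singleton_self r))
    · rintro x ⟨y, hy, rfl⟩ hx
      have h1 : y ∈ J ⊔ Ideal.span {r} := Ideal.Quotient.eq_zero_iff_mem.1 hx
      obtain ⟨z, hz, hzy⟩ := mem_sup_span gA J hJ hr hy h1
      refine ⟨Ideal.Quotient.mk J1 z, ⟨z, hz, rfl⟩, ?_⟩
      change Ideal.Quotient.mk J (r * z) = Ideal.Quotient.mk J y
      exact (Ideal.Quotient.eq.2 hzy).symm
    · rintro x ⟨y, hy, rfl⟩
      exact ⟨Ideal.Quotient.mk J y, ⟨y, hy, rfl⟩, rfl⟩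
  obtain ⟨ρ, hρ⟩ := GSys.exists_ratio_ses i.ghom p.ghom
  have hall : ∀ b, True → GSys.SesAt i.ghom p.ghom b (ρ b) := fun b _ => hρ b (hex b)
  have hT : ∀ (l : List Γ) (n : Γ), AllSub (fun _ : Γ => True) l n := by
    intro l
    induction l with
    | nil => intro n; trivial
    | cons g l ih =>
      intro n
      exact AllSub.mono (U := fun _ => True) (V := fun _ => True ∧ True)
        (fun _ _ => ⟨trivial, trivial⟩) (ih n)
  refine ⟨ρ, fun n l => ⟨fun h1 h2 => ?_, fun h1 h2 => ?_, fun h1 h2 => ?_, fun hk h1 h2 => ?_⟩⟩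
  · exact GSys.SesAt.good_mid i.ghom p.ghom ρ _ hall n l (hT _ n)
      ((GSys.shift_good _ _ _ _).2 h1) h2
  · exact GSys.SesAt.good_right i.ghom p.ghom ρ _ hall n l (hT _ n)
      ((GSys.shift_good _ _ _ _).2 h1) h2
  · exact (GSys.shift_good _ _ _ _).1 (GSys.SesAt.good_left i.ghom p.ghom ρ _ hall n l (hT _ n)
      h1 h2)
  · have h3 := GSys.SesAt.D_eq i.ghom p.ghom ρ _ hall n l (hT _ n)
      ((GSys.shift_good _ _ _ _).2 h1) h2
    have h4 := GSys.shift_D (qsys gA J1 fJ1) δ n l h1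
    exact h3.trans (congrArg (fun z => z * (qsys gA _ fJ2).D n l * diffs (l.map (hdeg gA)) ρ n) h4)

/-- (R3) A homogeneous element which is a nonzerodivisor on `A / J` in the relevant degrees. -/
theorem nzd_seq (J : Ideal A) (hJ : J.IsHomogeneous gA) (s : HEl k gA) (fJ : FF gA J)
    (fJ2 : FF gA (J ⊔ Ideal.span {hval gA s})) :
    ∃ ρ : Γ → Sg k, ∀ (U : Γ → Prop)
      (_ : ∀ a, U a → ∀ x ∈ gA (a - hdeg gA s), hval gA s * x ∈ J → x ∈ J)
      (n : Γ) (l : List (HEl k gA)), AllSub U (l.map (hdeg gA)) n →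
      ((qsys gA J fJ).Good n (s :: l) ↔ (qsys gA _ fJ2).Good n l) ∧
      (IsDomain k → (qsys gA _ fJ2).Good n l →
        (qsys gA J fJ).D n (s :: l) = (qsys gA _ fJ2).D n l * diffs (l.map (hdeg gA)) ρ n) := by
  let p := facMor gA J _ (qb gA J fJ) (qb gA _ fJ2) (le_sup_left (b := Ideal.span {hval gA s}))
  obtain ⟨ρ, hρ⟩ := GSys.exists_ratio_nzd p.ghom s
  refine ⟨ρ, fun U hU n l hn => ?_⟩
  have hex : ∀ a, U a → ∃ ρ, GSys.NzdAt p.ghom s a ρ := by
    intro a ha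
    refine GrMod.nzdAt s p a ?_ ?_ ?_ ?_
    · rintro x ⟨y, hy, rfl⟩ hx
      have h1 : Ideal.Quotient.mk J (hval gA s * y) = 0 := hx
      rw [Ideal.Quotient.eq_zero_iff_mem] at h1
      exact Ideal.Quotient.eq_zero_iff_mem.2 (hU a ha y hy h1)
    · rintro x ⟨y, hy, rfl⟩
      refine Ideal.Quotient.eq_zero_iff_mem.2 ?_
      exact Ideal.mem_sup_right (Ideal.mul_mem_right _ _ (Ideal.mem_span_singleton_self _))
    · rintro x ⟨y, hy, rfl⟩ hx
      have h1 : y ∈ J ⊔ Ideal.span {hval gA s} := Ideal.Quotient.eq_zero_iff_mem.1 hx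
      obtain ⟨z, hz, hzy⟩ := mem_sup_span gA J hJ (hval_mem gA s) hy h1
      refine ⟨Ideal.Quotient.mk J z, ⟨z, hz, rfl⟩, ?_⟩
      change Ideal.Quotient.mk J (hval gA s * z) = Ideal.Quotient.mk J y
      exact (Ideal.Quotient.eq.2 hzy).symm
    · rintro x ⟨y, hy, rfl⟩
      exact ⟨Ideal.Quotient.mk J y, ⟨y, hy, rfl⟩, rfl⟩
  have hall : ∀ b, U b → GSys.NzdAt p.ghom s b (ρ b) := fun b hb => hρ b (hex b hb)
  have hk : ∀ x : A ⧸ J, p.f (qact gA J s x) = 0 := by
    intro x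
    obtain ⟨y, rfl⟩ := Ideal.Quotient.mk_surjective x
    refine Ideal.Quotient.eq_zero_iff_mem.2 ?_
    exact Ideal.mem_sup_right (Ideal.mul_mem_right _ _ (Ideal.mem_span_singleton_self _))
  have hps := GrMod.kills s p hk
  exact ⟨GSys.NzdAt.good_iff p.ghom s hps ρ U hall n l hn,
    fun _ hg => GSys.NzdAt.D_eq p.ghom s hps ρ U hall n l hn hg⟩

/-- (R4) Two ideals `J ≤ J'` which agree in the relevant degrees. -/
theorem high_eq_le (J J' : Ideal A) (hle : J ≤ J') (fJ : FF gA J) (fJ' : FF gA J') :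
    ∃ ρ : Γ → Sg k, ∀ (U : Γ → Prop) (_ : ∀ a, U a → ∀ x ∈ gA a, x ∈ J' → x ∈ J)
      (n : Γ) (l : List (HEl k gA)), AllSub U (l.map (hdeg gA)) n →
      ((qsys gA J fJ).Good n l ↔ (qsys gA J' fJ').Good n l) ∧
      (IsDomain k → (qsys gA J fJ).Good n l →
        (qsys gA J' fJ').D n l = (qsys gA J fJ).D n l * diffs (l.map (hdeg gA)) ρ n) := by
  let p := facMor gA J J' (qb gA J fJ) (qb gA J' fJ') hle
  obtain ⟨ρ, hρ⟩ := GSys.exists_ratio_iso p.ghom
  refine ⟨ρ, fun U hU n l hn => ?_⟩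
  have hex : ∀ a, U a → ∃ ρ, p.ghom.IsoAt a ρ := by
    intro a ha
    refine GrMod.Mor0.isoAt p a ?_ ?_
    · rintro x ⟨y, hy, rfl⟩ hx
      have h1 : y ∈ J' := Ideal.Quotient.eq_zero_iff_mem.1 hx
      exact Ideal.Quotient.eq_zero_iff_mem.2 (hU a ha y hy h1)
    · rintro x ⟨y, hy, rfl⟩
      exact ⟨Ideal.Quotient.mk J y, ⟨y, hy, rfl⟩, rfl⟩
  have hall : ∀ b, U b → p.ghom.IsoAt b (ρ b) := fun b hb => hρ b (hex b hb)
  exact ⟨GSys.GHom.good_iff p.ghom ρ U hall n l hn,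
    fun _ hg => GSys.GHom.D_eq p.ghom ρ U hall n l hn hg⟩

/-- (R4) Two ideals which agree in the relevant degrees. -/
theorem high_eq (J J' : Ideal A) (fJ : FF gA J) (fJ' : FF gA J') (fI : FF gA (J ⊓ J')) :
    ∃ ρ : Γ → Sg k, ∀ (U : Γ → Prop) (_ : ∀ a, U a → ∀ x ∈ gA a, x ∈ J ↔ x ∈ J')
      (n : Γ) (l : List (HEl k gA)), AllSub U (l.map (hdeg gA)) n →
      ((qsys gA J fJ).Good n l ↔ (qsys gA J' fJ').Good n l) ∧
      (IsDomain k → (qsys gA J fJ).Good n l →
        (qsys gA J' fJ').D n l = (qsys gA J fJ).D n l * diffs (l.map (hdeg gA)) ρ n) := by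
  obtain ⟨ρ1, h1⟩ := high_eq_le gA (J ⊓ J') J inf_le_left fI fJ
  obtain ⟨ρ2, h2⟩ := high_eq_le gA (J ⊓ J') J' inf_le_right fI fJ'
  refine ⟨ρ2 * ρ1⁻¹, fun U hU n l hn => ?_⟩
  have g1 := h1 U (fun a ha x hx hxJ => ⟨hxJ, (hU a ha x hx).1 hxJ⟩) n l hn
  have g2 := h2 U (fun a ha x hx hxJ => ⟨(hU a ha x hx).2 hxJ, hxJ⟩) n l hn
  refine ⟨g1.1.symm.trans g2.1, fun hk hg => ?_⟩
  have hgI := g1.1.2 hg
  rw [g2.2 hk hgI, g1.2 hk hgI, diffs_mul, diffs_inv, Pi.mul_apply, Pi.inv_apply]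
  rw [mul_comm (diffs _ ρ2 n), ← mul_assoc, mul_inv_cancel_right]

/-- Good lists in degrees where all pieces vanish. -/
theorem good_of_pieces (J : Ideal A) (fJ : FF gA J) (U : Γ → Prop)
    (hU : ∀ a, U a → ∀ x ∈ gA a, x ∈ J) (n : Γ) (l : List (HEl k gA))
    (hn : AllSub U (l.map (hdeg gA)) n) : (qsys gA J fJ).Good n l := by
  refine GSys.good_of_zero U ?_ l n hn
  intro b hb
  constructor
  · change Subsingleton (qpiece gA J b)
    refine ⟨fun x y => Subtype.ext ?_⟩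
    obtain ⟨x', hx, hx'⟩ := x.2
    obtain ⟨y', hy, hy'⟩ := y.2
    rw [← hx', ← hy']
    exact (Ideal.Quotient.eq_zero_iff_mem.2 (hU b hb x' hx)).trans
      (Ideal.Quotient.eq_zero_iff_mem.2 (hU b hb y' hy)).symm
  · change Subsingleton PUnit
    infer_instance

end

/-- Over a field all finite dimensional quotient pieces are fine. -/
theorem FF_of_finite {K : Type u} [Field K] {Γ : Type x} {A : Type v} [CommRing A] [Algebra K A]
    (gA : Γ → Submodule K A) (hfin : ∀ γ, Module.Finite K (gA γ)) (J : Ideal A) :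
    FF gA J := by
  intro γ
  have h1 := hfin γ
  refine ⟨inferInstance, ?_⟩
  unfold qpiece
  infer_instance

end Pool.Agent.Helper88.SSF
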