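import Pool.Agent.helper88.SSF.Quot

/-!
Project SSF: change of the grading group for quotients of graded algebras.
-/

namespace Pool.Agent.Helper88.SSF

open Module

universe u v w x y u' v' w' x' y'

/-- Pull back of a graded module along a map of degrees and a map of operators. -/
abbrev GrMod.comap {R : Type u} [CommRing R] {Γ : Type x} [AddCommGroup Γ] {S : Type y}
    {deg : S → Γ} {Γ' : Type x'} [AddCommGroup Γ'] {S' : Type y'} {deg' : S' → Γ'}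
    (X : GrMod.{u, v, w} R Γ S deg) (j : Γ' → Γ) (τ : S' → S)
    (hj : ∀ a s, j (a + deg' s) = j a + deg (τ s)) : GrMod.{u, v, w} R Γ' S' deg' where
  N := X.N
  P a := X.P (j a)
  I a := X.I (j a)
  b a := X.b (j a)
  act s := X.act (τ s)
  act_mem s a x hx := by rw [hj]; exact X.act_mem _ _ _ hx
  act_comm s t x := X.act_comm _ _ _

theorem GrMod.comap_sys {R : Type u} [CommRing R] {Γ : Type x} [AddCommGroup Γ] {S : Type y}
    {deg : S → Γ} {Γ' : Type x'} [AddCommGroup Γ'] {S' : Type y'} {deg' : S' → Γ'}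
    (X : GrMod.{u, v, w} R Γ S deg) (j : Γ' → Γ) (τ : S' → S)
    (hj : ∀ a s, j (a + deg' s) = j a + deg (τ s)) :
    (X.comap (deg' := deg') j τ hj).sys = X.sys.comap j τ hj := rfl

section

variable {k : Type u} [CommRing k] {Γ : Type x} [AddCommGroup Γ] [DecidableEq Γ]
  {A : Type v} [CommRing A] [Algebra k A] (gA : Γ → Submodule k A) [GradedAlgebra gA]
  {Γ' : Type x'} [AddCommGroup Γ'] [DecidableEq Γ']
  {A' : Type v} [CommRing A'] [Algebra k A'] (gA' : Γ' → Submodule k A') [GradedAlgebra gA']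

/-- The image of a homogeneous element under a graded homomorphism. -/
def hmap (γ : Γ →+ Γ') (ψ : A →ₐ[k] A') (hm : ∀ g x, x ∈ gA g → ψ x ∈ gA' (γ g))
    (s : HEl k gA) : HEl k gA' :=
  ⟨γ s.1, ⟨ψ s.2, hm _ _ s.2.2⟩⟩

omit [DecidableEq Γ] [GradedAlgebra gA] [DecidableEq Γ'] [GradedAlgebra gA'] in
theorem hmap_deg (γ : Γ →+ Γ') (ψ : A →ₐ[k] A') (hm : ∀ g x, x ∈ gA g → ψ x ∈ gA' (γ g))
    (a : Γ) (s : HEl k gA) :
    γ (a + hdeg gA s) = γ a + hdeg gA' (hmap gA gA' γ ψ hm s) := map_add γ _ _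

/-- (R5) Change of the grading group. -/
theorem emb_seq (γ : Γ →+ Γ') (ψ : A →ₐ[k] A') (hm : ∀ g x, x ∈ gA g → ψ x ∈ gA' (γ g))
    (J : Ideal A) (J' : Ideal A') (hJ : ∀ x ∈ J, ψ x ∈ J') (fJ : FF gA J) (fJ' : FF gA' J') :
    ∃ ρ : Γ → Sg k, ∀ (U : Γ → Prop) (_ : ∀ a, U a → ∀ x ∈ gA a, ψ x ∈ J' → x ∈ J)
      (_ : ∀ a, U a → ∀ y ∈ gA' (γ a), ∃ x ∈ gA a, y - ψ x ∈ J')
      (n : Γ) (l : List (HEl k gA)), AllSub U (l.map (hdeg gA)) n →
      ((qsys gA J fJ).Good n l ↔ (qsys gA' J' fJ').Good (γ n) (l.map (hmap gA gA' γ ψ hm))) ∧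
      (IsDomain k → (qsys gA J fJ).Good n l →
        (qsys gA' J' fJ').D (γ n) (l.map (hmap gA gA' γ ψ hm)) =
          (qsys gA J fJ).D n l * diffs (l.map (hdeg gA)) ρ n) := by
  let X := qmod gA J fJ
  let Y := (qmod gA' J' fJ').comap (deg' := hdeg gA) γ (hmap gA gA' γ ψ hm)
    (hmap_deg gA gA' γ ψ hm)
  let f : (A ⧸ J) →ₐ[k] (A' ⧸ J') := Ideal.quotientMapₐ J' ψ hJ
  let p : GrMod.Mor0 X Y :=
    { f := f.toLinearMap
      mem := by
        rintro a x ⟨y, hy, rfl⟩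
        exact ⟨ψ y, hm _ _ hy, rfl⟩
      comm := by
        intro s x
        obtain ⟨y, rfl⟩ := Ideal.Quotient.mk_surjective x
        change f (Ideal.Quotient.mk J (hval gA s) * Ideal.Quotient.mk J y) =
          Ideal.Quotient.mk J' (ψ (hval gA s)) * f (Ideal.Quotient.mk J y)
        rw [map_mul]
        rfl }
  obtain ⟨ρ, hρ⟩ := GSys.exists_ratio_iso p.ghom
  refine ⟨ρ, fun U hU hU' n l hn => ?_⟩
  have hex : ∀ a, U a → ∃ ρ, p.ghom.IsoAt a ρ := by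
    intro a ha
    refine GrMod.Mor0.isoAt p a ?_ ?_
    · rintro x ⟨y, hy, rfl⟩ hx
      have h1 : ψ y ∈ J' := Ideal.Quotient.eq_zero_iff_mem.1 hx
      exact Ideal.Quotient.eq_zero_iff_mem.2 (hU a ha y hy h1)
    · rintro x ⟨y, hy, rfl⟩
      obtain ⟨z, hz, hzy⟩ := hU' a ha y hy
      exact ⟨Ideal.Quotient.mk J z, ⟨z, hz, rfl⟩, (Ideal.Quotient.eq.2 hzy).symm⟩
  have hall : ∀ b, U b → p.ghom.IsoAt b (ρ b) := fun b hb => hρ b (hex b hb)
  have h1 : Y.sys = (qsys gA' J' fJ').comap (deg' := hdeg gA) γ (hmap gA gA' γ ψ hm)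
    (hmap_deg gA gA' γ ψ hm) := rfl
  have h2 := GSys.GHom.good_iff p.ghom ρ U hall n l hn
  have h3 := GSys.comap_good (qsys gA' J' fJ') γ (hmap gA gA' γ ψ hm)
    (hmap_deg gA gA' γ ψ hm) n l
  refine ⟨h2.trans h3, fun hk hg => ?_⟩
  have h4 := GSys.GHom.D_eq p.ghom ρ U hall n l hn hg
  have h5 := GSys.comap_D (qsys gA' J' fJ') γ (hmap gA gA' γ ψ hm)
    (hmap_deg gA gA' γ ψ hm) n l (h3.1 (h2.1 hg))
  exact h5.symm.trans h4

end

end Pool.Agent.Helper88.SSF
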