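import Pool.Agent.helper88.SSF.EmbSeq

/-!
Project SSF: base change for quotients of graded algebras.
-/

namespace Pool.Agent.Helper88.SSF

open Module

universe u v w x y u' v' w' x' y'

/-- A base change map of graded algebras over `σ : B → B'`. -/
structure BCRing {B : Type u} [CommRing B] {B' : Type u'} [CommRing B'] (σ : B →+* B')
    {Γ : Type x} {C : Type v} [CommRing C] [Algebra B C] (gC : Γ → Submodule B C)
    {C' : Type v} [CommRing C'] [Algebra B' C'] (gC' : Γ → Submodule B' C')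
    (Φ : C →+* C') : Prop where
  smul : ∀ (b : B) (x : C), Φ (b • x) = σ b • Φ x
  mem : ∀ g x, x ∈ gC g → Φ x ∈ gC' g
  gen : ∀ g, ∀ y ∈ gC' g, y ∈ Submodule.span B' (Φ '' (gC g : Set C))
  gen' : ∀ y : C', y ∈ Submodule.span B' (Set.range Φ)
  ext : ∀ ℓ : C →ₗ[B] B, ∃ ℓ' : C' →ₗ[B'] B', ∀ x, ℓ' (Φ x) = σ (ℓ x)

section

variable {B : Type u} [CommRing B] {B' : Type u'} [CommRing B'] {σ : B →+* B'}
  {Γ : Type x} [AddCommGroup Γ] [DecidableEq Γ]
  {C : Type v} [CommRing C] [Algebra B C] {gC : Γ → Submodule B C} [GradedAlgebra gC]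
  {C' : Type v} [CommRing C'] [Algebra B' C'] {gC' : Γ → Submodule B' C'} [GradedAlgebra gC']
  {Φ : C →+* C'}

/-- The semilinear map of quotients. -/
def BCRing.bcq (h : BCRing σ gC gC' Φ) (J : Ideal C) : (C ⧸ J) →ₛₗ[σ] (C' ⧸ J.map Φ) where
  toFun := Ideal.quotientMap (J.map Φ) Φ Ideal.le_comap_map
  map_add' := map_add _
  map_smul' c x := by
    obtain ⟨y, rfl⟩ := Ideal.Quotient.mk_surjective x
    exact congrArg (Ideal.Quotient.mk (J.map Φ)) (h.smul c y)

omit [AddCommGroup Γ] [DecidableEq Γ] [GradedAlgebra gC] [GradedAlgebra gC'] in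
theorem BCRing.bcq_mk (h : BCRing σ gC gC' Φ) (J : Ideal C) (y : C) :
    h.bcq J (Ideal.Quotient.mk J y) = Ideal.Quotient.mk (J.map Φ) (Φ y) := rfl

omit [AddCommGroup Γ] [DecidableEq Γ] [GradedAlgebra gC] [GradedAlgebra gC'] in
theorem BCRing.bcq_mem (h : BCRing σ gC gC' Φ) (J : Ideal C) (g : Γ) (x : C ⧸ J)
    (hx : x ∈ qpiece gC J g) : h.bcq J x ∈ qpiece gC' (J.map Φ) g := by
  obtain ⟨y, hy, rfl⟩ := hx
  exact ⟨Φ y, h.mem g y hy, rfl⟩

/-- The restriction to the pieces. -/
def BCRing.bcp (h : BCRing σ gC gC' Φ) (J : Ideal C) (g : Γ) :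
    qpiece gC J g →ₛₗ[σ] qpiece gC' (J.map Φ) g where
  toFun x := ⟨h.bcq J x.1, h.bcq_mem J g x.1 x.2⟩
  map_add' _ _ := Subtype.ext (map_add _ _ _)
  map_smul' _ _ := Subtype.ext (map_smulₛₗ _ _ _)

omit [AddCommGroup Γ] [DecidableEq Γ] [GradedAlgebra gC] [GradedAlgebra gC'] in
/-- Extended functionals kill the extended ideal. -/
theorem BCRing.kill (h : BCRing σ gC gC' Φ) (J : Ideal C) (ℓ : C →ₗ[B] B)
    (hℓ : ∀ x ∈ J, ℓ x = 0) (ℓ' : C' →ₗ[B'] B') (hℓ' : ∀ x, ℓ' (Φ x) = σ (ℓ x)) :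
    ∀ y ∈ J.map Φ, ℓ' y = 0 := by
  have h1 : ∀ r : C', ∀ x ∈ J, ℓ' (r * Φ x) = 0 := by
    intro r x hx
    have hr := h.gen' r
    induction hr using Submodule.span_induction with
    | mem r hr =>
      obtain ⟨z, rfl⟩ := hr
      rw [← map_mul, hℓ', hℓ _ (J.mul_mem_left z hx), map_zero]
    | zero => rw [zero_mul, map_zero]
    | add a b _ _ ha hb => rw [add_mul, map_add, ha, hb, add_zero]
    | smul c a _ ha => rw [smul_mul_assoc, map_smul, ha, smul_zero]
  let K : Ideal C' :=
    { carrier := {y | ∀ r, ℓ' (r * y) = 0}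
      add_mem' := by
        intro a b ha hb r
        rw [mul_add, map_add, ha, hb, add_zero]
      zero_mem' := by
        intro r
        rw [mul_zero, map_zero]
      smul_mem' := by
        intro c a ha r
        rw [smul_eq_mul, ← mul_assoc]
        exact ha _ }
  have h2 : J.map Φ ≤ K := Ideal.map_le_iff_le_comap.2 (fun x hx r => h1 r x hx)
  intro y hy
  have := h2 hy 1
  rwa [one_mul] at this

/-- The projection of the algebra to a piece of the quotient. -/
noncomputable def toPiece (gC : Γ → Submodule B C) [GradedAlgebra gC] (J : Ideal C) (g : Γ) :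
    C →ₗ[B] qpiece gC J g :=
  ((Ideal.Quotient.mkₐ B J).toLinearMap.comp (GradedAlgebra.proj gC g)).codRestrict _
    (fun x => ⟨GradedAlgebra.proj gC g x, by
      rw [GradedAlgebra.proj_apply]; exact SetLike.coe_mem _, rfl⟩)

theorem toPiece_coe (J : Ideal C) (g : Γ) (x : C) :
    (toPiece gC J g x : C ⧸ J) = Ideal.Quotient.mk J (GradedAlgebra.proj gC g x) := rfl

theorem toPiece_mem (J : Ideal C) (hJ : J.IsHomogeneous gC) (g : Γ) (x : C) (hx : x ∈ J) :
    toPiece gC J g x = 0 := by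
  refine Subtype.ext ?_
  rw [toPiece_coe]
  refine Ideal.Quotient.eq_zero_iff_mem.2 ?_
  rw [GradedAlgebra.proj_apply]
  exact hJ g hx

theorem toPiece_of_mem (J : Ideal C) (g : Γ) (x : C) (hx : x ∈ gC g) :
    (toPiece gC J g x : C ⧸ J) = Ideal.Quotient.mk J x := by
  rw [toPiece_coe, GradedAlgebra.proj_apply, DirectSum.decompose_of_mem_same gC hx]

omit [GradedAlgebra gC'] in
/-- The image of a basis of a piece is a basis. -/
theorem BCRing.exists_basis (h : BCRing σ gC gC' Φ) (J : Ideal C) (hJ : J.IsHomogeneous gC)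
    (g : Γ) {I : Type w} (b : Basis I B (qpiece gC J g)) :
    ∃ b' : Basis I B' (qpiece gC' (J.map Φ) g), ∀ i, b' i = h.bcp J g (b i) := by
  classical
  have hli : LinearIndependent B' (fun i => h.bcp J g (b i)) := by
    rw [linearIndependent_iff']
    intro s c hs j hj
    -- the coordinate functional
    let ℓ : C →ₗ[B] B := (b.coord j).comp (toPiece gC J g)
    obtain ⟨ℓ', hℓ'⟩ := h.ext ℓ
    have hk := h.kill J ℓ (fun x hx => by
      change b.coord j (toPiece gC J g x) = 0
      rw [toPiece_mem J hJ g x hx, map_zero]) ℓ' hℓ'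
    choose y hy hyb using fun i => (b i).2
    have h1 : ∑ i ∈ s, c i • Φ (y i) ∈ J.map Φ := by
      rw [← Ideal.Quotient.eq_zero_iff_mem]
      have h2 := congrArg Subtype.val hs
      rw [Submodule.coe_sum] at h2
      refine Eq.trans ?_ h2
      rw [map_sum]
      refine Finset.sum_congr rfl fun i _ => ?_
      change _ = c i • h.bcq J (b i).1
      rw [← hyb i]
      rfl
    have h3 := hk _ h1
    rw [map_sum] at h3
    have h4 : ∀ i ∈ s, ℓ' (c i • Φ (y i)) = if i = j then c i else 0 := by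
      intro i _
      rw [map_smul, hℓ']
      have h5 : ℓ (y i) = if i = j then 1 else 0 := by
        change b.coord j (toPiece gC J g (y i)) = _
        have h6 : toPiece gC J g (y i) = b i := by
          refine Subtype.ext ?_
          rw [toPiece_of_mem J g (y i) (hy i)]
          exact hyb i
        rw [h6, Basis.coord_apply, Basis.repr_self, Finsupp.single_apply]
      rw [h5]
      split_ifs with hij
      · rw [map_one, smul_eq_mul, mul_one]
      · rw [map_zero, smul_zero]
    rw [Finset.sum_congr rfl h4, Finset.sum_ite_eq' s j, if_pos hj] at h3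
    exact h3
  have hsp : ⊤ ≤ Submodule.span B' (Set.range fun i => h.bcp J g (b i)) := by
    have h1 : ∀ x : qpiece gC J g,
        h.bcp J g x ∈ Submodule.span B' (Set.range fun i => h.bcp J g (b i)) := by
      intro x
      have hx := b.mem_span x
      induction hx using Submodule.span_induction with
      | mem x hx =>
        obtain ⟨i, rfl⟩ := hx
        exact Submodule.subset_span ⟨i, rfl⟩
      | zero => rw [map_zero]; exact Submodule.zero_mem _
      | add a b _ _ ha hb => rw [map_add]; exact Submodule.add_mem _ ha hb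
      | smul c a _ ha => rw [map_smulₛₗ]; exact Submodule.smul_mem _ _ ha
    have h2 : ∀ w : C', w ∈ Submodule.span B' (Φ '' (gC g : Set C)) →
        ∃ z ∈ Submodule.span B' (Set.range fun i => h.bcp J g (b i)),
          (z : C' ⧸ J.map Φ) = Ideal.Quotient.mk (J.map Φ) w := by
      intro w hw
      induction hw using Submodule.span_induction with
      | mem w hw =>
        obtain ⟨y, hy, rfl⟩ := hw
        exact ⟨_, h1 ⟨Ideal.Quotient.mk J y, y, hy, rfl⟩, rfl⟩
      | zero => exact ⟨0, Submodule.zero_mem _, by rw [map_zero]; rfl⟩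
      | add a b _ _ ha hb =>
        obtain ⟨z, hz, hz'⟩ := ha
        obtain ⟨t, ht, ht'⟩ := hb
        exact ⟨z + t, Submodule.add_mem _ hz ht, by
          rw [map_add, ← hz', ← ht']; rfl⟩
      | smul c a _ ha =>
        obtain ⟨z, hz, hz'⟩ := ha
        exact ⟨c • z, Submodule.smul_mem _ _ hz, by
          change c • (z : C' ⧸ J.map Φ) = _
          rw [hz']; rfl⟩
    rintro ⟨z, w, hw, rfl⟩ -
    obtain ⟨t, ht, ht'⟩ := h2 w (h.gen g w hw)
    have h3 : t = ⟨(Ideal.Quotient.mkₐ B' (J.map Φ)).toLinearMap w, w, hw, rfl⟩ := Subtype.ext ht'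
    rw [← h3]
    exact ht
  exact ⟨Basis.mk hli hsp, fun i => Basis.mk_apply hli hsp i⟩

omit [GradedAlgebra gC'] in
/-- The pieces of the extended ideal are finite free. -/
theorem BCRing.ff (h : BCRing σ gC gC' Φ) (J : Ideal C) (hJ : J.IsHomogeneous gC)
    (fJ : FF gC J) : FF gC' (J.map Φ) := by
  intro g
  obtain ⟨b', -⟩ := h.exists_basis J hJ g (qb gC J fJ g)
  exact ⟨Module.Free.of_basis b', Module.Finite.of_basis b'⟩

/-- The image of a homogeneous element. -/
def BCRing.sec (h : BCRing σ gC gC' Φ) (s : HEl B gC) : HEl B' gC' :=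
  ⟨s.1, ⟨Φ s.2, h.mem _ _ s.2.2⟩⟩

/-- (R1), (R1') Base change. -/
theorem BCRing.seq (h : BCRing σ gC gC' Φ) (J : Ideal C) (hJ : J.IsHomogeneous gC)
    (fJ : FF gC J) (fJ' : FF gC' (J.map Φ)) :
    ∃ ρ : Γ → Sg B', ∀ (n : Γ) (l : List (HEl B gC)),
      ((qsys gC J fJ).Good n l → (qsys gC' _ fJ').Good n (l.map h.sec)) ∧
      (Function.Surjective σ → IsLocalHom σ → (qsys gC' _ fJ').Good n (l.map h.sec) →
        (qsys gC J fJ).Good n l) ∧
      (IsDomain B → IsDomain B' → (qsys gC J fJ).Good n l →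
        (qsys gC' _ fJ').D n (l.map h.sec) =
          Sg.map σ ((qsys gC J fJ).D n l) * diffs (l.map (hdeg gC)) ρ n) := by
  choose b' hb' using fun g => h.exists_basis J hJ g (qb gC J fJ g)
  have hj : ∀ (a : Γ) (s : HEl B gC), id (a + hdeg gC s) = id a + hdeg gC' (h.sec s) :=
    fun _ _ => rfl
  let X := qmod gC J fJ
  let Y := (qmod gC' (J.map Φ) fJ').comap (deg' := hdeg gC) id h.sec hj
  let Z := Y.withBases (qI gC J fJ) b'
  let φ : GrMod.Semi σ X Z :=
    { f := h.bcq J
      mem := fun a x hx => h.bcq_mem J a x hx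
      comm := by
        intro s x
        obtain ⟨y, rfl⟩ := Ideal.Quotient.mk_surjective x
        change Ideal.Quotient.mk (J.map Φ) (Φ (hval gC s * y)) =
          Ideal.Quotient.mk (J.map Φ) (Φ (hval gC s)) * Ideal.Quotient.mk (J.map Φ) (Φ y)
        rw [map_mul, map_mul] }
  have hbc : ∀ b, True → φ.gsemi.BcAt b := fun b _ =>
    φ.bcAt b (Equiv.refl _) (fun i => (congrArg Subtype.val (hb' b i)).symm)
  have hT : ∀ (l : List Γ) (n : Γ), AllSub (fun _ : Γ => True) l n := by
    intro l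
    induction l with
    | nil => intro n; trivial
    | cons g l ih =>
      intro n
      exact AllSub.mono (U := fun _ => True) (V := fun _ => True ∧ True)
        (fun _ _ => ⟨trivial, trivial⟩) (ih n)
  have hr := Y.isoRatio_withBases (qI gC J fJ) b'
  refine ⟨fun a => (fun a => (sdet (Y.b a) (b' a) (LinearEquiv.refl B' (Y.P a)))⁻¹)⁻¹ a,
    fun n l => ?_⟩
  have hY : Y.sys.Good n l ↔ (qsys gC' _ fJ').Good n (l.map h.sec) :=
    GSys.comap_good (qsys gC' _ fJ') id h.sec hj n l
  have hYZ : Y.sys.Good n l ↔ Z.sys.Good n l := hr.good n l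
  refine ⟨fun hg => ?_, fun hs hl hg => ?_, fun hB hB' hg => ?_⟩
  · exact hY.1 (hYZ.2 (GSys.GSemi.good φ.gsemi (fun _ => True) hbc n l (hT _ n) hg))
  · exact GSys.GSemi.good_of_local φ.gsemi hs (fun _ => True) hbc n l (hT _ n)
      (hYZ.1 (hY.2 hg))
  · have hZ := GSys.GSemi.good φ.gsemi (fun _ => True) hbc n l (hT _ n) hg
    have h1 := GSys.GSemi.D_eq φ.gsemi (fun _ => True) hbc n l (hT _ n) hg
    have h2 := hr.D_eq n l (hYZ.2 hZ)
    have h3 := GSys.comap_D (qsys gC' _ fJ') id h.sec hj n l (hY.1 (hYZ.2 hZ))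
    have h4 : (qsys gC' _ fJ').D n (l.map h.sec) = Y.sys.D n l := h3.symm
    have h5 : Z.sys.D n l = Sg.map σ ((qsys gC J fJ).D n l) := h1
    rw [h4, ← h5, h2]
    have h6 := congrFun (diffs_inv (l.map (hdeg gC))
      (fun a => (sdet (Y.b a) (b' a) (LinearEquiv.refl B' (Y.P a)))⁻¹)) n
    refine Eq.trans ?_ (congrArg _ h6.symm)
    exact (mul_inv_cancel_right _ _).symm

end

end Pool.Agent.Helper88.SSF
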