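import Pool.Agent.helper88.SSF.NZD

/-!
Project SSF: base change along a ring homomorphism, lifting of contractions over a local ring,
exactness over a field.
-/

namespace Pool.Agent.Helper88.SSF

open Module

universe u v w x y u' v' w'

theorem sdet_reindex {R : Type*} [CommRing R] {M N ι κ ι' κ' : Type*} [Finite ι] [Finite κ]
    [Finite ι'] [Finite κ'] [AddCommGroup M] [AddCommGroup N] [Module R M] [Module R N]
    (b : Basis ι R M) (c : Basis κ R N) (e : ι ≃ ι') (e' : κ ≃ κ') (f : M ≃ₗ[R] N) :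
    sdet (b.reindex e) (c.reindex e') f = sdet b c f := by
  have h1 : sdet (b.reindex e) b (LinearEquiv.refl R M) = 1 :=
    sdet_of_basis _ _ _ e.symm (fun i => by simp)
  have h2 : sdet c (c.reindex e') (LinearEquiv.refl R N) = 1 :=
    sdet_of_basis _ _ _ e' (fun i => by simp)
  have h3 : f = (LinearEquiv.refl R M).trans (f.trans (LinearEquiv.refl R N)) := rfl
  conv_lhs => rw [h3]
  rw [sdet_trans _ b, h1, one_mul, sdet_trans _ c, h2, mul_one]

namespace PC

variable {R : Type u} [CommRing R] {T : Type u'} [CommRing T] (σ : R →+* T)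

/-- A base change map: semilinear maps which commute with the differentials and take bases to
bases. -/
structure BCMap (A : PC.{u, v, w} R) (B : PC.{u', v', w'} T) where
  /-- even part -/
  f0 : A.C0 →ₛₗ[σ] B.C0
  /-- odd part -/
  f1 : A.C1 →ₛₗ[σ] B.C1
  c0 : ∀ x, B.d0 (f0 x) = f1 (A.d0 x)
  c1 : ∀ y, B.d1 (f1 y) = f0 (A.d1 y)
  /-- correspondence of the even bases -/
  j0 : A.I0 ≃ B.I0
  /-- correspondence of the odd bases -/
  j1 : A.I1 ≃ B.I1
  hb0 : ∀ i, f0 (A.b0 i) = B.b0 (j0 i)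
  hb1 : ∀ i, f1 (A.b1 i) = B.b1 (j1 i)

namespace BCMap

variable {σ} {A : PC.{u, v, w} R} {B : PC.{u', v', w'} T} (m : BCMap σ A B)

/-- The target basis indexed by the source. -/
noncomputable def b0 : Basis A.I0 T B.C0 := B.b0.reindex m.j0.symm

/-- The target basis indexed by the source. -/
noncomputable def b1 : Basis A.I1 T B.C1 := B.b1.reindex m.j1.symm

theorem b0_apply (i : A.I0) : m.b0 i = m.f0 (A.b0 i) := by
  rw [b0, Basis.reindex_apply, Equiv.symm_symm, m.hb0]

theorem b1_apply (i : A.I1) : m.b1 i = m.f1 (A.b1 i) := by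
  rw [b1, Basis.reindex_apply, Equiv.symm_symm, m.hb1]

/-- Base change of a linear map on the even part. -/
noncomputable def mk0 (k : A.C0 →ₗ[R] A.C1) : B.C0 →ₗ[T] B.C1 :=
  m.b0.constr T (fun i => m.f1 (k (A.b0 i)))

/-- Base change of a linear map on the odd part. -/
noncomputable def mk1 (k : A.C1 →ₗ[R] A.C0) : B.C1 →ₗ[T] B.C0 :=
  m.b1.constr T (fun i => m.f0 (k (A.b1 i)))

theorem mk0_apply (k : A.C0 →ₗ[R] A.C1) (x : A.C0) : m.mk0 k (m.f0 x) = m.f1 (k x) := by
  have h : (m.mk0 k).comp m.f0 = m.f1.comp k := by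
    apply A.b0.ext
    intro i
    rw [LinearMap.comp_apply, LinearMap.comp_apply, ← b0_apply, mk0, Basis.constr_basis]
  exact congrArg (fun h => h x) h

theorem mk1_apply (k : A.C1 →ₗ[R] A.C0) (x : A.C1) : m.mk1 k (m.f1 x) = m.f0 (k x) := by
  have h : (m.mk1 k).comp m.f1 = m.f0.comp k := by
    apply A.b1.ext
    intro i
    rw [LinearMap.comp_apply, LinearMap.comp_apply, ← b1_apply, mk1, Basis.constr_basis]
  exact congrArg (fun h => h x) h

/-- Base change of a contraction. -/
noncomputable def contr (k : Contr A) : Contr B where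
  k0 := m.mk0 k.k0
  k1 := m.mk1 k.k1
  h0 := by
    have h : B.d1.comp (m.mk0 k.k0) + (m.mk1 k.k1).comp B.d0 = LinearMap.id := by
      apply m.b0.ext
      intro i
      rw [LinearMap.add_apply, LinearMap.comp_apply, LinearMap.comp_apply, b0_apply, mk0_apply,
        m.c0, mk1_apply, m.c1, ← map_add, k.h0]
      rfl
    exact fun x => congrArg (fun h => h x) h
  h1 := by
    have h : B.d0.comp (m.mk1 k.k1) + (m.mk0 k.k0).comp B.d1 = LinearMap.id := by
      apply m.b1.ext
      intro i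
      rw [LinearMap.add_apply, LinearMap.comp_apply, LinearMap.comp_apply, b1_apply, mk1_apply,
        m.c1, mk0_apply, m.c0, ← map_add, k.h1]
      rfl
    exact fun x => congrArg (fun h => h x) h
  kk0 := by
    have h : (m.mk1 k.k1).comp (m.mk0 k.k0) = 0 := by
      apply m.b0.ext
      intro i
      rw [LinearMap.comp_apply, b0_apply, mk0_apply, mk1_apply, k.kk0, map_zero]
      rfl
    exact fun x => congrArg (fun h => h x) h
  kk1 := by
    have h : (m.mk0 k.k0).comp (m.mk1 k.k1) = 0 := by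
      apply m.b1.ext
      intro i
      rw [LinearMap.comp_apply, b1_apply, mk1_apply, mk0_apply, k.kk1, map_zero]
      rfl
    exact fun x => congrArg (fun h => h x) h

include m in
theorem contractible (h : Contractible A) : Contractible B := ⟨m.contr h.some⟩

include m in
/-- (P6) Base change of the torsion. -/
theorem tors_eq [IsDomain R] [IsDomain T] (h : Contractible A) :
    PC.tors B = Sg.map σ (PC.tors A) := by
  obtain ⟨k⟩ := h
  rw [PC.tors_eq k, PC.tors_eq (m.contr k), Contr.tors, Contr.tors,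
    ← sdet_reindex B.b0 B.b1 m.j0.symm m.j1.symm]
  refine sdet_map σ A.b0 A.b1 _ _ m.f0 m.f1 (fun i => (m.b0_apply i).symm)
    (fun i => (m.b1_apply i).symm) k.D _ ?_
  intro x
  rw [Contr.D_apply, Contr.D_apply, map_add, m.c0]
  congr 1
  exact m.mk0_apply _ _

/-- Base change maps of cones. -/
noncomputable def cone {A' : PC.{u, v, w} R} {B' : PC.{u', v', w'} T} (m' : BCMap σ A' B')
    (f : Hom A A') (g : Hom B B') (h0 : ∀ x, g.f0 (m.f0 x) = m'.f0 (f.f0 x))
    (h1 : ∀ x, g.f1 (m.f1 x) = m'.f1 (f.f1 x)) : BCMap σ (PC.cone f) (PC.cone g) where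
  f0 :=
    { toFun := fun x => (m'.f0 x.1, m.f1 x.2)
      map_add' := fun x y => Prod.ext (map_add _ _ _) (map_add _ _ _)
      map_smul' := fun c x => Prod.ext (map_smulₛₗ _ _ _) (map_smulₛₗ _ _ _) }
  f1 :=
    { toFun := fun x => (m'.f1 x.1, m.f0 x.2)
      map_add' := fun x y => Prod.ext (map_add _ _ _) (map_add _ _ _)
      map_smul' := fun c x => Prod.ext (map_smulₛₗ _ _ _) (map_smulₛₗ _ _ _) }
  c0 := by
    rintro ⟨x, y⟩
    change (B'.d0 (m'.f0 x) + g.f1 (m.f1 y), -B.d1 (m.f1 y)) =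
      (m'.f1 (A'.d0 x + f.f1 y), m.f0 (-A.d1 y))
    rw [map_add, m'.c0, h1, map_neg, m.c1]
  c1 := by
    rintro ⟨x, y⟩
    change (B'.d1 (m'.f1 x) + g.f0 (m.f0 y), -B.d0 (m.f0 y)) =
      (m'.f0 (A'.d1 x + f.f0 y), m.f1 (-A.d0 y))
    rw [map_add, m'.c1, h0, map_neg, m.c0]
  j0 := m'.j0.sumCongr m.j1
  j1 := m'.j1.sumCongr m.j0
  hb0 := by
    rintro (i | i)
    · have h := m'.hb0 i
      change (m'.f0 ((A'.b0.prod A.b1) (Sum.inl i)).1, m.f1 ((A'.b0.prod A.b1) (Sum.inl i)).2) =
        (B'.b0.prod B.b1) (Sum.inl (m'.j0 i))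
      simp [Basis.prod_apply, h]
    · have h := m.hb1 i
      change (m'.f0 ((A'.b0.prod A.b1) (Sum.inr i)).1, m.f1 ((A'.b0.prod A.b1) (Sum.inr i)).2) =
        (B'.b0.prod B.b1) (Sum.inr (m.j1 i))
      simp [Basis.prod_apply, h]
  hb1 := by
    rintro (i | i)
    · have h := m'.hb1 i
      change (m'.f1 ((A'.b1.prod A.b0) (Sum.inl i)).1, m.f0 ((A'.b1.prod A.b0) (Sum.inl i)).2) =
        (B'.b1.prod B.b0) (Sum.inl (m'.j1 i))
      simp [Basis.prod_apply, h]
    · have h := m.hb0 i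
      change (m'.f1 ((A'.b1.prod A.b0) (Sum.inr i)).1, m.f0 ((A'.b1.prod A.b0) (Sum.inr i)).2) =
        (B'.b1.prod B.b0) (Sum.inr (m.j0 i))
      simp [Basis.prod_apply, h]

theorem f0_surjective (hσ : Function.Surjective σ) : Function.Surjective m.f0 := by
  intro y
  have := Fintype.ofFinite A.I0
  choose r hr using fun i => hσ (m.b0.repr y i)
  refine ⟨∑ i, r i • A.b0 i, ?_⟩
  rw [map_sum]
  simp only [map_smulₛₗ, hr, ← b0_apply]
  exact m.b0.sum_repr y

theorem f1_surjective (hσ : Function.Surjective σ) : Function.Surjective m.f1 := by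
  intro y
  have := Fintype.ofFinite A.I1
  choose r hr using fun i => hσ (m.b1.repr y i)
  refine ⟨∑ i, r i • A.b1 i, ?_⟩
  rw [map_sum]
  simp only [map_smulₛₗ, hr, ← b1_apply]
  exact m.b1.sum_repr y

end BCMap

/-- An endomorphism which becomes the identity under a local base change is bijective. -/
theorem bijective_of_local {R T : Type*} [CommRing R] [CommRing T] (σ : R →+* T)
    [IsLocalHom σ] {M N I : Type*} [Finite I] [AddCommGroup M] [Module R M] [AddCommGroup N]
    [Module T N] (b : Basis I R M) (c : Basis I T N) (φ : M →ₛₗ[σ] N) (hφ : ∀ i, φ (b i) = c i)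
    (u : M →ₗ[R] M) (hu : ∀ x, φ (u x) = φ x) : Function.Bijective u := by
  classical
  have := Fintype.ofFinite I
  have hcoord : ∀ (y : M) (k : I), c.repr (φ y) k = σ (b.repr y k) := by
    intro y k
    conv_lhs => rw [← b.sum_repr y]
    rw [map_sum, map_sum, Finsupp.finsetSum_apply]
    simp only [map_smulₛₗ, hφ, Finsupp.smul_apply, Basis.repr_self, smul_eq_mul,
      Finsupp.single_apply, mul_ite, mul_one, mul_zero]
    simp
  have hdet : σ (LinearMap.det u) = 1 := by
    rw [← LinearMap.det_toMatrix b, RingHom.map_det]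
    have : σ.mapMatrix (LinearMap.toMatrix b b u) = 1 := by
      ext i j
      rw [RingHom.mapMatrix_apply, Matrix.map_apply, LinearMap.toMatrix_apply, ← hcoord, hu, hφ,
        Basis.repr_self, Matrix.one_apply, Finsupp.single_apply]
      simp [eq_comm]
    rw [this, Matrix.det_one]
  have hunit : IsUnit (LinearMap.det u) := by
    apply IsUnit.of_map σ
    rw [hdet]
    exact isUnit_one
  have hfree : Module.Free R M := Module.Free.of_basis b
  have hfin : Module.Finite R M := Module.Finite.of_basis b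
  have h2 : IsUnit u := (LinearMap.isUnit_iff_isUnit_det u).2 hunit
  exact (Module.End.isUnit_iff u).1 h2

/-- (R9) Lifting of contractions along a surjective local homomorphism. -/
theorem BCMap.contractible_of_local {σ : R →+* T} {A : PC.{u, v, w} R} {B : PC.{u', v', w'} T}
    (m : BCMap σ A B) (hσ : Function.Surjective σ) [IsLocalHom σ] (h : Contractible B) :
    Contractible A := by
  obtain ⟨k⟩ := h
  choose g0 hg0 using fun i => m.f1_surjective hσ (k.k0 (m.f0 (A.b0 i)))
  choose g1 hg1 using fun i => m.f0_surjective hσ (k.k1 (m.f1 (A.b1 i)))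
  let l0 : A.C0 →ₗ[R] A.C1 := A.b0.constr R g0
  let l1 : A.C1 →ₗ[R] A.C0 := A.b1.constr R g1
  have hl0 : ∀ x, m.f1 (l0 x) = k.k0 (m.f0 x) := by
    have h : m.f1.comp l0 = k.k0.comp m.f0 := by
      apply A.b0.ext
      intro i
      rw [LinearMap.comp_apply, LinearMap.comp_apply, ← hg0, Basis.constr_basis]
    exact fun x => congrArg (fun h => h x) h
  have hl1 : ∀ x, m.f0 (l1 x) = k.k1 (m.f1 x) := by
    have h : m.f0.comp l1 = k.k1.comp m.f1 := by
      apply A.b1.ext
      intro i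
      rw [LinearMap.comp_apply, LinearMap.comp_apply, ← hg1, Basis.constr_basis]
    exact fun x => congrArg (fun h => h x) h
  let u0 : A.C0 →ₗ[R] A.C0 := A.d1.comp l0 + l1.comp A.d0
  let u1 : A.C1 →ₗ[R] A.C1 := A.d0.comp l1 + l0.comp A.d1
  have hu0 : ∀ x, u0 x = A.d1 (l0 x) + l1 (A.d0 x) := fun _ => rfl
  have hu1 : ∀ x, u1 x = A.d0 (l1 x) + l0 (A.d1 x) := fun _ => rfl
  have b0 : Function.Bijective u0 := by
    refine bijective_of_local σ A.b0 m.b0 m.f0 (fun i => (m.b0_apply i).symm) u0 (fun x => ?_)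
    rw [hu0, map_add, ← m.c1, hl0, hl1, ← m.c0, k.h0]
  have b1 : Function.Bijective u1 := by
    refine bijective_of_local σ A.b1 m.b1 m.f1 (fun i => (m.b1_apply i).symm) u1 (fun x => ?_)
    rw [hu1, map_add, ← m.c0, hl1, hl0, ← m.c1, k.h1]
  let e0 : A.C0 ≃ₗ[R] A.C0 := LinearEquiv.ofBijective u0 b0
  let e1 : A.C1 ≃ₗ[R] A.C1 := LinearEquiv.ofBijective u1 b1
  have he0 : ∀ x, e0 x = u0 x := fun _ => rfl
  have he1 : ∀ x, e1 x = u1 x := fun _ => rfl
  have c0 : ∀ x, A.d0 (e0.symm x) = e1.symm (A.d0 x) := by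
    intro x
    rw [LinearEquiv.eq_symm_apply, he1, hu1, A.dd0, map_zero, add_zero]
    have h1 : A.d0 (u0 (e0.symm x)) = A.d0 x := by
      rw [← he0, LinearEquiv.apply_symm_apply]
    rw [hu0, map_add, A.dd1, zero_add] at h1
    exact h1
  have c1 : ∀ x, A.d1 (e1.symm x) = e0.symm (A.d1 x) := by
    intro x
    rw [LinearEquiv.eq_symm_apply, he0, hu0, A.dd1, map_zero, add_zero]
    have h1 : A.d1 (u1 (e1.symm x)) = A.d1 x := by
      rw [← he1, LinearEquiv.apply_symm_apply]
    rw [hu1, map_add, A.dd0, zero_add] at h1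
    exact h1
  refine ⟨Contr.ofWeak A (l0.comp (e0.symm : A.C0 →ₗ[R] A.C0))
    (l1.comp (e1.symm : A.C1 →ₗ[R] A.C1)) (fun x => ?_) (fun x => ?_)⟩
  · rw [LinearMap.comp_apply, LinearMap.comp_apply, LinearEquiv.coe_coe, LinearEquiv.coe_coe,
      ← c0, ← hu0, ← he0, LinearEquiv.apply_symm_apply]
  · rw [LinearMap.comp_apply, LinearMap.comp_apply, LinearEquiv.coe_coe, LinearEquiv.coe_coe,
      ← c1, ← hu1, ← he1, LinearEquiv.apply_symm_apply]

/-- A contractible complex is exact. -/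
theorem Contractible.exact0 {A : PC.{u, v, w} R} (h : Contractible A) (x : A.C0)
    (hx : A.d0 x = 0) : ∃ y, A.d1 y = x := by
  obtain ⟨k⟩ := h
  refine ⟨k.k0 x, ?_⟩
  have := k.h0 x
  rwa [hx, map_zero, add_zero] at this

theorem Contractible.exact1 {A : PC.{u, v, w} R} (h : Contractible A) (x : A.C1)
    (hx : A.d1 x = 0) : ∃ y, A.d0 y = x := by
  obtain ⟨k⟩ := h
  refine ⟨k.k1 x, ?_⟩
  have := k.h1 x
  rwa [hx, map_zero, add_zero] at this

/-- Generalised inverses over a field. -/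
theorem exists_ginv {K V W : Type*} [Field K] [AddCommGroup V] [AddCommGroup W] [Module K V]
    [Module K W] (f : V →ₗ[K] W) : ∃ g : W →ₗ[K] V, ∀ x, f (g (f x)) = f x := by
  obtain ⟨s, hs⟩ := f.rangeRestrict.exists_rightInverse_of_surjective
    (LinearMap.range_rangeRestrict f)
  obtain ⟨g, hg⟩ := LinearMap.exists_extend s
  refine ⟨g, fun x => ?_⟩
  have h1 : g (f x) = s ⟨f x, LinearMap.mem_range_self f x⟩ :=
    congrArg (fun h => h ⟨f x, LinearMap.mem_range_self f x⟩) hg
  rw [h1]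
  have h2 := congrArg (fun h => h ⟨f x, LinearMap.mem_range_self f x⟩) hs
  exact congrArg Subtype.val h2

/-- (R10) Over a field an exact complex is contractible. -/
theorem contractible_of_exact {K : Type u} [Field K] (A : PC.{u, v, w} K)
    (h0 : ∀ x, A.d0 x = 0 → ∃ y, A.d1 y = x) (h1 : ∀ x, A.d1 x = 0 → ∃ y, A.d0 y = x) :
    Contractible A := by
  obtain ⟨r0, hr0⟩ := exists_ginv A.d0
  obtain ⟨r1, hr1⟩ := exists_ginv A.d1
  have e0 : ∀ x, A.d0 x = 0 → A.d1 (r1 x) = x := by
    intro x hx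
    obtain ⟨y, rfl⟩ := h0 x hx
    exact hr1 y
  have e1 : ∀ x, A.d1 x = 0 → A.d0 (r0 x) = x := by
    intro x hx
    obtain ⟨y, rfl⟩ := h1 x hx
    exact hr0 y
  refine ⟨Contr.ofWeak A (r1.comp (LinearMap.id - r0.comp A.d0))
    (r0.comp (LinearMap.id - r1.comp A.d1)) (fun x => ?_) (fun x => ?_)⟩
  · simp only [LinearMap.comp_apply, LinearMap.sub_apply, LinearMap.id_apply]
    rw [A.dd0, map_zero, sub_zero, e0 (x - r0 (A.d0 x)) (by rw [map_sub, hr0, sub_self]),
      sub_add_cancel]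
  · simp only [LinearMap.comp_apply, LinearMap.sub_apply, LinearMap.id_apply]
    rw [A.dd1, map_zero, sub_zero, e1 (x - r1 (A.d1 x)) (by rw [map_sub, hr1, sub_self]),
      sub_add_cancel]

end PC

namespace GSys

variable {R : Type u} [CommRing R] {T : Type u'} [CommRing T] {Γ : Type x} [AddCommGroup Γ]
  {S : Type y} {deg : S → Γ}

/-- A base change map of graded systems. -/
structure GBC (σ : R →+* T) (X : GSys.{u, v, w} R Γ S deg) (Y : GSys.{u', v', w'} T Γ S deg) where
  /-- the map in each degree -/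
  m : ∀ a, PC.BCMap σ (X.A a) (Y.A a)
  nat0 : ∀ (s : S) (a b : Γ) (h : a + deg s = b) (x : (X.A a).C0),
    (Y.op s a b h).f0 ((m a).f0 x) = (m b).f0 ((X.op s a b h).f0 x)
  nat1 : ∀ (s : S) (a b : Γ) (h : a + deg s = b) (x : (X.A a).C1),
    (Y.op s a b h).f1 ((m a).f1 x) = (m b).f1 ((X.op s a b h).f1 x)

variable {σ : R →+* T} {X : GSys.{u, v, w} R Γ S deg} {Y : GSys.{u', v', w'} T Γ S deg}

/-- Base change of cones. -/
noncomputable def GBC.cone (φ : GBC σ X Y) (s : S) : GBC σ (X.cone s) (Y.cone s) where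
  m a := (φ.m (a - deg s)).cone (φ.m a) _ _ (φ.nat0 s _ _ _) (φ.nat1 s _ _ _)
  nat0 t a b h := by
    rintro ⟨x, y⟩
    exact Prod.ext (φ.nat0 t a b h x)
      (φ.nat1 t (a - deg s) (b - deg s) (by rw [← h]; abel) y)
  nat1 t a b h := by
    rintro ⟨x, y⟩
    exact Prod.ext (φ.nat1 t a b h x)
      (φ.nat0 t (a - deg s) (b - deg s) (by rw [← h]; abel) y)

theorem GBC.cones (φ : GBC σ X Y) (l : List S) : Nonempty (GBC σ (X.cones l) (Y.cones l)) := by
  induction l generalizing X Y with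
  | nil => exact ⟨φ⟩
  | cons s l ih => exact ih (φ.cone s)

theorem GBC.good (φ : GBC σ X Y) (a : Γ) (l : List S) (h : X.Good a l) : Y.Good a l := by
  obtain ⟨ψ⟩ := φ.cones l
  exact (ψ.m a).contractible h

/-- (P6) Base change of the torsion. -/
theorem GBC.D_eq [IsDomain R] [IsDomain T] (φ : GBC σ X Y) (a : Γ) (l : List S)
    (h : X.Good a l) : Y.D a l = Sg.map σ (X.D a l) := by
  obtain ⟨ψ⟩ := φ.cones l
  exact (ψ.m a).tors_eq h

/-- (R9) If the Koszul complex over the residue ring is contractible, so is the one over the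
local ring. -/
theorem GBC.good_of_local (φ : GBC σ X Y) (hσ : Function.Surjective σ) [IsLocalHom σ] (a : Γ)
    (l : List S) (h : Y.Good a l) : X.Good a l := by
  obtain ⟨ψ⟩ := φ.cones l
  exact (ψ.m a).contractible_of_local hσ h

end GSys

end Pool.Agent.Helper88.SSF
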