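import Pool.Agent.helper88.SSF.GSES

/-!
Project SSF: change of the grading group and of the set of operators; the cone of an operator
which acts injectively.
-/

namespace Pool.Agent.Helper88.SSF

open Module

universe u v w x y x' y'

namespace GSys

variable {R : Type u} [CommRing R] {Γ : Type x} [AddCommGroup Γ] {S : Type y} {deg : S → Γ}
  {Γ' : Type x'} [AddCommGroup Γ'] {S' : Type y'} {deg' : S' → Γ'}

/-- Pull back of a graded system along a map of degrees and a map of operators. -/
def comap (X : GSys.{u, v, w} R Γ S deg) (j : Γ' → Γ) (τ : S' → S)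
    (hj : ∀ a s, j (a + deg' s) = j a + deg (τ s)) : GSys.{u, v, w} R Γ' S' deg' where
  A a := X.A (j a)
  op s a b h := X.op (τ s) (j a) (j b) (by rw [← h, hj])
  comm _ _ _ _ _ _ _ _ _ _ := X.comm _ _ _ _ _ _ _ _ _ _

theorem comap_sub {j : Γ' → Γ} {τ : S' → S} (hj : ∀ a s, j (a + deg' s) = j a + deg (τ s))
    (a : Γ') (s : S') : j (a - deg' s) = j a - deg (τ s) := by
  rw [eq_sub_iff_add_eq, ← hj, sub_add_cancel]

/-- Pull back and cones. -/
noncomputable def comapConeIso (X : GSys.{u, v, w} R Γ S deg) (j : Γ' → Γ) (τ : S' → S)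
    (hj : ∀ a s, j (a + deg' s) = j a + deg (τ s)) (s : S') :
    GIso ((X.comap j τ hj).cone s) ((X.cone (τ s)).comap j τ hj) where
  e a := PC.coneIso (X.op (τ s) (j (a - deg' s)) (j a) (by rw [← hj, sub_add_cancel]))
    (X.op (τ s) (j a - deg (τ s)) (j a) (sub_add_cancel _ _))
    (X.cast (comap_sub hj a s)) (PC.Iso.refl _) (X.op_cast_left (τ s) _ _ _)
  nat t a b h := by
    have e1 := X.op_cast (τ t) (comap_sub hj a s) (comap_sub hj b s)
      (by rw [← hj, ← h]; congr 1; abel) (by rw [← h, hj]; abel)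
    refine PC.Hom.ext (LinearMap.ext ?_) (LinearMap.ext ?_)
    · rintro ⟨x, y⟩
      exact Prod.ext rfl (congrArg (fun h => h.f1 y) e1)
    · rintro ⟨x, y⟩
      exact Prod.ext rfl (congrArg (fun h => h.f0 y) e1)

theorem comap_cone (X : GSys.{u, v, w} R Γ S deg) (j : Γ' → Γ) (τ : S' → S)
    (hj : ∀ a s, j (a + deg' s) = j a + deg (τ s)) (s : S') :
    IsoRatio ((X.comap j τ hj).cone s) ((X.cone (τ s)).comap j τ hj) 1 := by
  refine ⟨X.comapConeIso j τ hj s, ?_⟩
  funext a
  refine (PC.coneIso_ratio _ _ _ _ (X.op_cast_left (τ s) (comap_sub hj a s) _ _)).trans ?_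
  rw [PC.Iso.ratio_refl, cast_ratio, div_one]
  rfl

theorem comap_cones (X : GSys.{u, v, w} R Γ S deg) (j : Γ' → Γ) (τ : S' → S)
    (hj : ∀ a s, j (a + deg' s) = j a + deg (τ s)) (l : List S') :
    IsoRatio ((X.comap j τ hj).cones l) ((X.cones (l.map τ)).comap j τ hj) 1 := by
  induction l generalizing X with
  | nil => exact ⟨GIso.refl _, GIso.ratio_refl _⟩
  | cons s l ih =>
    have h1 := (X.comap_cone j τ hj s).cones l
    rw [diffs_one] at h1
    have h2 := h1.trans (ih (X.cone (τ s)))
    rwa [mul_one] at h2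

theorem comap_good (X : GSys.{u, v, w} R Γ S deg) (j : Γ' → Γ) (τ : S' → S)
    (hj : ∀ a s, j (a + deg' s) = j a + deg (τ s)) (a : Γ') (l : List S') :
    (X.comap j τ hj).Good a l ↔ X.Good (j a) (l.map τ) := by
  obtain ⟨φ, -⟩ := X.comap_cones j τ hj l
  exact (φ.e a).contractible_iff

theorem comap_D [IsDomain R] (X : GSys.{u, v, w} R Γ S deg) (j : Γ' → Γ) (τ : S' → S)
    (hj : ∀ a s, j (a + deg' s) = j a + deg (τ s)) (a : Γ') (l : List S')
    (hg : X.Good (j a) (l.map τ)) :
    (X.comap j τ hj).D a l = X.D (j a) (l.map τ) := by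
  obtain ⟨φ, hφ⟩ := X.comap_cones j τ hj l
  have hg' := (X.comap_good j τ hj a l).2 hg
  have h1 := (φ.e a).tors hg'
  have h2 : (φ.e a).ratio = 1 := congrFun hφ a
  rw [h2, mul_one] at h1
  exact h1.symm

/-! ### adding a section which acts as the identity -/

/-- Degrees of the extended set of operators. -/
def optDeg (deg : S → Γ) : Option S → Γ
  | none => 0
  | some s => deg s

/-- Add an operator which acts as the identity. -/
def opt (X : GSys.{u, v, w} R Γ S deg) : GSys.{u, v, w} R Γ (Option S) (optDeg deg) where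
  A := X.A
  op s a b h := match s, h with
    | none, h => (X.cast ((add_zero a).symm.trans h)).hom
    | some s, h => X.op s a b h
  comm s t a b c d h1 h2 h3 h4 := by
    rcases s with _ | s <;> rcases t with _ | t
    · change a + 0 = b at h1
      change b + 0 = d at h2
      change a + 0 = c at h3
      change c + 0 = d at h4
      rw [add_zero] at h1 h2 h3 h4
      subst h1; subst h2; subst h3
      rfl
    · change a + 0 = b at h1
      change c + 0 = d at h4
      rw [add_zero] at h1 h4
      subst h1; subst h4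
      rfl
    · change b + 0 = d at h2
      change a + 0 = c at h3
      rw [add_zero] at h2 h3
      subst h2; subst h3
      rfl
    · exact X.comm s t a b c d h1 h2 h3 h4

theorem opt_isOne (X : GSys.{u, v, w} R Γ S deg) : X.opt.IsOne none := by
  refine ⟨rfl, fun a h => ?_⟩
  change (X.cast _).hom = _
  rw [cast_rfl]
  rfl

/-- The system whose complex in degree `a` is the cone of the identity of `X.A a`. -/
noncomputable def coneOne (X : GSys.{u, v, w} R Γ S deg) : GSys.{u, v, w} R Γ S deg where
  A a := PC.cone (PC.Hom.id (X.A a))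
  op s a b h := PC.coneMap _ _ (X.op s a b h) (X.op s a b h) rfl
  comm s t a b c d h1 h2 h3 h4 := by
    have e1 := X.comm s t a b c d h1 h2 h3 h4
    refine PC.Hom.ext (LinearMap.ext ?_) (LinearMap.ext ?_)
    · rintro ⟨x, y⟩
      exact Prod.ext (congrArg (fun h => h.f0 x) e1) (congrArg (fun h => h.f1 y) e1)
    · rintro ⟨x, y⟩
      exact Prod.ext (congrArg (fun h => h.f1 x) e1) (congrArg (fun h => h.f0 y) e1)

theorem opt_hj (deg : S → Γ) (a : Γ) (s : S) :
    id (a + deg s) = id a + optDeg deg (some s) := rfl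

theorem opt_none_cast (X : GSys.{u, v, w} R Γ S deg) (a b : Γ) (h1 : a = b)
    (h2 : b + optDeg deg none = a) :
    (X.opt.op none b a h2).comp (X.cast h1).hom =
      (PC.Iso.refl (X.A a)).hom.comp (PC.Hom.id (X.A a)) := by
  subst h1
  rfl

/-- The comparison of `coneOne` with the cone of the extra operator of `opt`. -/
noncomputable def coneOneIso (X : GSys.{u, v, w} R Γ S deg) :
    GIso X.coneOne ((X.opt.cone none).comap (deg' := deg) id some (opt_hj deg)) where
  e a := PC.coneIso (PC.Hom.id (X.A a)) (X.opt.op none (a - optDeg deg none) a (sub_add_cancel _ _))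
    (X.cast (sub_zero a).symm) (PC.Iso.refl _)
    (X.opt_none_cast a (a - 0) (sub_zero a).symm (sub_add_cancel _ _))
  nat t a b h := by
    have e1 := X.op_cast t (sub_zero a).symm (sub_zero b).symm h
      (by rw [sub_zero, sub_zero]; exact h)
    refine PC.Hom.ext (LinearMap.ext ?_) (LinearMap.ext ?_)
    · rintro ⟨x, y⟩
      exact Prod.ext rfl (congrArg (fun h => h.f1 y) e1)
    · rintro ⟨x, y⟩
      exact Prod.ext rfl (congrArg (fun h => h.f0 y) e1)

theorem coneOne_isoRatio (X : GSys.{u, v, w} R Γ S deg) :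
    IsoRatio X.coneOne ((X.opt.cone none).comap (deg' := deg) id some (opt_hj deg)) 1 := by
  refine ⟨X.coneOneIso, ?_⟩
  funext a
  refine (PC.coneIso_ratio _ _ _ _
    (X.opt_none_cast a (a - 0) (sub_zero a).symm (sub_add_cancel _ _))).trans ?_
  exact (congrArg₂ (· / ·) (PC.Iso.ratio_refl (X.A a))
    (X.cast_ratio (sub_zero a).symm)).trans (div_one 1)

/-- The cone of the identity has contractible Koszul complexes with trivial torsion. -/
theorem coneOne_good (X : GSys.{u, v, w} R Γ S deg) (a : Γ) (l : List S) :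
    X.coneOne.Good a l := by
  rw [X.coneOne_isoRatio.good, comap_good]
  have hc : ∀ (Y : GSys.{u, v, w} R Γ (Option S) (optDeg deg)), Y.IsOne none →
      ∀ l : List (Option S), Y.Good a (none :: l) := by
    intro Y hY l
    have hg : Y.Good a (l ++ [none]) := by
      rw [Good, cones_concat]; exact ((hY.cones l).cone_good a).1
    exact (Y.good_perm (List.perm_append_singleton none l) a).1 hg
  exact hc X.opt X.opt_isOne (l.map some)

theorem coneOne_D [IsDomain R] (X : GSys.{u, v, w} R Γ S deg) (a : Γ) (l : List S) :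
    X.coneOne.D a l = 1 := by
  have hg := X.coneOne_good a l
  have h1 := X.coneOne_isoRatio.D_eq a l hg
  rw [diffs_one, Pi.one_apply, mul_one] at h1
  rw [← h1, comap_D]
  · exact (X.opt_isOne.D_eq_one a (none :: l.map some) (by simp)).2
  · exact (X.opt_isOne.D_eq_one a (none :: l.map some) (by simp)).1

end GSys

end Pool.Agent.Helper88.SSF
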