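import Pool.Agent.helper88.SSF.PC

/-!
Project SSF: maps, isomorphisms, extensions and cones of two-periodic complexes; torsion.
-/

namespace Pool.Agent.Helper88.SSF

open Module

universe u v w

namespace PC

variable {R : Type u} [CommRing R]

/-- Maps of complexes. -/
@[ext]
structure Hom (A B : PC.{u, v, w} R) where
  /-- even part -/
  f0 : A.C0 →ₗ[R] B.C0
  /-- odd part -/
  f1 : A.C1 →ₗ[R] B.C1
  c0 : ∀ x, B.d0 (f0 x) = f1 (A.d0 x)
  c1 : ∀ y, B.d1 (f1 y) = f0 (A.d1 y)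

/-- The identity map. -/
def Hom.id (A : PC.{u, v, w} R) : Hom A A := ⟨LinearMap.id, LinearMap.id, fun _ => rfl, fun _ => rfl⟩

/-- Composition (first `f`, then `g`). -/
def Hom.comp {A B C : PC.{u, v, w} R} (g : Hom B C) (f : Hom A B) : Hom A C where
  f0 := g.f0.comp f.f0
  f1 := g.f1.comp f.f1
  c0 x := by simp only [LinearMap.comp_apply, g.c0, f.c0]
  c1 x := by simp only [LinearMap.comp_apply, g.c1, f.c1]

theorem Hom.comp_f0 {A B C : PC.{u, v, w} R} (g : Hom B C) (f : Hom A B) (x : A.C0) :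
    (g.comp f).f0 x = g.f0 (f.f0 x) := rfl

theorem Hom.comp_f1 {A B C : PC.{u, v, w} R} (g : Hom B C) (f : Hom A B) (x : A.C1) :
    (g.comp f).f1 x = g.f1 (f.f1 x) := rfl

/-- Isomorphisms of complexes (the bases are not preserved). -/
structure Iso (A B : PC.{u, v, w} R) where
  /-- even part -/
  e0 : A.C0 ≃ₗ[R] B.C0
  /-- odd part -/
  e1 : A.C1 ≃ₗ[R] B.C1
  c0 : ∀ x, B.d0 (e0 x) = e1 (A.d0 x)
  c1 : ∀ y, B.d1 (e1 y) = e0 (A.d1 y)

/-- The ratio of an isomorphism: odd determinant divided by even determinant. -/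
noncomputable def Iso.ratio {A B : PC.{u, v, w} R} (e : Iso A B) : Sg R :=
  sdet A.b1 B.b1 e.e1 / sdet A.b0 B.b0 e.e0

/-- The underlying map. -/
def Iso.hom {A B : PC.{u, v, w} R} (e : Iso A B) : Hom A B := ⟨e.e0, e.e1, e.c0, e.c1⟩

/-- The identity isomorphism. -/
def Iso.refl (A : PC.{u, v, w} R) : Iso A A :=
  ⟨LinearEquiv.refl R _, LinearEquiv.refl R _, fun _ => rfl, fun _ => rfl⟩

/-- The inverse isomorphism. -/
def Iso.symm {A B : PC.{u, v, w} R} (e : Iso A B) : Iso B A where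
  e0 := e.e0.symm
  e1 := e.e1.symm
  c0 x := by
    apply e.e1.injective
    rw [← e.c0, LinearEquiv.apply_symm_apply, LinearEquiv.apply_symm_apply]
  c1 y := by
    apply e.e0.injective
    rw [← e.c1, LinearEquiv.apply_symm_apply, LinearEquiv.apply_symm_apply]

/-- Composition of isomorphisms. -/
def Iso.trans {A B C : PC.{u, v, w} R} (e : Iso A B) (f : Iso B C) : Iso A C where
  e0 := e.e0.trans f.e0
  e1 := e.e1.trans f.e1
  c0 x := by simp only [LinearEquiv.trans_apply, f.c0, e.c0]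
  c1 x := by simp only [LinearEquiv.trans_apply, f.c1, e.c1]

theorem Iso.ratio_refl (A : PC.{u, v, w} R) : (Iso.refl A).ratio = 1 := by
  simp only [Iso.ratio, Iso.refl, sdet_refl, div_one]

theorem Iso.ratio_symm {A B : PC.{u, v, w} R} (e : Iso A B) : e.symm.ratio = e.ratio⁻¹ := by
  simp only [Iso.ratio, Iso.symm, sdet_symm, inv_div_inv, inv_div]

theorem Iso.ratio_trans {A B C : PC.{u, v, w} R} (e : Iso A B) (f : Iso B C) :
    (e.trans f).ratio = e.ratio * f.ratio := by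
  simp only [Iso.ratio, Iso.trans]
  rw [sdet_trans A.b1 B.b1 C.b1, sdet_trans A.b0 B.b0 C.b0, mul_div_mul_comm]

/-- Transport of a contraction. -/
def Contr.map {A B : PC.{u, v, w} R} (k : Contr A) (e : Iso A B) : Contr B where
  k0 := (e.e1 : A.C1 →ₗ[R] B.C1).comp (k.k0.comp (e.e0.symm : B.C0 →ₗ[R] A.C0))
  k1 := (e.e0 : A.C0 →ₗ[R] B.C0).comp (k.k1.comp (e.e1.symm : B.C1 →ₗ[R] A.C1))
  h0 x := by
    simp only [LinearMap.comp_apply, LinearEquiv.coe_coe]
    have h1 : e.e1.symm (B.d0 x) = A.d0 (e.e0.symm x) := (e.symm.c0 x).symm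
    rw [e.c1, h1, ← map_add, k.h0, LinearEquiv.apply_symm_apply]
  h1 y := by
    simp only [LinearMap.comp_apply, LinearEquiv.coe_coe]
    have h1 : e.e0.symm (B.d1 y) = A.d1 (e.e1.symm y) := (e.symm.c1 y).symm
    rw [e.c0, h1, ← map_add, k.h1, LinearEquiv.apply_symm_apply]
  kk0 x := by
    simp only [LinearMap.comp_apply, LinearEquiv.coe_coe, LinearEquiv.symm_apply_apply, k.kk0,
      map_zero]
  kk1 y := by
    simp only [LinearMap.comp_apply, LinearEquiv.coe_coe, LinearEquiv.symm_apply_apply, k.kk1,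
      map_zero]

theorem Iso.contractible {A B : PC.{u, v, w} R} (e : Iso A B) (h : Contractible A) :
    Contractible B := ⟨h.some.map e⟩

theorem Iso.contractible_iff {A B : PC.{u, v, w} R} (e : Iso A B) :
    Contractible A ↔ Contractible B := ⟨e.contractible, e.symm.contractible⟩

/-- Torsion and isomorphisms. -/
theorem Iso.tors [IsDomain R] {A B : PC.{u, v, w} R} (e : Iso A B) (h : Contractible A) :
    tors B = tors A * e.ratio := by
  obtain ⟨k⟩ := h
  rw [tors_eq k, tors_eq (k.map e)]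
  have h1 : (k.map e).D = e.e0.symm.trans (k.D.trans e.e1) := by
    ext x
    rw [Contr.D_apply, LinearEquiv.trans_apply, LinearEquiv.trans_apply, Contr.D_apply, map_add,
      ← e.c0, LinearEquiv.apply_symm_apply]
    rfl
  rw [Contr.tors, h1, sdet_trans B.b0 A.b0 B.b1, sdet_trans A.b0 A.b1 B.b1, sdet_symm, Iso.ratio,
    Contr.tors, mul_comm, mul_assoc, ← div_eq_mul_inv]

/-- The twisted direct sum of `A` (sub) and `B` (quotient). -/
noncomputable abbrev ext (A B : PC.{u, v, w} R) (t0 : B.C0 →ₗ[R] A.C1) (t1 : B.C1 →ₗ[R] A.C0)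
    (h0 : ∀ x, A.d1 (t0 x) + t1 (B.d0 x) = 0) (h1 : ∀ y, A.d0 (t1 y) + t0 (B.d1 y) = 0) :
    PC.{u, v, w} R where
  C0 := A.C0 × B.C0
  C1 := A.C1 × B.C1
  I0 := A.I0 ⊕ B.I0
  I1 := A.I1 ⊕ B.I1
  b0 := A.b0.prod B.b0
  b1 := A.b1.prod B.b1
  d0 := LinearMap.prod (A.d0.comp (LinearMap.fst R _ _) + t0.comp (LinearMap.snd R _ _))
    (B.d0.comp (LinearMap.snd R _ _))
  d1 := LinearMap.prod (A.d1.comp (LinearMap.fst R _ _) + t1.comp (LinearMap.snd R _ _))
    (B.d1.comp (LinearMap.snd R _ _))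
  dd0 := by
    rintro ⟨x, y⟩
    change (A.d1 (A.d0 x + t0 y) + t1 (B.d0 y), B.d1 (B.d0 y)) = 0
    rw [map_add, A.dd0, zero_add, h0, B.dd0]
    rfl
  dd1 := by
    rintro ⟨x, y⟩
    change (A.d0 (A.d1 x + t1 y) + t0 (B.d1 y), B.d0 (B.d1 y)) = 0
    rw [map_add, A.dd1, zero_add, h1, B.dd1]
    rfl

section ext

variable (A B : PC.{u, v, w} R) (t0 : B.C0 →ₗ[R] A.C1) (t1 : B.C1 →ₗ[R] A.C0)
    (h0 : ∀ x, A.d1 (t0 x) + t1 (B.d0 x) = 0) (h1 : ∀ y, A.d0 (t1 y) + t0 (B.d1 y) = 0)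

theorem ext_d0 (x : A.C0) (y : B.C0) :
    (ext A B t0 t1 h0 h1).d0 (x, y) = (A.d0 x + t0 y, B.d0 y) := rfl

theorem ext_d1 (x : A.C1) (y : B.C1) :
    (ext A B t0 t1 h0 h1).d1 (x, y) = (A.d1 x + t1 y, B.d1 y) := rfl

/-- The contraction of a twisted direct sum. -/
noncomputable def extContr (k : Contr A) (l : Contr B) : Contr (ext A B t0 t1 h0 h1) where
  k0 := LinearMap.prod (k.k0.comp (LinearMap.fst R _ _) -
      (k.k0.comp (t1.comp l.k0)).comp (LinearMap.snd R _ _)) (l.k0.comp (LinearMap.snd R _ _))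
  k1 := LinearMap.prod (k.k1.comp (LinearMap.fst R _ _) -
      (k.k1.comp (t0.comp l.k1)).comp (LinearMap.snd R _ _)) (l.k1.comp (LinearMap.snd R _ _))
  h0 := by
    rintro ⟨x, y⟩
    change (A.d1 (k.k0 x - k.k0 (t1 (l.k0 y))) + t1 (l.k0 y) +
      (k.k1 (A.d0 x + t0 y) - k.k1 (t0 (l.k1 (B.d0 y)))), B.d1 (l.k0 y) + l.k1 (B.d0 y)) = (x, y)
    rw [l.h0, Prod.mk.injEq]
    refine ⟨?_, rfl⟩
    have e1 := k.h0 x
    have e2 := k.h0 (t1 (l.k0 y))
    have e3 : t0 y = t0 (B.d1 (l.k0 y)) + t0 (l.k1 (B.d0 y)) := by rw [← map_add, l.h0]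
    have e4 := h1 (l.k0 y)
    rw [map_sub, map_add, e3, map_add]
    have e5 : k.k1 (A.d0 (t1 (l.k0 y))) + k.k1 (t0 (B.d1 (l.k0 y))) = 0 := by
      rw [← map_add, e4, map_zero]
    have key : ∀ a b c d e f g : A.C0, a + c = x → b + e = g → e + f = 0 →
        a - b + g + (c + (f + d) - d) = x := by
      intro a b c d e f g q1 q2 q3
      rw [← q1, ← q2]
      have : f = -e := by rw [eq_neg_iff_add_eq_zero, add_comm]; exact q3
      rw [this]; abel
    exact key _ _ _ _ _ _ _ e1 e2 e5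
  h1 := by
    rintro ⟨x, y⟩
    change (A.d0 (k.k1 x - k.k1 (t0 (l.k1 y))) + t0 (l.k1 y) +
      (k.k0 (A.d1 x + t1 y) - k.k0 (t1 (l.k0 (B.d1 y)))), B.d0 (l.k1 y) + l.k0 (B.d1 y)) = (x, y)
    rw [l.h1, Prod.mk.injEq]
    refine ⟨?_, rfl⟩
    have e1 := k.h1 x
    have e2 := k.h1 (t0 (l.k1 y))
    have e3 : t1 y = t1 (B.d0 (l.k1 y)) + t1 (l.k0 (B.d1 y)) := by rw [← map_add, l.h1]
    have e4 := h0 (l.k1 y)
    rw [map_sub, map_add, e3, map_add]
    have e5 : k.k0 (A.d1 (t0 (l.k1 y))) + k.k0 (t1 (B.d0 (l.k1 y))) = 0 := by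
      rw [← map_add, e4, map_zero]
    have key : ∀ a b c d e f g : A.C1, a + c = x → b + e = g → e + f = 0 →
        a - b + g + (c + (f + d) - d) = x := by
      intro a b c d e f g q1 q2 q3
      rw [← q1, ← q2]
      have : f = -e := by rw [eq_neg_iff_add_eq_zero, add_comm]; exact q3
      rw [this]; abel
    exact key _ _ _ _ _ _ _ e1 e2 e5
  kk0 := by
    rintro ⟨x, y⟩
    change (k.k1 (k.k0 x - k.k0 (t1 (l.k0 y))) - k.k1 (t0 (l.k1 (l.k0 y))), l.k1 (l.k0 y)) = 0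
    rw [l.kk0, map_zero, map_zero, map_sub, k.kk0, k.kk0, sub_zero, sub_zero]
    rfl
  kk1 := by
    rintro ⟨x, y⟩
    change (k.k0 (k.k1 x - k.k1 (t0 (l.k1 y))) - k.k0 (t1 (l.k0 (l.k1 y))), l.k0 (l.k1 y)) = 0
    rw [l.kk1, map_zero, map_zero, map_sub, k.kk1, k.kk1, sub_zero, sub_zero]
    rfl

theorem ext_contractible (hA : Contractible A) (hB : Contractible B) :
    Contractible (ext A B t0 t1 h0 h1) := ⟨extContr A B t0 t1 h0 h1 hA.some hB.some⟩

theorem ext_tors [IsDomain R] (hA : Contractible A) (hB : Contractible B) :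
    PC.tors (ext A B t0 t1 h0 h1) = PC.tors A * PC.tors B := by
  obtain ⟨k⟩ := hA
  obtain ⟨l⟩ := hB
  rw [tors_eq k, tors_eq l, tors_eq (extContr A B t0 t1 h0 h1 k l)]
  refine sdet_block A.b0 B.b0 A.b1 B.b1 _ k.D (t0 - k.k0.comp (t1.comp l.k0)) l.D ?_
  intro x y
  change (A.d0 x + t0 y + (k.k0 x - k.k0 (t1 (l.k0 y))), B.d0 y + l.k0 y) =
    (A.d0 x + k.k0 x + (t0 y - k.k0 (t1 (l.k0 y))), B.d0 y + l.k0 y)
  congr 1
  abel

end ext

/-- The shifted complex with the sign changed. -/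
abbrev shift (A : PC.{u, v, w} R) : PC.{u, v, w} R where
  C0 := A.C1
  C1 := A.C0
  I0 := A.I1
  I1 := A.I0
  b0 := A.b1
  b1 := A.b0
  d0 := -A.d1
  d1 := -A.d0
  dd0 x := by simp [A.dd1]
  dd1 x := by simp [A.dd0]

/-- The contraction of the shift. -/
def shiftContr {A : PC.{u, v, w} R} (k : Contr A) : Contr A.shift where
  k0 := -k.k1
  k1 := -k.k0
  h0 x := by
    change -A.d0 (-k.k1 x) + -k.k0 (-A.d1 x) = x
    rw [map_neg, map_neg, neg_neg, neg_neg, k.h1]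
  h1 x := by
    change -A.d1 (-k.k0 x) + -k.k1 (-A.d0 x) = x
    rw [map_neg, map_neg, neg_neg, neg_neg, k.h0]
  kk0 x := by
    change -k.k0 (-k.k1 x) = 0
    rw [map_neg, k.kk1, neg_zero, neg_zero]
  kk1 x := by
    change -k.k1 (-k.k0 x) = 0
    rw [map_neg, k.kk0, neg_zero, neg_zero]

theorem shift_contractible {A : PC.{u, v, w} R} (h : Contractible A) : Contractible A.shift :=
  ⟨shiftContr h.some⟩

theorem shift_tors [IsDomain R] {A : PC.{u, v, w} R} (h : Contractible A) :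
    PC.tors A.shift = (PC.tors A)⁻¹ := by
  obtain ⟨k⟩ := h
  rw [tors_eq k, tors_eq (shiftContr k), Contr.tors, Contr.tors, ← sdet_symm]
  have h1 : (shiftContr k).D = k.D.symm.trans (LinearEquiv.neg R) := by
    ext x
    rw [Contr.D_apply, LinearEquiv.trans_apply, Contr.D_symm_apply]
    change -A.d1 x + -k.k1 x = -(A.d1 x + k.k1 x)
    abel
  rw [h1]
  exact sdet_neg A.b1 A.b0 k.D.symm

/-- The cone of a map: `B` plus the shift of `A`. -/
noncomputable abbrev cone {A B : PC.{u, v, w} R} (f : Hom A B) : PC.{u, v, w} R :=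
  ext B A.shift f.f1 f.f0
    (fun x => by
      change B.d1 (f.f1 x) + f.f0 (-A.d1 x) = 0
      rw [map_neg, f.c1, add_neg_cancel])
    (fun x => by
      change B.d0 (f.f0 x) + f.f1 (-A.d0 x) = 0
      rw [map_neg, f.c0, add_neg_cancel])

theorem cone_d0 {A B : PC.{u, v, w} R} (f : Hom A B) (b : B.C0) (a : A.C1) :
    (cone f).d0 (b, a) = (B.d0 b + f.f1 a, -A.d1 a) := rfl

theorem cone_d1 {A B : PC.{u, v, w} R} (f : Hom A B) (b : B.C1) (a : A.C0) :
    (cone f).d1 (b, a) = (B.d1 b + f.f0 a, -A.d0 a) := rfl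

theorem cone_contractible {A B : PC.{u, v, w} R} (f : Hom A B) (hA : Contractible A)
    (hB : Contractible B) : Contractible (cone f) :=
  ext_contractible _ _ _ _ _ _ hB (shift_contractible hA)

/-- The torsion of the cone of a map between contractible complexes. -/
theorem cone_tors [IsDomain R] {A B : PC.{u, v, w} R} (f : Hom A B) (hA : Contractible A)
    (hB : Contractible B) : PC.tors (cone f) = PC.tors B / PC.tors A := by
  rw [cone, ext_tors _ _ _ _ _ _ hB (shift_contractible hA), shift_tors hA, div_eq_mul_inv]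

/-- Maps of cones. -/
def coneMap {A B A' B' : PC.{u, v, w} R} (f : Hom A B) (f' : Hom A' B') (a : Hom A A')
    (b : Hom B B') (h : f'.comp a = b.comp f) : Hom (cone f) (cone f') where
  f0 := LinearMap.prodMap b.f0 a.f1
  f1 := LinearMap.prodMap b.f1 a.f0
  c0 := by
    rintro ⟨x, y⟩
    change (B'.d0 (b.f0 x) + f'.f1 (a.f1 y), -A'.d1 (a.f1 y)) =
      (b.f1 (B.d0 x + f.f1 y), a.f0 (-A.d1 y))
    rw [b.c0, a.c1, map_add, map_neg]
    have : f'.f1 (a.f1 y) = b.f1 (f.f1 y) := by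
      rw [← Hom.comp_f1, ← Hom.comp_f1, h]
    rw [this]
  c1 := by
    rintro ⟨x, y⟩
    change (B'.d1 (b.f1 x) + f'.f0 (a.f0 y), -A'.d0 (a.f0 y)) =
      (b.f0 (B.d1 x + f.f0 y), a.f1 (-A.d0 y))
    rw [b.c1, a.c0, map_add, map_neg]
    have : f'.f0 (a.f0 y) = b.f0 (f.f0 y) := by
      rw [← Hom.comp_f0, ← Hom.comp_f0, h]
    rw [this]

/-- Isomorphisms of cones. -/
def coneIso {A B A' B' : PC.{u, v, w} R} (f : Hom A B) (f' : Hom A' B') (a : Iso A A')
    (b : Iso B B') (h : f'.comp a.hom = b.hom.comp f) : Iso (cone f) (cone f') where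
  e0 := LinearEquiv.prodCongr b.e0 a.e1
  e1 := LinearEquiv.prodCongr b.e1 a.e0
  c0 := (coneMap f f' a.hom b.hom h).c0
  c1 := (coneMap f f' a.hom b.hom h).c1

theorem coneIso_ratio {A B A' B' : PC.{u, v, w} R} (f : Hom A B) (f' : Hom A' B')
    (a : Iso A A') (b : Iso B B') (h : f'.comp a.hom = b.hom.comp f) :
    (coneIso f f' a b h).ratio = b.ratio / a.ratio := by
  have h1 : sdet (cone f).b1 (cone f').b1 (coneIso f f' a b h).e1 =
      sdet B.b1 B'.b1 b.e1 * sdet A.b0 A'.b0 a.e0 := sdet_prod _ _ _ _ _ _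
  have h2 : sdet (cone f).b0 (cone f').b0 (coneIso f f' a b h).e0 =
      sdet B.b0 B'.b0 b.e0 * sdet A.b1 A'.b1 a.e1 := sdet_prod _ _ _ _ _ _
  rw [Iso.ratio, h1, h2, Iso.ratio, Iso.ratio, div_div_div_eq]

end PC

end Pool.Agent.Helper88.SSF
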