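import Pool.Agent.helper88.SSF.Cone

/-!
Project SSF: cones of isomorphisms and of composite maps.
-/

namespace Pool.Agent.Helper88.SSF

open Module

universe u v w

section lin

variable {R : Type*} [CommRing R] {M1 M2 M3 M4 : Type*} [AddCommGroup M1] [AddCommGroup M2]
  [AddCommGroup M3] [AddCommGroup M4] [Module R M1] [Module R M2] [Module R M3] [Module R M4]

/-- An isomorphism which exchanges two summands and is unipotent otherwise. -/
def swapU (g : M1 →ₗ[R] M3) (f : M2 →ₗ[R] M4) :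
    ((M1 × M2) × (M3 × M4)) ≃ₗ[R] ((M3 × M2) × (M1 × M4)) where
  toFun x := ((x.2.1 + g x.1.1, x.1.2), (x.1.1, x.2.2 - f x.1.2))
  invFun x := ((x.2.1, x.1.2), (x.1.1 - g x.2.1, x.2.2 + f x.1.2))
  map_add' x y := by
    ext <;> simp <;> abel
  map_smul' c x := by
    ext <;> simp [smul_sub]
  left_inv x := by
    ext <;> simp
  right_inv x := by
    ext <;> simp

theorem swapU_apply (g : M1 →ₗ[R] M3) (f : M2 →ₗ[R] M4) (x1 : M1) (x2 : M2) (x3 : M3) (x4 : M4) :
    swapU g f ((x1, x2), (x3, x4)) = ((x3 + g x1, x2), (x1, x4 - f x2)) := rfl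

theorem swapU_symm_apply (g : M1 →ₗ[R] M3) (f : M2 →ₗ[R] M4) (x1 : M1) (x2 : M2) (x3 : M3)
    (x4 : M4) :
    (swapU g f).symm ((x3, x2), (x1, x4)) = ((x1, x2), (x3 - g x1, x4 + f x2)) := rfl

theorem sdet_swapU [IsDomain R] {I1 I2 I3 I4 : Type*} [Finite I1] [Finite I2] [Finite I3]
    [Finite I4] (b1 : Basis I1 R M1) (b2 : Basis I2 R M2) (b3 : Basis I3 R M3)
    (b4 : Basis I4 R M4) (g : M1 →ₗ[R] M3) (f : M2 →ₗ[R] M4) :
    sdet ((b1.prod b2).prod (b3.prod b4)) ((b3.prod b2).prod (b1.prod b4)) (swapU g f) = 1 := by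
  have h1 : sdet ((b1.prod b2).prod (b3.prod b4)) ((b3.prod b2).prod (b1.prod b4))
      (swapU (0 : M1 →ₗ[R] M3) (0 : M2 →ₗ[R] M4)) = 1 := by
    let e : (I1 ⊕ I2) ⊕ (I3 ⊕ I4) ≃ (I3 ⊕ I2) ⊕ (I1 ⊕ I4) :=
      { toFun := fun x => match x with
          | Sum.inl (Sum.inl i) => Sum.inr (Sum.inl i)
          | Sum.inl (Sum.inr i) => Sum.inl (Sum.inr i)
          | Sum.inr (Sum.inl i) => Sum.inl (Sum.inl i)
          | Sum.inr (Sum.inr i) => Sum.inr (Sum.inr i)
        invFun := fun x => match x with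
          | Sum.inl (Sum.inl i) => Sum.inr (Sum.inl i)
          | Sum.inl (Sum.inr i) => Sum.inl (Sum.inr i)
          | Sum.inr (Sum.inl i) => Sum.inl (Sum.inl i)
          | Sum.inr (Sum.inr i) => Sum.inr (Sum.inr i)
        left_inv := by rintro ((i | i) | (i | i)) <;> rfl
        right_inv := by rintro ((i | i) | (i | i)) <;> rfl }
    refine sdet_of_basis _ _ _ e ?_
    rintro ((i | i) | (i | i)) <;> simp [Basis.prod_apply, e, swapU]
  rw [← h1]
  symm
  apply sdet_add_nilpotent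
  rintro ⟨⟨x1, x2⟩, ⟨x3, x4⟩⟩
  simp only [swapU_apply, swapU_symm_apply, LinearMap.zero_apply, sub_zero, add_zero,
    Prod.mk_sub_mk, sub_self]
  have e1 : (0 : M1 × M2) = (0, 0) := rfl
  rw [e1, swapU_apply, swapU_symm_apply]
  simp

theorem sdet_prodComm {I1 I2 : Type*} [Finite I1] [Finite I2] (b1 : Basis I1 R M1)
    (b2 : Basis I2 R M2) : sdet (b1.prod b2) (b2.prod b1) (LinearEquiv.prodComm R M1 M2) = 1 := by
  refine sdet_of_basis _ _ _ (Equiv.sumComm I1 I2) ?_
  rintro (i | i) <;> simp [Basis.prod_apply]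

end lin

namespace PC

variable {R : Type u} [CommRing R]

/-- The contraction of the cone of the identity. -/
noncomputable def coneIdContr (A : PC.{u, v, w} R) : Contr (cone (Hom.id A)) where
  k0 := LinearMap.prod 0 (LinearMap.fst R _ _)
  k1 := LinearMap.prod 0 (LinearMap.fst R _ _)
  h0 := by
    rintro ⟨b, a⟩
    change (A.d1 0 + b + 0, -A.d0 b + (A.d0 b + a)) = (b, a)
    rw [map_zero, zero_add, add_zero, neg_add_cancel_left]
  h1 := by
    rintro ⟨b, a⟩
    change (A.d0 0 + b + 0, -A.d1 b + (A.d1 b + a)) = (b, a)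
    rw [map_zero, zero_add, add_zero, neg_add_cancel_left]
  kk0 := by
    rintro ⟨b, a⟩
    rfl
  kk1 := by
    rintro ⟨b, a⟩
    rfl

theorem coneId_tors [IsDomain R] (A : PC.{u, v, w} R) : PC.tors (cone (Hom.id A)) = 1 := by
  rw [tors_eq (coneIdContr A), ← sdet_prodComm A.b0 A.b1]
  symm
  apply sdet_add_nilpotent
  rintro ⟨b, a⟩
  have hD : ∀ (b : A.C0) (a : A.C1), (coneIdContr A).D (b, a) =
      ((A.d0 b + a + 0, -A.d1 a + b) : A.C1 × A.C0) := fun _ _ => rfl
  have hS : ∀ (b : A.C1) (a : A.C0), (LinearEquiv.prodComm R A.C0 A.C1).symm (b, a) = (a, b) :=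
    fun _ _ => rfl
  rw [hD, hS, Prod.mk_sub_mk, hD, hS]
  have e1 : -A.d1 a + b - b = -A.d1 a := by abel
  have e2 : A.d0 b + a + 0 - a = A.d0 b := by abel
  rw [e1, e2, map_neg, A.dd1, A.dd0]
  simp

theorem coneIso_contractible {A B : PC.{u, v, w} R} (e : Iso A B) :
    Contractible (cone e.hom) :=
  (coneIso (Hom.id A) e.hom (Iso.refl A) e rfl).contractible ⟨coneIdContr A⟩

/-- The torsion of the cone of an isomorphism. -/
theorem coneIso_tors [IsDomain R] {A B : PC.{u, v, w} R} (e : Iso A B) :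
    PC.tors (cone e.hom) = e.ratio := by
  have h : e.hom.comp (Iso.refl A).hom = e.hom.comp (Hom.id A) := rfl
  rw [(coneIso (Hom.id A) e.hom (Iso.refl A) e h).tors ⟨coneIdContr A⟩, coneId_tors,
    coneIso_ratio, Iso.ratio_refl, div_one, one_mul]

/-- Minus the identity. -/
def Iso.negId (A : PC.{u, v, w} R) : Iso A A :=
  ⟨LinearEquiv.neg R, LinearEquiv.neg R, fun x => by simp, fun x => by simp⟩

theorem Iso.negId_ratio (A : PC.{u, v, w} R) : (Iso.negId A).ratio = 1 := by
  have h0 : sdet A.b0 A.b0 (LinearEquiv.neg R) = 1 := by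
    have := sdet_neg A.b0 A.b0 (LinearEquiv.refl R A.C0)
    rwa [sdet_refl] at this
  have h1 : sdet A.b1 A.b1 (LinearEquiv.neg R) = 1 := by
    have := sdet_neg A.b1 A.b1 (LinearEquiv.refl R A.C1)
    rwa [sdet_refl] at this
  rw [Iso.ratio]
  change sdet A.b1 A.b1 (LinearEquiv.neg R) / sdet A.b0 A.b0 (LinearEquiv.neg R) = 1
  rw [h0, h1, div_one]

/-- A retract of a contractible complex is contractible. -/
theorem contractible_of_retract {A B : PC.{u, v, w} R} (i : Hom A B) (p : Hom B A)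
    (h : p.comp i = Hom.id A) (hB : Contractible B) : Contractible A := by
  obtain ⟨k⟩ := hB
  have hp0 : ∀ x, p.f0 (i.f0 x) = x := fun x => by rw [← Hom.comp_f0, h]; rfl
  have hp1 : ∀ x, p.f1 (i.f1 x) = x := fun x => by rw [← Hom.comp_f1, h]; rfl
  refine ⟨Contr.ofWeak A (p.f1.comp (k.k0.comp i.f0)) (p.f0.comp (k.k1.comp i.f1)) ?_ ?_⟩
  · intro x
    simp only [LinearMap.comp_apply]
    rw [p.c1, ← i.c0, ← map_add, k.h0, hp0]
  · intro x
    simp only [LinearMap.comp_apply]
    rw [p.c0, ← i.c1, ← map_add, k.h1, hp1]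

section comp

variable {A B C : PC.{u, v, w} R} (f : Hom A B) (g : Hom B C)

/-- The extension of `cone g` by `cone f` used for the composite. -/
noncomputable abbrev compE : PC.{u, v, w} R :=
  ext (cone f) (cone g)
    (LinearMap.prod (-(LinearMap.snd R C.C0 B.C1)) (0 : (C.C0 × B.C1) →ₗ[R] A.C0))
    (LinearMap.prod (-(LinearMap.snd R C.C1 B.C0)) (0 : (C.C1 × B.C0) →ₗ[R] A.C1))
    (by
      rintro ⟨c, b⟩
      change (B.d1 (-b) + f.f0 0 + -(-B.d1 b), -A.d0 0 + 0) = 0
      rw [map_neg, map_zero, map_zero, neg_neg, neg_zero, add_zero, neg_add_cancel, add_zero]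
      rfl)
    (by
      rintro ⟨c, b⟩
      change (B.d0 (-b) + f.f1 0 + -(-B.d0 b), -A.d1 0 + 0) = 0
      rw [map_neg, map_zero, map_zero, neg_neg, neg_zero, add_zero, neg_add_cancel, add_zero]
      rfl)

/-- The direct sum of the cone of the composite and the cone of minus the identity. -/
noncomputable abbrev compF : PC.{u, v, w} R :=
  ext (cone (g.comp f)) (cone (Iso.negId B).hom) 0 0
    (fun x => by rw [LinearMap.zero_apply, LinearMap.zero_apply, map_zero, add_zero])
    (fun x => by rw [LinearMap.zero_apply, LinearMap.zero_apply, map_zero, add_zero])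

/-- The isomorphism between them. -/
noncomputable def compIso : Iso (compE f g) (compF f g) where
  e0 := swapU g.f0 f.f1
  e1 := swapU g.f1 f.f0
  c0 := by
    rintro ⟨⟨b, a⟩, ⟨c, b'⟩⟩
    change ((C.d0 (c + g.f0 b) + g.f1 (f.f1 a) + 0, -A.d1 a + 0),
        (B.d0 b + -(b' - f.f1 a), -B.d1 (b' - f.f1 a))) =
      ((C.d0 c + g.f1 b' + g.f1 (B.d0 b + f.f1 a + -b'), -A.d1 a + 0),
        (B.d0 b + f.f1 a + -b', -B.d1 b' - f.f0 (-A.d1 a + 0)))
    rw [map_add, g.c0, map_sub, f.c1, map_add, map_add, map_neg, add_zero, add_zero, map_neg]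
    refine Prod.ext (Prod.ext ?_ rfl) (Prod.ext ?_ ?_)
    · simp only; abel
    · simp only; abel
    · simp only; abel
  c1 := by
    rintro ⟨⟨b, a⟩, ⟨c, b'⟩⟩
    change ((C.d1 (c + g.f1 b) + g.f0 (f.f0 a) + 0, -A.d0 a + 0),
        (B.d1 b + -(b' - f.f0 a), -B.d0 (b' - f.f0 a))) =
      ((C.d1 c + g.f0 b' + g.f0 (B.d1 b + f.f0 a + -b'), -A.d0 a + 0),
        (B.d1 b + f.f0 a + -b', -B.d0 b' - f.f1 (-A.d0 a + 0)))
    rw [map_add, g.c1, map_sub, f.c0, map_add, map_add, map_neg, add_zero, add_zero, map_neg]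
    refine Prod.ext (Prod.ext ?_ rfl) (Prod.ext ?_ ?_)
    · simp only; abel
    · simp only; abel
    · simp only; abel

theorem compIso_ratio [IsDomain R] : (compIso f g).ratio = 1 := by
  have h0 : sdet (compE f g).b0 (compF f g).b0 (compIso f g).e0 = 1 := sdet_swapU _ _ _ _ _ _
  have h1 : sdet (compE f g).b1 (compF f g).b1 (compIso f g).e1 = 1 := sdet_swapU _ _ _ _ _ _
  rw [Iso.ratio, h0, h1, div_one]

theorem compF_contractible_left (h : Contractible (compF f g)) :
    Contractible (cone (g.comp f)) := by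
  refine contractible_of_retract (B := compF f g)
    ⟨LinearMap.inl R _ _, LinearMap.inl R _ _, fun x => ?_, fun x => ?_⟩
    ⟨LinearMap.fst R _ _, LinearMap.fst R _ _, fun x => ?_, fun x => ?_⟩ ?_ h
  · change ((cone (g.comp f)).d0 x + 0, (cone (Iso.negId B).hom).d0 0) = ((cone (g.comp f)).d0 x, 0)
    rw [add_zero, map_zero]
  · change ((cone (g.comp f)).d1 x + 0, (cone (Iso.negId B).hom).d1 0) = ((cone (g.comp f)).d1 x, 0)
    rw [add_zero, map_zero]
  · change (cone (g.comp f)).d0 x.1 = (cone (g.comp f)).d0 x.1 + 0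
    rw [add_zero]
  · change (cone (g.comp f)).d1 x.1 = (cone (g.comp f)).d1 x.1 + 0
    rw [add_zero]
  · rfl

theorem comp_contractible (hf : Contractible (cone f)) (hg : Contractible (cone g)) :
    Contractible (cone (g.comp f)) :=
  compF_contractible_left f g ((compIso f g).contractible (ext_contractible _ _ _ _ _ _ hf hg))

/-- The torsion of the cone of a composite. -/
theorem comp_tors [IsDomain R] (hf : Contractible (cone f)) (hg : Contractible (cone g)) :
    PC.tors (cone (g.comp f)) = PC.tors (cone f) * PC.tors (cone g) := by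
  have hE : Contractible (compE f g) := ext_contractible _ _ _ _ _ _ hf hg
  have h1 : PC.tors (compE f g) = PC.tors (cone f) * PC.tors (cone g) :=
    ext_tors _ _ _ _ _ _ hf hg
  have h2 : PC.tors (compF f g) = PC.tors (cone (g.comp f)) * PC.tors (cone (Iso.negId B).hom) :=
    ext_tors _ _ _ _ _ _ (comp_contractible f g hf hg) (coneIso_contractible _)
  have h3 := (compIso f g).tors hE
  rw [h1, h2, compIso_ratio, coneIso_tors, Iso.negId_ratio, mul_one, mul_one] at h3
  exact h3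

end comp

end PC

end Pool.Agent.Helper88.SSF
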