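import Mathlib

/-!
Generic lemma for project SSF: in a finitely generated field extension `K/k` every element
transcendental over `k` has positive valuation at some discrete valuation ring of `K/k`.
-/

namespace Pool.Agent.Helper88.SSF

open Polynomial IntermediateField

/-- A criterion for a valuation subring to be a discrete valuation ring: some nonunit `t` such
that a fixed power of every nonzero element has the valuation of an integral power of `t`. -/
theorem isDVR_of_pow {K : Type*} [Field K] (V : ValuationSubring K) (t : K) (ht0 : t ≠ 0)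
    (htV : t ∈ V.nonunits) (N : ℕ) (hN : N ≠ 0)
    (h : ∀ x : K, x ≠ 0 → ∃ z : ℤ, V.valuation x ^ N = V.valuation t ^ z) :
    IsDiscreteValuationRing V := by
  classical
  have hvt : V.valuation t < 1 := V.mem_nonunits_iff.1 htV
  have hvt0 : V.valuation t ≠ 0 := (Valuation.ne_zero_iff _).2 ht0
  have hnat : ∀ x : K, x ∈ V → x ≠ 0 → ∃ n : ℕ, V.valuation x ^ N = V.valuation t ^ n := by
    intro x hx hx0
    obtain ⟨z, hz⟩ := h x hx0
    rcases Int.lt_or_le z 0 with hneg | hpos
    · exfalso
      have h1 : V.valuation x ^ N ≤ 1 := pow_le_one₀ zero_le ((V.valuation_le_one_iff x).2 hx)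
      rw [hz] at h1
      have h2 : 1 < V.valuation t ^ z := by
        have := one_lt_zpow_of_neg₀ (zero_lt_iff.2 hvt0) hvt hneg
        exact this
      exact absurd h1 (not_le.2 h2)
    · obtain ⟨n, rfl⟩ := Int.eq_ofNat_of_zero_le hpos
      exact ⟨n, by simpa using hz⟩
  have hpir : IsPrincipalIdealRing V := by
    constructor
    intro I
    by_cases hI : I = ⊥
    · subst hI; infer_instance
    · obtain ⟨x1, hx1, hx10⟩ := Submodule.exists_mem_ne_zero_of_ne_bot hI
      have hex : ∃ n : ℕ, ∃ x : V, x ∈ I ∧ x ≠ 0 ∧ V.valuation (x : K) ^ N = V.valuation t ^ n := by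
        obtain ⟨n, hn⟩ := hnat (x1 : K) x1.2 (by simpa using hx10)
        exact ⟨n, x1, hx1, hx10, hn⟩
      obtain ⟨x0, hx0I, hx00, hx0⟩ := Nat.find_spec hex
      refine ⟨⟨x0, le_antisymm ?_ ((Ideal.span_singleton_le_iff_mem I).2 hx0I)⟩⟩
      intro y hy
      change y ∈ Ideal.span {x0}
      rw [Ideal.mem_span_singleton]
      by_cases hle : V.valuation (y : K) ≤ V.valuation (x0 : K)
      · obtain ⟨a, ha⟩ := (V.valuation_le_iff _ _).1 hle
        exact ⟨a, Subtype.ext (by rw [← ha, mul_comm]; rfl)⟩
      · exfalso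
        rw [not_le] at hle
        have hy0 : (y : K) ≠ 0 := by
          rintro h0
          rw [h0, map_zero] at hle
          exact absurd hle (not_lt.2 zero_le)
        obtain ⟨m, hm⟩ := hnat (y : K) y.2 hy0
        have hlt : V.valuation (x0 : K) ^ N < V.valuation (y : K) ^ N :=
          pow_lt_pow_left₀ hle zero_le hN
        rw [hx0, hm] at hlt
        have hmn : m < Nat.find hex := by
          by_contra hc
          rw [not_lt] at hc
          exact absurd hlt (not_lt.2 (pow_le_pow_right_of_le_one' hvt.le hc))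
        exact Nat.find_min hex hmn ⟨y, hy, by simpa using hy0, hm⟩
  have hlocal : IsLocalRing V := inferInstance
  refine { hpir, hlocal with not_a_field' := ?_ }
  intro hbot
  have : t ∈ V.nonunits := htV
  obtain ⟨htV', hmem⟩ := V.mem_nonunits_iff_exists_mem_maximalIdeal.1 this
  rw [hbot, Ideal.mem_bot] at hmem
  exact ht0 (by simpa using congrArg Subtype.val hmem)

/-- The valuation of a polynomial in the nonunit `t` with coefficients in a subfield of `V`
is a power of the valuation of `t`. -/
theorem valuation_aeval {F K : Type*} [Field F] [Field K] [Algebra F K] (V : ValuationSubring K)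
    (hF : ∀ c : F, algebraMap F K c ∈ V) (t : K) (htV : t ∈ V.nonunits) (p : F[X]) (hp : p ≠ 0) :
    ∃ n : ℕ, V.valuation (aeval t p) = V.valuation t ^ n := by
  have hvt : V.valuation t < 1 := V.mem_nonunits_iff.1 htV
  have htV' : t ∈ V := (V.valuation_le_one_iff t).1 hvt.le
  have hunit : ∀ c : F, c ≠ 0 → V.valuation (algebraMap F K c) = 1 := by
    intro c hc
    apply le_antisymm ((V.valuation_le_one_iff _).2 (hF c))
    have h1 := (V.valuation_le_one_iff _).2 (hF c⁻¹)
    rw [map_inv₀, map_inv₀] at h1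
    have h0 : V.valuation (algebraMap F K c) ≠ 0 :=
      (Valuation.ne_zero_iff _).2 (by simpa using hc)
    rwa [inv_le_one₀ (zero_lt_iff.2 h0)] at h1
  have hmem : ∀ q : F[X], aeval t q ∈ V := by
    intro q
    rw [aeval_eq_sum_range]
    refine V.toSubring.sum_mem ?_
    intro i _
    rw [Algebra.smul_def]
    exact V.mul_mem _ _ (hF _) (V.toSubring.pow_mem htV' i)
  obtain ⟨n, q, hq, rfl⟩ : ∃ n : ℕ, ∃ q : F[X], q.coeff 0 ≠ 0 ∧ p = X ^ n * q := by
    obtain ⟨q, hq1, hq2⟩ := exists_eq_pow_rootMultiplicity_mul_and_not_dvd p hp 0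
    refine ⟨p.rootMultiplicity 0, q, ?_, by simpa using hq1⟩
    intro h0
    apply hq2
    rw [C_0, sub_zero]
    exact X_dvd_iff.2 h0
  refine ⟨n, ?_⟩
  rw [map_mul, map_pow, aeval_X, map_mul, map_pow]
  have : V.valuation (aeval t q) = 1 := by
    have hq' : q = C (q.coeff 0) + X * q.divX := by
      conv_lhs => rw [← q.X_mul_divX_add]
      ring
    rw [hq', map_add, map_mul, aeval_C, aeval_X]
    rw [Valuation.map_add_eq_of_lt_left, hunit _ (by simpa using hq)]
    rw [hunit _ (by simpa using hq), map_mul]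
    calc V.valuation t * V.valuation (aeval t q.divX) ≤ V.valuation t * 1 :=
          mul_le_mul_right ((V.valuation_le_one_iff _).2 (hmem _)) _
      _ < 1 := by rwa [mul_one]
  rw [this, mul_one]

/-- The same for the elements of the field `F(t)`. -/
theorem valuation_adjoin {F K : Type*} [Field F] [Field K] [Algebra F K] (V : ValuationSubring K)
    (hF : ∀ c : F, algebraMap F K c ∈ V) (t : K) (ht0 : t ≠ 0) (htV : t ∈ V.nonunits) (x : K)
    (hx : x ∈ F⟮t⟯) (hx0 : x ≠ 0) : ∃ z : ℤ, V.valuation x = V.valuation t ^ z := by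
  have hvt0 : V.valuation t ≠ 0 := (Valuation.ne_zero_iff _).2 ht0
  obtain ⟨r, s, rfl⟩ := (mem_adjoin_simple_iff F x).1 hx
  have hr : r ≠ 0 := by rintro rfl; simp at hx0
  have hs : s ≠ 0 := by rintro rfl; simp at hx0
  obtain ⟨a, ha⟩ := valuation_aeval V hF t htV r hr
  obtain ⟨b, hb⟩ := valuation_aeval V hF t htV s hs
  exact ⟨(a : ℤ) - b, by rw [map_div₀, ha, hb, zpow_sub₀ hvt0, zpow_natCast, zpow_natCast]⟩

/-- If a sum of elements of a field vanishes, two different nonzero terms have the same
valuation. -/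
theorem exists_pair_of_sum_eq_zero {K : Type*} [Field K] (V : ValuationSubring K) (s : Finset ℕ)
    (f : ℕ → K) (hs : ∃ i ∈ s, f i ≠ 0) (h : ∑ i ∈ s, f i = 0) :
    ∃ i ∈ s, ∃ j ∈ s, i < j ∧ f i ≠ 0 ∧ f j ≠ 0 ∧ V.valuation (f i) = V.valuation (f j) := by
  classical
  obtain ⟨i0, hi0, hfi0⟩ := hs
  obtain ⟨j, hj, hmax⟩ := s.exists_max_image (fun i => V.valuation (f i)) ⟨i0, hi0⟩
  have hfj : f j ≠ 0 := by
    intro h0
    have h1 := hmax i0 hi0
    simp only [h0, map_zero, le_zero_iff] at h1
    exact hfi0 ((Valuation.zero_iff _).1 h1)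
  by_cases hex : ∃ i ∈ s, i ≠ j ∧ V.valuation (f i) = V.valuation (f j)
  · obtain ⟨i, hi, hij, he⟩ := hex
    have hfi : f i ≠ 0 := by
      intro h0
      rw [h0, map_zero] at he
      exact hfj ((Valuation.zero_iff _).1 he.symm)
    rcases lt_or_gt_of_ne hij with hlt | hgt
    · exact ⟨i, hi, j, hj, hlt, hfi, hfj, he⟩
    · exact ⟨j, hj, i, hi, hgt, hfj, hfi, he.symm⟩
  · exfalso
    push Not at hex
    have hlt : ∀ i ∈ s \ {j}, V.valuation (f i) < V.valuation (f j) := by
      intro i hi
      rw [Finset.mem_sdiff, Finset.mem_singleton] at hi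
      exact lt_of_le_of_ne (hmax i hi.1) (hex i hi.1 hi.2)
    have := Valuation.map_sum_eq_of_lt V.valuation hj hlt
    rw [h, map_zero] at this
    exact hfj ((Valuation.zero_iff _).1 this.symm)

/-- A valuation subring of a finite extension of `F(t)` which contains `F` and has `t` as a
nonunit is a discrete valuation ring. -/
theorem isDVR_of_finite {F K : Type*} [Field F] [Field K] [Algebra F K] (V : ValuationSubring K)
    (hF : ∀ c : F, algebraMap F K c ∈ V) (t : K) (ht0 : t ≠ 0) (htV : t ∈ V.nonunits)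
    [FiniteDimensional F⟮t⟯ K] : IsDiscreteValuationRing V := by
  classical
  have hvt0 : V.valuation t ≠ 0 := (Valuation.ne_zero_iff _).2 ht0
  refine isDVR_of_pow V t ht0 htV (Module.finrank F⟮t⟯ K).factorial (Nat.factorial_ne_zero _) ?_
  intro x hx0
  have hint : IsIntegral F⟮t⟯ x := Algebra.IsIntegral.isIntegral x
  set q := minpoly F⟮t⟯ x with hq
  have hdeg : q.natDegree ≤ Module.finrank F⟮t⟯ K := minpoly.natDegree_le x
  have hzero : ∑ i ∈ Finset.range (q.natDegree + 1), q.coeff i • x ^ i = 0 := by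
    rw [← aeval_eq_sum_range]
    exact minpoly.aeval _ _
  have hlead : q.coeff q.natDegree = 1 := minpoly.monic hint
  obtain ⟨i, hi, j, hj, hij, hfi, hfj, he⟩ := exists_pair_of_sum_eq_zero V
    (Finset.range (q.natDegree + 1)) (fun i => q.coeff i • x ^ i)
    ⟨q.natDegree, Finset.mem_range.2 (Nat.lt_succ_self _), by
      simp only [hlead, one_smul]; exact pow_ne_zero _ hx0⟩ hzero
  simp only [Algebra.smul_def] at hfi hfj he
  have hci : algebraMap F⟮t⟯ K (q.coeff i) ≠ 0 := left_ne_zero_of_mul hfi
  have hcj : algebraMap F⟮t⟯ K (q.coeff j) ≠ 0 := left_ne_zero_of_mul hfj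
  obtain ⟨a, ha⟩ := valuation_adjoin V hF t ht0 htV _ (q.coeff i).2 hci
  obtain ⟨b, hb⟩ := valuation_adjoin V hF t ht0 htV _ (q.coeff j).2 hcj
  have ha' : V.valuation (algebraMap F⟮t⟯ K (q.coeff i)) = V.valuation t ^ a := ha
  have hb' : V.valuation (algebraMap F⟮t⟯ K (q.coeff j)) = V.valuation t ^ b := hb
  rw [map_mul, map_mul, map_pow, map_pow, ha', hb'] at he
  have hvx0 : V.valuation x ≠ 0 := (Valuation.ne_zero_iff _).2 hx0
  have hmain : V.valuation x ^ (j - i) = V.valuation t ^ (a - b) := by
    have h1 : V.valuation x ^ j = V.valuation x ^ i * V.valuation x ^ (j - i) := by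
      rw [← pow_add]; congr 1; omega
    rw [h1] at he
    have h2 : V.valuation t ^ a = V.valuation t ^ b * V.valuation x ^ (j - i) := by
      have h3 : V.valuation x ^ i ≠ 0 := pow_ne_zero _ hvx0
      apply mul_right_cancel₀ h3
      rw [he]; ac_rfl
    rw [zpow_sub₀ hvt0, h2, mul_comm, mul_div_assoc, div_self (zpow_ne_zero _ hvt0), mul_one]
  have hle : j - i ≤ Module.finrank F⟮t⟯ K := by
    have := Finset.mem_range.1 hj
    omega
  obtain ⟨m, hm⟩ := Nat.dvd_factorial (Nat.sub_pos_of_lt hij) hle
  exact ⟨(a - b) * m, by rw [hm, pow_mul, hmain, zpow_mul, zpow_natCast]⟩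

/-- **Constants**: in a finitely generated field extension `K/k` every element `g` transcendental
over `k` is a nonunit of some discrete valuation ring `V` of `K` containing `k`. -/
theorem exists_dvr_of_transcendental {k K : Type*} [Field k] [Field K] [Algebra k K]
    (hfg : (⊤ : IntermediateField k K).FG) (g : K) (hg : Transcendental k g) :
    ∃ V : ValuationSubring K, (∀ c : k, algebraMap k K c ∈ V) ∧ IsDiscreteValuationRing V ∧
      g ∈ V.nonunits := by
  classical
  have hind : AlgebraicIndepOn k id ({g} : Set K) := by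
    have : Unique ({g} : Set K) := Set.uniqueSingleton g
    have hd : ((default : ({g} : Set K)) : K) = g := (default : ({g} : Set K)).2
    apply algebraicIndependent_unique_type_iff.2
    simpa [hd] using hg
  obtain ⟨s, hgs, hs⟩ := exists_isTranscendenceBasis_superset hind
  have hgs' : g ∈ s := hgs rfl
  set S : Set K := s \ {g} with hS
  set F : IntermediateField k K := IntermediateField.adjoin k S with hF
  -- `g` is transcendental over `F`
  have htr : Transcendental F g := by
    rw [hF, IntermediateField.transcendental_adjoin_iff]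
    have h1 := hs.1.transcendental_adjoin (s := {i : s | (i : K) ≠ g}) (i := ⟨g, hgs'⟩) (by simp)
    have h2 : (Subtype.val '' {i : s | (i : K) ≠ g}) = S := by
      ext y
      simp [hS, and_comm]
    rwa [h2] at h1
  -- `K` is finite over `F(g)`
  have hres : (F⟮g⟯).restrictScalars k = IntermediateField.adjoin k s := by
    rw [hF, IntermediateField.adjoin_adjoin_left, hS]
    congr 1
    simp [Set.insert_eq_of_mem hgs']
  have halg : Algebra.IsAlgebraic F⟮g⟯ K := by
    have h1 := hs.isAlgebraic_field
    rw [Subtype.range_coe] at h1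
    constructor
    intro x
    obtain ⟨p, hp0, hp⟩ := h1.isAlgebraic x
    have hle : ∀ y : K, y ∈ IntermediateField.adjoin k s → y ∈ F⟮g⟯ := by
      intro y hy
      rw [← hres] at hy
      exact hy
    let ι : IntermediateField.adjoin k s →+* F⟮g⟯ :=
      { toFun := fun y => ⟨y, hle _ y.2⟩
        map_one' := rfl
        map_mul' := fun _ _ => rfl
        map_zero' := rfl
        map_add' := fun _ _ => rfl }
    refine ⟨p.map ι, (Polynomial.map_ne_zero_iff ι.injective).2 hp0, ?_⟩
    rw [aeval_def, eval₂_map]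
    exact hp
  have hfg' : (⊤ : IntermediateField F⟮g⟯ K).FG := by
    obtain ⟨T, hT⟩ := hfg
    refine ⟨T, top_le_iff.1 ?_⟩
    intro y _
    have hy : y ∈ IntermediateField.adjoin k (T : Set K) := by rw [hT]; trivial
    have hle : IntermediateField.adjoin k (T : Set K) ≤
        ((IntermediateField.adjoin F⟮g⟯ (T : Set K)).restrictScalars F).restrictScalars k :=
      IntermediateField.adjoin_le_iff.2 (IntermediateField.subset_adjoin F⟮g⟯ (T : Set K))
    exact hle hy
  have hfin : FiniteDimensional F⟮g⟯ K := by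
    obtain ⟨T, hT⟩ := hfg'
    have h1 : FiniteDimensional F⟮g⟯ (IntermediateField.adjoin F⟮g⟯ (T : Set K)) :=
      IntermediateField.finiteDimensional_adjoin (fun x _ => (halg.isAlgebraic x).isIntegral)
    rw [hT] at h1
    exact Module.Finite.equiv (IntermediateField.topEquiv (F := F⟮g⟯) (E := K)).toLinearEquiv
  -- the valuation subring
  let φ : F[X] →+* K := (aeval (R := F) g).toRingHom
  let A : Subring K := φ.range
  have hgA : g ∈ A := ⟨X, by simp [φ]⟩
  let I : Ideal A := Ideal.span {⟨g, hgA⟩}
  have hI : I ≠ ⊤ := by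
    intro htop
    have h1 : (1 : A) ∈ I := by rw [htop]; trivial
    rw [Ideal.mem_span_singleton] at h1
    obtain ⟨⟨_, ⟨p, rfl⟩⟩, hc⟩ := h1
    have h2 : (1 : K) = g * aeval g p := congrArg Subtype.val hc
    have h3 : aeval g (X * p - 1 : F[X]) = 0 := by simp [← h2]
    have h4 : (X * p - 1 : F[X]) = 0 := (transcendental_iff.1 htr) _ h3
    have h5 := congrArg (fun q : F[X] => q.coeff 0) h4
    simp at h5
  obtain ⟨V, hAV, hIV⟩ := Ideal.image_subset_nonunits_valuationSubring I hI
  have hFV : ∀ c : F, algebraMap F K c ∈ V := fun c => hAV ⟨C c, by simp [φ]⟩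
  have hgV : g ∈ V.nonunits := hIV ⟨⟨g, hgA⟩, Ideal.subset_span rfl, rfl⟩
  have hg0 : g ≠ 0 := by
    rintro rfl
    exact hg (isAlgebraic_zero)
  exact ⟨V, fun c => hFV (algebraMap k F c), isDVR_of_finite V hFV g hg0 hgV, hgV⟩

/-- The form used for constants: if `g ≠ 0` is a unit of every discrete valuation ring of `K`
containing `k`, then `g` is algebraic over `k`. -/
theorem isAlgebraic_of_forall_dvr {k K : Type*} [Field k] [Field K] [Algebra k K]
    (hfg : (⊤ : IntermediateField k K).FG) (g : K)
    (h : ∀ V : ValuationSubring K, (∀ c : k, algebraMap k K c ∈ V) → IsDiscreteValuationRing V →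
      V.valuation g = 1) : IsAlgebraic k g := by
  by_contra hg
  obtain ⟨V, hk, hV, hgV⟩ := exists_dvr_of_transcendental hfg g hg
  have h1 := h V hk hV
  have h2 := V.mem_nonunits_iff.1 hgV
  rw [h1] at h2
  exact lt_irrefl _ h2

end Pool.Agent.Helper88.SSF
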