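import Pool.Agent.helper88.SSF.SES

/-!
Project SSF: short exact sequences of graded systems, cone of an operator which acts injectively,
trivial sections.
-/

namespace Pool.Agent.Helper88.SSF

open Module

universe u v w x y

namespace GSys

variable {R : Type u} [CommRing R] {Γ : Type x} [AddCommGroup Γ] {S : Type y} {deg : S → Γ}

/-- A short exact sequence of graded systems. -/
structure GSES (X Y Z : GSys.{u, v, w} R Γ S deg) where
  /-- the sequence in each degree -/
  E : ∀ a, PC.SES (X.A a) (Y.A a) (Z.A a)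
  nati : ∀ (s : S) (a b : Γ) (h : a + deg s = b),
    (Y.op s a b h).comp (E a).i = (E b).i.comp (X.op s a b h)
  natp : ∀ (s : S) (a b : Γ) (h : a + deg s = b),
    (Z.op s a b h).comp (E a).p = (E b).p.comp (Y.op s a b h)

/-- The ratio of the bases in each degree. -/
noncomputable def GSES.ratio {X Y Z : GSys.{u, v, w} R Γ S deg} (φ : GSES X Y Z) : Γ → Sg R :=
  fun a => (φ.E a).ratio

/-- The short exact sequence of cones. -/
noncomputable def GSES.cone {X Y Z : GSys.{u, v, w} R Γ S deg} (φ : GSES X Y Z) (s : S) :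
    GSES (X.cone s) (Y.cone s) (Z.cone s) where
  E a := (φ.E (a - deg s)).cone (φ.E a) _ _ _ (φ.nati s _ _ _) (φ.natp s _ _ _)
  nati t a b h := by
    have e1 := φ.nati t a b h
    have e2 := φ.nati t (a - deg s) (b - deg s) (by rw [← h]; abel)
    refine PC.Hom.ext (LinearMap.ext ?_) (LinearMap.ext ?_)
    · rintro ⟨x, y⟩
      exact Prod.ext (congrArg (fun h => h.f0 x) e1) (congrArg (fun h => h.f1 y) e2)
    · rintro ⟨x, y⟩
      exact Prod.ext (congrArg (fun h => h.f1 x) e1) (congrArg (fun h => h.f0 y) e2)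
  natp t a b h := by
    have e1 := φ.natp t a b h
    have e2 := φ.natp t (a - deg s) (b - deg s) (by rw [← h]; abel)
    refine PC.Hom.ext (LinearMap.ext ?_) (LinearMap.ext ?_)
    · rintro ⟨x, y⟩
      exact Prod.ext (congrArg (fun h => h.f0 x) e1) (congrArg (fun h => h.f1 y) e2)
    · rintro ⟨x, y⟩
      exact Prod.ext (congrArg (fun h => h.f1 x) e1) (congrArg (fun h => h.f0 y) e2)

theorem GSES.ratio_cone {X Y Z : GSys.{u, v, w} R Γ S deg} (φ : GSES X Y Z) (s : S) :
    (φ.cone s).ratio = diff (deg s) φ.ratio := by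
  funext a
  exact PC.SES.cone_ratio _ _ _ _ _ (φ.nati s _ _ _) (φ.natp s _ _ _)

/-- There is a short exact sequence with ratio `ρ`. -/
def ExactRatio (X Y Z : GSys.{u, v, w} R Γ S deg) (ρ : Γ → Sg R) : Prop :=
  ∃ φ : GSES X Y Z, φ.ratio = ρ

theorem ExactRatio.cones {X Y Z : GSys.{u, v, w} R Γ S deg} {ρ : Γ → Sg R}
    (h : ExactRatio X Y Z ρ) (l : List S) :
    ExactRatio (X.cones l) (Y.cones l) (Z.cones l) (diffs (l.map deg) ρ) := by
  induction l generalizing X Y Z ρ with
  | nil => exact h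
  | cons s l ih =>
    obtain ⟨φ, rfl⟩ := h
    rw [cones_cons, cones_cons, cones_cons, List.map_cons, diffs_cons]
    exact ih ⟨φ.cone s, φ.ratio_cone s⟩

theorem ExactRatio.good_mid {X Y Z : GSys.{u, v, w} R Γ S deg} {ρ : Γ → Sg R}
    (h : ExactRatio X Y Z ρ) (a : Γ) (l : List S) (hX : X.Good a l) (hZ : Z.Good a l) :
    Y.Good a l := by
  obtain ⟨φ, -⟩ := h.cones l
  exact (φ.E a).contractible hX hZ

theorem ExactRatio.good_right {X Y Z : GSys.{u, v, w} R Γ S deg} {ρ : Γ → Sg R}
    (h : ExactRatio X Y Z ρ) (a : Γ) (l : List S) (hX : X.Good a l) (hY : Y.Good a l) :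
    Z.Good a l := by
  obtain ⟨φ, -⟩ := h.cones l
  exact (φ.E a).contractible_right hX hY

theorem ExactRatio.good_left {X Y Z : GSys.{u, v, w} R Γ S deg} {ρ : Γ → Sg R}
    (h : ExactRatio X Y Z ρ) (a : Γ) (l : List S) (hY : Y.Good a l) (hZ : Z.Good a l) :
    X.Good a l := by
  obtain ⟨φ, -⟩ := h.cones l
  exact (φ.E a).contractible_left hY hZ

/-- (P5) Torsion in short exact sequences. -/
theorem ExactRatio.D_eq [IsDomain R] {X Y Z : GSys.{u, v, w} R Γ S deg} {ρ : Γ → Sg R}
    (h : ExactRatio X Y Z ρ) (a : Γ) (l : List S) (hX : X.Good a l) (hZ : Z.Good a l) :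
    Y.D a l = X.D a l * Z.D a l * diffs (l.map deg) ρ a := by
  obtain ⟨φ, hφ⟩ := h.cones l
  rw [← hφ]
  exact (φ.E a).tors_eq hX hZ

/-! ### sections acting as isomorphisms -/

/-- If the last section acts as an isomorphism, the torsion is its determinant. -/
theorem cone_of_iso (X : GSys.{u, v, w} R Γ S deg) (s : S) (a : Γ)
    (e : PC.Iso (X.A (a - deg s)) (X.A a)) (he : e.hom = X.op s (a - deg s) a (sub_add_cancel _ _)) :
    PC.Contractible ((X.cone s).A a) ∧
      (IsDomain R → PC.tors ((X.cone s).A a) = e.ratio) := by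
  have h : (X.cone s).A a = PC.cone e.hom := by rw [he]; rfl
  rw [h]
  exact ⟨PC.coneIso_contractible e, fun _ => PC.coneIso_tors e⟩

/-- The section `s` acts as the identity (its degree is zero). -/
def IsOne (X : GSys.{u, v, w} R Γ S deg) (s : S) : Prop :=
  deg s = 0 ∧ ∀ a (h : a + deg s = a), X.op s a a h = PC.Hom.id (X.A a)

theorem IsOne.cone {X : GSys.{u, v, w} R Γ S deg} {s : S} (h : X.IsOne s) (t : S) :
    (X.cone t).IsOne s := by
  refine ⟨h.1, fun a ha => ?_⟩
  have e1 := h.2 a ha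
  have e2 := h.2 (a - deg t) (by rw [h.1, add_zero])
  refine PC.Hom.ext (LinearMap.ext ?_) (LinearMap.ext ?_)
  · rintro ⟨x, y⟩
    exact Prod.ext (congrArg (fun h => h.f0 x) e1) (congrArg (fun h => h.f1 y) e2)
  · rintro ⟨x, y⟩
    exact Prod.ext (congrArg (fun h => h.f1 x) e1) (congrArg (fun h => h.f0 y) e2)

theorem IsOne.cones {X : GSys.{u, v, w} R Γ S deg} {s : S} (h : X.IsOne s) (l : List S) :
    (X.cones l).IsOne s := by
  induction l generalizing X with
  | nil => exact h
  | cons t l ih => exact ih (h.cone t)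

theorem IsOne.cone_good {X : GSys.{u, v, w} R Γ S deg} {s : S} (h : X.IsOne s) (a : Γ) :
    PC.Contractible ((X.cone s).A a) ∧ (IsDomain R → PC.tors ((X.cone s).A a) = 1) := by
  have hc : a + deg s = a := by rw [h.1, add_zero]
  obtain ⟨e, he⟩ := X.cone_op_cast s hc (sub_add_cancel a (deg s))
  have h1 : PC.Contractible (PC.cone (X.op s a a hc)) := by
    rw [h.2 a hc]; exact ⟨PC.coneIdContr _⟩
  refine ⟨e.contractible h1, fun _ => ?_⟩
  have h2 := e.tors h1
  rw [he, mul_one] at h2
  refine h2.trans ?_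
  rw [h.2 a hc]
  exact PC.coneId_tors _

/-- A list which contains a section acting as the identity has trivial torsion. -/
theorem IsOne.D_eq_one [IsDomain R] {X : GSys.{u, v, w} R Γ S deg} {s : S} (h : X.IsOne s)
    (a : Γ) (l : List S) (hl : s ∈ l) : X.Good a l ∧ X.D a l = 1 := by
  classical
  have hp : (l.erase s ++ [s]).Perm l :=
    (List.perm_append_singleton s (l.erase s)).trans (List.perm_cons_erase hl).symm
  have h1 := (h.cones (l.erase s)).cone_good a
  have hg : X.Good a (l.erase s ++ [s]) := by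
    rw [Good, cones_concat]; exact h1.1
  refine ⟨(X.good_perm hp a).1 hg, ?_⟩
  rw [X.D_perm hp a hg, D, cones_concat]
  exact h1.2 inferInstance

end GSys

end Pool.Agent.Helper88.SSF
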