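import Pool.Agent.helper88.SSF.Swap

/-!
Project SSF: graded systems of commuting operators on two-periodic complexes, cones over lists of
operators (Koszul complexes) and their torsion.
-/

namespace Pool.Agent.Helper88.SSF

open Module

universe u v w x y

set_option linter.checkUnivs false in
/-- A `Γ`-graded system: a two-periodic complex in each degree and commuting operators `op s` of
degree `deg s`. -/
structure GSys (R : Type u) [CommRing R] (Γ : Type x) [AddCommGroup Γ] (S : Type y)
    (deg : S → Γ) where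
  /-- the complex in degree `a` -/
  A : Γ → PC.{u, v, w} R
  /-- the operators -/
  op : ∀ (s : S) (a b : Γ), a + deg s = b → PC.Hom (A a) (A b)
  comm : ∀ (s t : S) (a b c d : Γ) (h1 : a + deg s = b) (h2 : b + deg t = d)
    (h3 : a + deg t = c) (h4 : c + deg s = d),
    (op t b d h2).comp (op s a b h1) = (op s c d h4).comp (op t a c h3)

/-- The difference operator on functions on `Γ`. -/
def diff {Γ : Type*} [AddCommGroup Γ] {G : Type*} [Div G] (g : Γ) (φ : Γ → G) : Γ → G :=
  fun a => φ a / φ (a - g)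

/-- Iterated differences. -/
def diffs {Γ : Type*} [AddCommGroup Γ] {G : Type*} [Div G] (l : List Γ) (φ : Γ → G) : Γ → G :=
  l.foldl (fun ψ g => diff g ψ) φ

theorem diffs_nil {Γ : Type*} [AddCommGroup Γ] {G : Type*} [Div G] (φ : Γ → G) :
    diffs [] φ = φ := rfl

theorem diffs_cons {Γ : Type*} [AddCommGroup Γ] {G : Type*} [Div G] (g : Γ) (l : List Γ)
    (φ : Γ → G) : diffs (g :: l) φ = diffs l (diff g φ) := rfl

theorem diffs_append {Γ : Type*} [AddCommGroup Γ] {G : Type*} [Div G] (l l' : List Γ)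
    (φ : Γ → G) : diffs (l ++ l') φ = diffs l' (diffs l φ) := by
  simp [diffs, List.foldl_append]

theorem diff_one {Γ : Type*} [AddCommGroup Γ] {G : Type*} [CommGroup G] (g : Γ) :
    diff g (1 : Γ → G) = 1 := by
  funext a; simp [diff]

theorem diffs_one {Γ : Type*} [AddCommGroup Γ] {G : Type*} [CommGroup G] (l : List Γ) :
    diffs l (1 : Γ → G) = 1 := by
  induction l with
  | nil => rfl
  | cons g l ih => rw [diffs_cons, diff_one, ih]

theorem diff_mul {Γ : Type*} [AddCommGroup Γ] {G : Type*} [CommGroup G] (g : Γ) (φ ψ : Γ → G) :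
    diff g (φ * ψ) = diff g φ * diff g ψ := by
  funext a; simp [diff, mul_div_mul_comm]

theorem diffs_mul {Γ : Type*} [AddCommGroup Γ] {G : Type*} [CommGroup G] (l : List Γ)
    (φ ψ : Γ → G) : diffs l (φ * ψ) = diffs l φ * diffs l ψ := by
  induction l generalizing φ ψ with
  | nil => rfl
  | cons g l ih => rw [diffs_cons, diff_mul, ih, diffs_cons, diffs_cons]

theorem diff_inv {Γ : Type*} [AddCommGroup Γ] {G : Type*} [CommGroup G] (g : Γ) (φ : Γ → G) :
    diff g (φ⁻¹) = (diff g φ)⁻¹ := by
  funext a; simp [diff, div_eq_mul_inv, mul_comm]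

theorem diffs_inv {Γ : Type*} [AddCommGroup Γ] {G : Type*} [CommGroup G] (l : List Γ)
    (φ : Γ → G) : diffs l (φ⁻¹) = (diffs l φ)⁻¹ := by
  induction l generalizing φ with
  | nil => rfl
  | cons g l ih => rw [diffs_cons, diff_inv, ih, diffs_cons]

namespace GSys

variable {R : Type u} [CommRing R] {Γ : Type x} [AddCommGroup Γ] {S : Type y} {deg : S → Γ}

/-- The cone of an operator. -/
noncomputable def cone (X : GSys.{u, v, w} R Γ S deg) (s : S) : GSys.{u, v, w} R Γ S deg where
  A a := PC.cone (X.op s (a - deg s) a (sub_add_cancel _ _))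
  op t a b h := PC.coneMap _ _
    (X.op t (a - deg s) (b - deg s) (by rw [← h]; abel)) (X.op t a b h)
    (X.comm t s (a - deg s) (b - deg s) a b _ _ _ _)
  comm t r a b c d h1 h2 h3 h4 := by
    have e1 := X.comm t r a b c d h1 h2 h3 h4
    have e2 := X.comm t r (a - deg s) (b - deg s) (c - deg s) (d - deg s)
      (by rw [← h1]; abel) (by rw [← h2]; abel) (by rw [← h3]; abel) (by rw [← h4]; abel)
    refine PC.Hom.ext (LinearMap.ext ?_) (LinearMap.ext ?_)
    · rintro ⟨x, y⟩
      exact Prod.ext (congrArg (fun h => (h.f0 x)) e1) (congrArg (fun h => (h.f1 y)) e2)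
    · rintro ⟨x, y⟩
      exact Prod.ext (congrArg (fun h => (h.f1 x)) e1) (congrArg (fun h => (h.f0 y)) e2)

/-- The iterated cone over a list of operators (Koszul complex), first element first. -/
noncomputable def cones (X : GSys.{u, v, w} R Γ S deg) (l : List S) : GSys.{u, v, w} R Γ S deg :=
  l.foldl (fun Y s => Y.cone s) X

variable (X : GSys.{u, v, w} R Γ S deg)

theorem cones_nil : X.cones [] = X := rfl

theorem cones_cons (s : S) (l : List S) : X.cones (s :: l) = (X.cone s).cones l := rfl

theorem cones_append (l l' : List S) : X.cones (l ++ l') = (X.cones l).cones l' := by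
  simp [cones, List.foldl_append]

theorem cones_concat (l : List S) (s : S) : X.cones (l ++ [s]) = (X.cones l).cone s := by
  rw [cones_append, cones_cons, cones_nil]

/-- The Koszul complex of the list `l` in degree `a` is contractible. -/
def Good (a : Γ) (l : List S) : Prop := PC.Contractible ((X.cones l).A a)

/-- The torsion of the Koszul complex of the list `l` in degree `a`. -/
noncomputable def D (a : Γ) (l : List S) : Sg R := PC.tors ((X.cones l).A a)

theorem cone_A (s : S) (a : Γ) :
    (X.cone s).A a = PC.cone (X.op s (a - deg s) a (sub_add_cancel _ _)) := rfl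

/-- Contractibility of one more cone. -/
theorem good_concat (a : Γ) (l : List S) (s : S) (h1 : X.Good a l) (h2 : X.Good (a - deg s) l) :
    X.Good a (l ++ [s]) := by
  rw [Good, cones_concat]
  exact PC.cone_contractible _ h2 h1

/-- (R3) -/
theorem D_concat [IsDomain R] (a : Γ) (l : List S) (s : S) (h1 : X.Good a l)
    (h2 : X.Good (a - deg s) l) : X.D a (l ++ [s]) = X.D a l / X.D (a - deg s) l := by
  rw [D, cones_concat]
  exact PC.cone_tors _ h2 h1

/-! ### isomorphisms -/

/-- Isomorphisms of graded systems. -/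
structure GIso (X Y : GSys.{u, v, w} R Γ S deg) where
  /-- the isomorphism in each degree -/
  e : ∀ a, PC.Iso (X.A a) (Y.A a)
  nat : ∀ (s : S) (a b : Γ) (h : a + deg s = b),
    (Y.op s a b h).comp (e a).hom = (e b).hom.comp (X.op s a b h)

/-- The ratio of an isomorphism, a function on `Γ`. -/
noncomputable def GIso.ratio {X Y : GSys.{u, v, w} R Γ S deg} (φ : GIso X Y) : Γ → Sg R :=
  fun a => (φ.e a).ratio

/-- The identity. -/
def GIso.refl (X : GSys.{u, v, w} R Γ S deg) : GIso X X where
  e _ := PC.Iso.refl _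
  nat _ _ _ _ := rfl

theorem GIso.ratio_refl (X : GSys.{u, v, w} R Γ S deg) : (GIso.refl X).ratio = 1 := by
  funext a; exact PC.Iso.ratio_refl _

/-- Composition. -/
def GIso.trans {X Y Z : GSys.{u, v, w} R Γ S deg} (φ : GIso X Y) (ψ : GIso Y Z) : GIso X Z where
  e a := (φ.e a).trans (ψ.e a)
  nat s a b h := by
    have e1 := φ.nat s a b h
    have e2 := ψ.nat s a b h
    refine PC.Hom.ext (LinearMap.ext fun x => ?_) (LinearMap.ext fun x => ?_)
    · have f1 := congrArg (fun h => h.f0 x) e1
      have f2 := congrArg (fun h => h.f0 ((φ.e a).e0 x)) e2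
      exact f2.trans (congrArg (ψ.e b).e0 f1)
    · have f1 := congrArg (fun h => h.f1 x) e1
      have f2 := congrArg (fun h => h.f1 ((φ.e a).e1 x)) e2
      exact f2.trans (congrArg (ψ.e b).e1 f1)

theorem GIso.ratio_trans {X Y Z : GSys.{u, v, w} R Γ S deg} (φ : GIso X Y) (ψ : GIso Y Z) :
    (φ.trans ψ).ratio = φ.ratio * ψ.ratio := by
  funext a; exact PC.Iso.ratio_trans _ _

/-- The isomorphism of cones. -/
noncomputable def GIso.cone {X Y : GSys.{u, v, w} R Γ S deg} (φ : GIso X Y) (s : S) :
    GIso (X.cone s) (Y.cone s) where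
  e a := PC.coneIso _ _ (φ.e (a - deg s)) (φ.e a) (φ.nat s _ _ _)
  nat t a b h := by
    have e1 := φ.nat t a b h
    have e2 := φ.nat t (a - deg s) (b - deg s) (by rw [← h]; abel)
    refine PC.Hom.ext (LinearMap.ext ?_) (LinearMap.ext ?_)
    · rintro ⟨x, y⟩
      exact Prod.ext (congrArg (fun h => h.f0 x) e1) (congrArg (fun h => h.f1 y) e2)
    · rintro ⟨x, y⟩
      exact Prod.ext (congrArg (fun h => h.f1 x) e1) (congrArg (fun h => h.f0 y) e2)

theorem GIso.ratio_cone {X Y : GSys.{u, v, w} R Γ S deg} (φ : GIso X Y) (s : S) :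
    (φ.cone s).ratio = diff (deg s) φ.ratio := by
  funext a; exact PC.coneIso_ratio _ _ _ _ (φ.nat s _ _ _)

/-- Isomorphic systems with ratio `ρ`. -/
def IsoRatio (X Y : GSys.{u, v, w} R Γ S deg) (ρ : Γ → Sg R) : Prop :=
  ∃ φ : GIso X Y, φ.ratio = ρ

theorem IsoRatio.cones {X Y : GSys.{u, v, w} R Γ S deg} {ρ : Γ → Sg R} (h : IsoRatio X Y ρ)
    (l : List S) : IsoRatio (X.cones l) (Y.cones l) (diffs (l.map deg) ρ) := by
  induction l generalizing X Y ρ with
  | nil => exact h
  | cons s l ih =>
    obtain ⟨φ, rfl⟩ := h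
    rw [cones_cons, cones_cons, List.map_cons, diffs_cons]
    apply ih
    exact ⟨φ.cone s, φ.ratio_cone s⟩

theorem IsoRatio.trans {X Y Z : GSys.{u, v, w} R Γ S deg} {ρ ρ' : Γ → Sg R}
    (h : IsoRatio X Y ρ) (h' : IsoRatio Y Z ρ') : IsoRatio X Z (ρ * ρ') := by
  obtain ⟨φ, rfl⟩ := h
  obtain ⟨ψ, rfl⟩ := h'
  exact ⟨φ.trans ψ, φ.ratio_trans ψ⟩

theorem IsoRatio.good {X Y : GSys.{u, v, w} R Γ S deg} {ρ : Γ → Sg R} (h : IsoRatio X Y ρ)
    (a : Γ) (l : List S) : X.Good a l ↔ Y.Good a l := by
  obtain ⟨φ, -⟩ := h.cones l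
  exact (φ.e a).contractible_iff

/-- (P1) Torsion and isomorphisms, in particular change of bases. -/
theorem IsoRatio.D_eq [IsDomain R] {X Y : GSys.{u, v, w} R Γ S deg} {ρ : Γ → Sg R}
    (h : IsoRatio X Y ρ) (a : Γ) (l : List S) (hg : X.Good a l) :
    Y.D a l = X.D a l * diffs (l.map deg) ρ a := by
  obtain ⟨φ, hφ⟩ := h.cones l
  rw [← hφ]
  exact (φ.e a).tors hg

/-! ### permutations -/

/-- Transport along an equality of degrees. -/
def cast {a b : Γ} (h : a = b) : PC.Iso (X.A a) (X.A b) := h ▸ PC.Iso.refl (X.A a)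

theorem cast_ratio {a b : Γ} (h : a = b) : (X.cast h).ratio = 1 := by
  subst h; exact PC.Iso.ratio_refl _

theorem cast_rfl {a : Γ} (h : a = a) : X.cast h = PC.Iso.refl (X.A a) := rfl

theorem op_cast (s : S) {a b c d : Γ} (h : a = b) (h' : c = d) (h1 : a + deg s = c)
    (h2 : b + deg s = d) :
    (X.op s b d h2).comp (X.cast h).hom = (X.cast h').hom.comp (X.op s a c h1) := by
  subst h; subst h'; rfl

theorem op_cast_left (s : S) {a b c : Γ} (h : a = b) (h1 : a + deg s = c)
    (h2 : b + deg s = c) :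
    (X.op s b c h2).comp (X.cast h).hom = X.op s a c h1 := by
  subst h; rfl

/-- Exchange of two sections. -/
noncomputable def swapIso (s t : S) : GIso ((X.cone s).cone t) ((X.cone t).cone s) where
  e a := PC.squareIso (X.op s (a - deg s) a (sub_add_cancel _ _))
    (X.op t (a - deg t) a (sub_add_cancel _ _))
    (X.op s (a - deg t - deg s) (a - deg t) (sub_add_cancel _ _))
    (X.op t (a - deg t - deg s) (a - deg s) (by abel))
    (X.comm t s _ _ _ _ _ _ _ _)
    (X.op t (a - deg s - deg t) (a - deg s) (sub_add_cancel _ _))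
    (X.op s (a - deg s - deg t) (a - deg t) (by abel))
    (X.comm s t _ _ _ _ _ _ _ _)
    (X.cast (by abel))
    (X.op_cast_left t _ _ _)
    (X.op_cast_left s _ _ _)
  nat r a b h := by
    have e1 := X.op_cast r (a := a - deg t - deg s) (b := a - deg s - deg t)
      (c := b - deg t - deg s) (d := b - deg s - deg t) (by abel) (by abel)
      (by rw [← h]; abel) (by rw [← h]; abel)
    refine PC.Hom.ext (LinearMap.ext ?_) (LinearMap.ext ?_)
    · rintro ⟨⟨x, y⟩, ⟨z, w⟩⟩
      refine Prod.ext (Prod.ext rfl rfl) (Prod.ext rfl ?_)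
      have f1 := congrArg (fun h => h.f0 w) e1
      exact (map_neg (X.op r (a - deg s - deg t) (b - deg s - deg t) (by rw [← h]; abel)).f0
        ((X.cast (by abel)).e0 w)).trans (congrArg Neg.neg f1)
    · rintro ⟨⟨x, y⟩, ⟨z, w⟩⟩
      refine Prod.ext (Prod.ext rfl rfl) (Prod.ext rfl ?_)
      have f1 := congrArg (fun h => h.f1 w) e1
      exact (map_neg (X.op r (a - deg s - deg t) (b - deg s - deg t) (by rw [← h]; abel)).f1
        ((X.cast (by abel)).e1 w)).trans (congrArg Neg.neg f1)

theorem isoRatio_swap (s t : S) : IsoRatio ((X.cone s).cone t) ((X.cone t).cone s) 1 := by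
  refine ⟨X.swapIso s t, ?_⟩
  funext a
  have h : a - deg t - deg s = a - deg s - deg t := by abel
  refine (PC.squareIso_ratio _ _ _ _ _ _ _ _ (X.cast h) (X.op_cast_left t h _ _)
    (X.op_cast_left s h _ _)).trans ?_
  exact X.cast_ratio h

theorem isoRatio_perm {l l' : List S} (h : l.Perm l') : IsoRatio (X.cones l) (X.cones l') 1 := by
  induction h generalizing X with
  | nil => exact ⟨GIso.refl _, GIso.ratio_refl _⟩
  | cons s h ih => exact ih (X.cone s)
  | swap s t l =>
    have := (X.isoRatio_swap t s).cones l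
    rwa [diffs_one] at this
  | trans h1 h2 ih1 ih2 =>
    have := (ih1 X).trans (ih2 X)
    rwa [mul_one] at this

theorem good_perm {l l' : List S} (h : l.Perm l') (a : Γ) : X.Good a l ↔ X.Good a l' := by
  obtain ⟨φ, -⟩ := X.isoRatio_perm h
  exact (φ.e a).contractible_iff

/-- (P2) The torsion does not depend on the order of the sections. -/
theorem D_perm [IsDomain R] {l l' : List S} (h : l.Perm l') (a : Γ) (hg : X.Good a l) :
    X.D a l' = X.D a l := by
  obtain ⟨φ, hφ⟩ := X.isoRatio_perm h
  have h1 := (φ.e a).tors hg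
  have h2 : (φ.e a).ratio = 1 := congrFun hφ a
  rw [h2, mul_one] at h1
  exact h1

/-! ### products -/

/-- The operator `r` acts as the composite of `t` and `s`. -/
def MulRel (s t r : S) : Prop :=
  ∀ (a b c : Γ) (h1 : a + deg t = b) (h2 : b + deg s = c) (h3 : a + deg r = c),
    X.op r a c h3 = (X.op s b c h2).comp (X.op t a b h1)

theorem MulRel.cone {X : GSys.{u, v, w} R Γ S deg} {s t r : S} (h : X.MulRel s t r) (q : S) :
    (X.cone q).MulRel s t r := by
  intro a b c h1 h2 h3
  have e1 := h a b c h1 h2 h3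
  have e2 := h (a - deg q) (b - deg q) (c - deg q) (by rw [← h1]; abel) (by rw [← h2]; abel)
    (by rw [← h3]; abel)
  refine PC.Hom.ext (LinearMap.ext ?_) (LinearMap.ext ?_)
  · rintro ⟨x, y⟩
    exact Prod.ext (congrArg (fun h => h.f0 x) e1) (congrArg (fun h => h.f1 y) e2)
  · rintro ⟨x, y⟩
    exact Prod.ext (congrArg (fun h => h.f1 x) e1) (congrArg (fun h => h.f0 y) e2)

theorem MulRel.cones {X : GSys.{u, v, w} R Γ S deg} {s t r : S} (h : X.MulRel s t r)
    (l : List S) : (X.cones l).MulRel s t r := by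
  induction l generalizing X with
  | nil => exact h
  | cons q l ih => exact ih (h.cone q)

/-- The cone of an operator with target in degree `a`, with free choice of the name of the
source degree. -/
theorem cone_op_cast (s : S) {a b b' : Γ} (h : b + deg s = a) (h' : b' + deg s = a) :
    ∃ e : PC.Iso (PC.cone (X.op s b a h)) (PC.cone (X.op s b' a h')), e.ratio = 1 := by
  have hb : b = b' := add_right_cancel (h.trans h'.symm)
  subst hb
  exact ⟨PC.Iso.refl _, PC.Iso.ratio_refl _⟩

theorem cone_mul_aux {X : GSys.{u, v, w} R Γ S deg} {s t r : S} (h : X.MulRel s t r)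
    (hdeg : deg r = deg s + deg t) (a : Γ) (h1 : PC.Contractible ((X.cone s).A a))
    (h2 : PC.Contractible ((X.cone t).A (a - deg s))) :
    PC.Contractible ((X.cone r).A a) ∧ (IsDomain R →
      PC.tors ((X.cone r).A a) = PC.tors ((X.cone s).A a) * PC.tors ((X.cone t).A (a - deg s))) := by
  have hc : a - deg s - deg t + deg r = a := by rw [hdeg]; abel
  obtain ⟨e, he⟩ := X.cone_op_cast r hc (sub_add_cancel a (deg r))
  have hm := h (a - deg s - deg t) (a - deg s) a (sub_add_cancel _ _) (sub_add_cancel _ _) hc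
  have h3 : PC.Contractible (PC.cone (X.op r (a - deg s - deg t) a hc)) := by
    rw [hm]
    exact PC.comp_contractible _ _ h2 h1
  refine ⟨e.contractible h3, fun _ => ?_⟩
  have h4 := e.tors h3
  rw [he, mul_one] at h4
  refine h4.trans ?_
  rw [hm, PC.comp_tors _ _ h2 h1, mul_comm]
  rfl

theorem good_mul {s t r : S} (h : X.MulRel s t r) (hdeg : deg r = deg s + deg t) (a : Γ)
    (l : List S) (h1 : X.Good a (l ++ [s])) (h2 : X.Good (a - deg s) (l ++ [t])) :
    X.Good a (l ++ [r]) := by
  rw [Good, cones_concat] at h1 h2 ⊢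
  exact (cone_mul_aux (h.cones l) hdeg a h1 h2).1

/-- (P4) The torsion for a product of sections. -/
theorem D_mul [IsDomain R] {s t r : S} (h : X.MulRel s t r) (hdeg : deg r = deg s + deg t) (a : Γ)
    (l : List S) (h1 : X.Good a (l ++ [s])) (h2 : X.Good (a - deg s) (l ++ [t])) :
    X.D a (l ++ [r]) = X.D a (l ++ [s]) * X.D (a - deg s) (l ++ [t]) := by
  rw [Good, cones_concat] at h1 h2
  rw [D, D, D, cones_concat, cones_concat, cones_concat]
  exact (cone_mul_aux (h.cones l) hdeg a h1 h2).2 inferInstance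

/-! ### unimodular changes -/

/-- The operator `s'` acts as `s` plus the composite of `t` and `h`. -/
def AddRel (s' s h t : S) : Prop :=
  ∀ (a b c : Γ) (h1 : a + deg t = b) (h2 : b + deg h = c) (h3 : a + deg s = c)
    (h4 : a + deg s' = c),
    (∀ x, (X.op s' a c h4).f0 x = (X.op s a c h3).f0 x +
      (X.op h b c h2).f0 ((X.op t a b h1).f0 x)) ∧
    (∀ x, (X.op s' a c h4).f1 x = (X.op s a c h3).f1 x +
      (X.op h b c h2).f1 ((X.op t a b h1).f1 x))

theorem AddRel.cone {X : GSys.{u, v, w} R Γ S deg} {s' s h t : S} (H : X.AddRel s' s h t)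
    (q : S) : (X.cone q).AddRel s' s h t := by
  intro a b c h1 h2 h3 h4
  have e1 := H a b c h1 h2 h3 h4
  have e2 := H (a - deg q) (b - deg q) (c - deg q) (by rw [← h1]; abel) (by rw [← h2]; abel)
    (by rw [← h3]; abel) (by rw [← h4]; abel)
  constructor
  · rintro ⟨x, y⟩
    exact Prod.ext (e1.1 x) (e2.2 y)
  · rintro ⟨x, y⟩
    exact Prod.ext (e1.2 x) (e2.1 y)

theorem AddRel.cones {X : GSys.{u, v, w} R Γ S deg} {s' s h t : S} (H : X.AddRel s' s h t)
    (l : List S) : (X.cones l).AddRel s' s h t := by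
  induction l generalizing X with
  | nil => exact H
  | cons q l ih => exact ih (H.cone q)

theorem cone_add_aux {X : GSys.{u, v, w} R Γ S deg} {s' s h t : S} (H : X.AddRel s' s h t)
    (hs : deg s' = deg s) (hh : deg h + deg t = deg s) (a : Γ) :
    ∃ e : PC.Iso (((X.cone t).cone s').A a) (((X.cone t).cone s).A a), e.ratio = 1 := by
  have hc : a - deg s + deg s' = a := by rw [hs]; abel
  obtain ⟨e, he⟩ := (X.cone t).cone_op_cast s' (sub_add_cancel a (deg s')) hc
  let f := (X.cone t).op s (a - deg s) a (sub_add_cancel _ _)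
  let g := (X.cone t).op s' (a - deg s) a hc
  -- the homotopy: multiplication by `h` from the target of the first cone to the source
  have hd : a - deg s + deg h = a - deg t := by rw [← hh]; abel
  have hd' : a - deg s - deg t + deg h = a - deg t - deg t := by rw [← hh]; abel
  let k0 : ((X.cone t).A (a - deg s)).C0 →ₗ[R] ((X.cone t).A a).C1 :=
    LinearMap.prod 0 ((X.op h (a - deg s) (a - deg t) hd).f0.comp (LinearMap.fst R _ _))
  let k1 : ((X.cone t).A (a - deg s)).C1 →ₗ[R] ((X.cone t).A a).C0 :=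
    LinearMap.prod 0 ((X.op h (a - deg s) (a - deg t) hd).f1.comp (LinearMap.fst R _ _))
  have key0 : ∀ x, g.f0 x = f.f0 x + (((X.cone t).A a).d1 (k0 x) +
      k1 (((X.cone t).A (a - deg s)).d0 x)) := by
    rintro ⟨x, y⟩
    -- `x` in even degree part of `X.A (a - deg s)`, `y` in the odd part of the shifted one
    have q1 := (H (a - deg s) (a - deg s + deg t) a rfl (by rw [← hh]; abel)
      (sub_add_cancel _ _) hc).1 x
    have q2 := (H (a - deg s - deg t) (a - deg s) (a - deg t) (sub_add_cancel _ _) hd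
      (by abel) (by rw [hs]; abel)).2 y
    have q3 := congrArg (fun h => h.f0 x) (X.comm h t (a - deg s) (a - deg t)
      (a - deg s + deg t) a hd (sub_add_cancel _ _) rfl (by rw [← hh]; abel))
    refine Prod.ext ?_ ?_
    · change (X.op s' _ _ _).f0 x = (X.op s _ _ _).f0 x + (((X.A a).d1 0 +
        (X.op t (a - deg t) a _).f0 ((X.op h _ _ hd).f0 x)) + 0)
      rw [map_zero, zero_add, add_zero, q1]
      congr 1
      exact q3.symm
    · change (X.op s' _ _ _).f1 y = (X.op s _ _ _).f1 y + (-((X.A (a - deg t)).d0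
        ((X.op h _ _ hd).f0 x)) + (X.op h _ _ hd).f1 ((X.A (a - deg s)).d0 x +
          (X.op t (a - deg s - deg t) (a - deg s) _).f1 y))
      rw [map_add, ← (X.op h _ _ hd).c0, neg_add_cancel_left]
      exact q2
  have key1 : ∀ x, g.f1 x = f.f1 x + (((X.cone t).A a).d0 (k1 x) +
      k0 (((X.cone t).A (a - deg s)).d1 x)) := by
    rintro ⟨x, y⟩
    have q1 := (H (a - deg s) (a - deg s + deg t) a rfl (by rw [← hh]; abel)
      (sub_add_cancel _ _) hc).2 x
    have q2 := (H (a - deg s - deg t) (a - deg s) (a - deg t) (sub_add_cancel _ _) hd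
      (by abel) (by rw [hs]; abel)).1 y
    have q3 := congrArg (fun h => h.f1 x) (X.comm h t (a - deg s) (a - deg t)
      (a - deg s + deg t) a hd (sub_add_cancel _ _) rfl (by rw [← hh]; abel))
    refine Prod.ext ?_ ?_
    · change (X.op s' _ _ _).f1 x = (X.op s _ _ _).f1 x + (((X.A a).d0 0 +
        (X.op t (a - deg t) a _).f1 ((X.op h _ _ hd).f1 x)) + 0)
      rw [map_zero, zero_add, add_zero, q1]
      congr 1
      exact q3.symm
    · change (X.op s' _ _ _).f0 y = (X.op s _ _ _).f0 y + (-((X.A (a - deg t)).d1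
        ((X.op h _ _ hd).f1 x)) + (X.op h _ _ hd).f0 ((X.A (a - deg s)).d1 x +
          (X.op t (a - deg s - deg t) (a - deg s) _).f0 y))
      rw [map_add, ← (X.op h _ _ hd).c1, neg_add_cancel_left]
      exact q2
  refine ⟨e.trans (PC.homotopyIso f g k0 k1 key0 key1), ?_⟩
  refine (PC.Iso.ratio_trans e (PC.homotopyIso f g k0 k1 key0 key1)).trans ?_
  rw [he, one_mul]
  exact PC.homotopyIso_ratio f g k0 k1 key0 key1

theorem good_add {X : GSys.{u, v, w} R Γ S deg} {s' s h t : S} (H : X.AddRel s' s h t)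
    (hs : deg s' = deg s) (hh : deg h + deg t = deg s) (a : Γ) (l : List S) :
    X.Good a (l ++ [t, s']) ↔ X.Good a (l ++ [t, s]) := by
  obtain ⟨e, -⟩ := cone_add_aux (H.cones l) hs hh a
  rw [Good, Good, cones_append, cones_append]
  exact e.contractible_iff

/-- (P7) Unimodular invariance: `s'` acts as `s` plus a multiple of `t`. -/
theorem D_add [IsDomain R] {X : GSys.{u, v, w} R Γ S deg} {s' s h t : S}
    (H : X.AddRel s' s h t) (hs : deg s' = deg s) (hh : deg h + deg t = deg s) (a : Γ)
    (l : List S) (hg : X.Good a (l ++ [t, s])) :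
    X.D a (l ++ [t, s']) = X.D a (l ++ [t, s]) := by
  obtain ⟨e, he⟩ := cone_add_aux (H.cones l) hs hh a
  have hg' := (good_add H hs hh a l).2 hg
  rw [Good, cones_append] at hg'
  have h1 := e.tors hg'
  rw [he, mul_one] at h1
  rw [D, D, cones_append, cones_append]
  exact h1.symm

end GSys

end Pool.Agent.Helper88.SSF
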