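import Pool.Agent.helper88.SSF.BC

/-!
Project SSF: comparison of graded systems which are isomorphic, or form a short exact sequence,
only in certain degrees (high degrees).
-/

namespace Pool.Agent.Helper88.SSF

open Module

universe u v w x y u' v' w'

/-- `AllSub U l a`: the property `U` holds at `a` minus the sum of every sublist of `l`. -/
def AllSub {Γ : Type*} [AddCommGroup Γ] (U : Γ → Prop) : List Γ → Γ → Prop
  | [], a => U a
  | g :: l, a => AllSub (fun b => U b ∧ U (b - g)) l a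

theorem AllSub.mono {Γ : Type*} [AddCommGroup Γ] {U V : Γ → Prop} (h : ∀ a, U a → V a) :
    ∀ {l : List Γ} {a : Γ}, AllSub U l a → AllSub V l a := by
  intro l
  induction l generalizing U V with
  | nil => intro a ha; exact h a ha
  | cons g l ih => intro a ha; exact ih (fun b hb => ⟨h b hb.1, h _ hb.2⟩) ha

theorem AllSub.and {Γ : Type*} [AddCommGroup Γ] {U V : Γ → Prop} :
    ∀ {l : List Γ} {a : Γ}, AllSub U l a → AllSub V l a → AllSub (fun b => U b ∧ V b) l a := by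
  intro l
  induction l generalizing U V with
  | nil => intro a h1 h2; exact ⟨h1, h2⟩
  | cons g l ih =>
    intro a h1 h2
    exact AllSub.mono (U := fun b => (U b ∧ U (b - g)) ∧ (V b ∧ V (b - g)))
      (V := fun b => (U b ∧ V b) ∧ (U (b - g) ∧ V (b - g)))
      (fun b hb => ⟨⟨hb.1.1, hb.2.1⟩, hb.1.2, hb.2.2⟩)
      (ih (U := fun b => U b ∧ U (b - g)) (V := fun b => V b ∧ V (b - g)) h1 h2)

theorem AllSub.self {Γ : Type*} [AddCommGroup Γ] {U : Γ → Prop} :
    ∀ {l : List Γ} {a : Γ}, AllSub U l a → U a := by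
  intro l
  induction l generalizing U with
  | nil => intro a h; exact h
  | cons g l ih => intro a h; exact (ih h).1

/-- The property `P` holds in all degrees `γ + n h`, `n` large. -/
def HighP {Γ : Type*} [AddCommGroup Γ] (h : Γ) (P : Γ → Prop) : Prop :=
  ∀ γ : Γ, ∃ N : ℕ, ∀ n : ℕ, N ≤ n → P (γ + n • h)

theorem HighP.mono {Γ : Type*} [AddCommGroup Γ] {h : Γ} {P Q : Γ → Prop}
    (hPQ : ∀ a, P a → Q a) (hP : HighP h P) : HighP h Q := by
  intro γ
  obtain ⟨N, hN⟩ := hP γ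
  exact ⟨N, fun n hn => hPQ _ (hN n hn)⟩

theorem HighP.and {Γ : Type*} [AddCommGroup Γ] {h : Γ} {P Q : Γ → Prop}
    (hP : HighP h P) (hQ : HighP h Q) : HighP h (fun a => P a ∧ Q a) := by
  intro γ
  obtain ⟨N, hN⟩ := hP γ
  obtain ⟨N', hN'⟩ := hQ γ
  exact ⟨max N N', fun n hn => ⟨hN n (le_trans (le_max_left _ _) hn),
    hN' n (le_trans (le_max_right _ _) hn)⟩⟩

theorem HighP.sub {Γ : Type*} [AddCommGroup Γ] {h : Γ} {P : Γ → Prop}
    (hP : HighP h P) (g : Γ) : HighP h (fun a => P (a - g)) := by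
  intro γ
  obtain ⟨N, hN⟩ := hP (γ - g)
  refine ⟨N, fun n hn => ?_⟩
  have := hN n hn
  rwa [show γ - g + n • h = γ + n • h - g by abel] at this

theorem HighP.allSub {Γ : Type*} [AddCommGroup Γ] {h : Γ} {P : Γ → Prop}
    (hP : HighP h P) (l : List Γ) : HighP h (AllSub P l) := by
  induction l generalizing P with
  | nil => exact hP
  | cons g l ih => exact ih (hP.and (hP.sub g))

namespace GSys

variable {R : Type u} [CommRing R] {Γ : Type x} [AddCommGroup Γ] {S : Type y} {deg : S → Γ}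

/-- Natural maps of graded systems. -/
structure GHom (X Y : GSys.{u, v, w} R Γ S deg) where
  /-- the map in each degree -/
  f : ∀ a, PC.Hom (X.A a) (Y.A a)
  nat : ∀ (s : S) (a b : Γ) (h : a + deg s = b),
    (Y.op s a b h).comp (f a) = (f b).comp (X.op s a b h)

/-- The map of cones. -/
noncomputable def GHom.cone {X Y : GSys.{u, v, w} R Γ S deg} (φ : GHom X Y) (s : S) :
    GHom (X.cone s) (Y.cone s) where
  f a := PC.coneMap _ _ (φ.f (a - deg s)) (φ.f a) (φ.nat s _ _ _)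
  nat t a b h := by
    have e1 := φ.nat t a b h
    have e2 := φ.nat t (a - deg s) (b - deg s) (by rw [← h]; abel)
    refine PC.Hom.ext (LinearMap.ext ?_) (LinearMap.ext ?_)
    · rintro ⟨x, y⟩
      exact Prod.ext (congrArg (fun h => h.f0 x) e1) (congrArg (fun h => h.f1 y) e2)
    · rintro ⟨x, y⟩
      exact Prod.ext (congrArg (fun h => h.f1 x) e1) (congrArg (fun h => h.f0 y) e2)

/-- The map of iterated cones. -/
noncomputable def GHom.cones : ∀ {X Y : GSys.{u, v, w} R Γ S deg} (_ : GHom X Y) (l : List S),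
    GHom (X.cones l) (Y.cones l)
  | _, _, φ, [] => φ
  | _, _, φ, s :: l => (φ.cone s).cones l

/-- The map is an isomorphism in degree `a` with ratio `r`. -/
def GHom.IsoAt {X Y : GSys.{u, v, w} R Γ S deg} (φ : GHom X Y) (a : Γ) (r : Sg R) : Prop :=
  ∃ e : PC.Iso (X.A a) (Y.A a), e.hom = φ.f a ∧ e.ratio = r

theorem GHom.IsoAt.cone {X Y : GSys.{u, v, w} R Γ S deg} {φ : GHom X Y} {ρ : Γ → Sg R} {a : Γ}
    (s : S) (h1 : φ.IsoAt a (ρ a)) (h2 : φ.IsoAt (a - deg s) (ρ (a - deg s))) :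
    (φ.cone s).IsoAt a (diff (deg s) ρ a) := by
  obtain ⟨e, he, hr⟩ := h1
  obtain ⟨e', he', hr'⟩ := h2
  have hn : (Y.op s (a - deg s) a (sub_add_cancel _ _)).comp e'.hom =
      e.hom.comp (X.op s (a - deg s) a (sub_add_cancel _ _)) := by
    rw [he, he']; exact φ.nat s _ _ _
  refine ⟨PC.coneIso _ _ e' e hn, ?_, ?_⟩
  · refine PC.Hom.ext (LinearMap.ext ?_) (LinearMap.ext ?_)
    · rintro ⟨x, y⟩
      exact Prod.ext (congrArg (fun h => h.f0 x) he) (congrArg (fun h => h.f1 y) he')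
    · rintro ⟨x, y⟩
      exact Prod.ext (congrArg (fun h => h.f1 x) he) (congrArg (fun h => h.f0 y) he')
  · refine (PC.coneIso_ratio _ _ _ _ hn).trans ?_
    rw [hr, hr']
    rfl

theorem GHom.IsoAt.cones {X Y : GSys.{u, v, w} R Γ S deg} (φ : GHom X Y) (ρ : Γ → Sg R)
    (U : Γ → Prop) (hU : ∀ b, U b → φ.IsoAt b (ρ b)) (l : List S) (a : Γ)
    (ha : AllSub U (l.map deg) a) : (φ.cones l).IsoAt a (diffs (l.map deg) ρ a) := by
  induction l generalizing X Y ρ U with
  | nil => exact hU a ha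
  | cons s l ih =>
    rw [List.map_cons, diffs_cons]
    exact ih (φ.cone s) (diff (deg s) ρ) (fun b => U b ∧ U (b - deg s))
      (fun b hb => GHom.IsoAt.cone s (hU b hb.1) (hU _ hb.2)) ha

/-- Comparison by a natural map which is an isomorphism in the relevant degrees. -/
theorem GHom.good_iff {X Y : GSys.{u, v, w} R Γ S deg} (φ : GHom X Y) (ρ : Γ → Sg R)
    (U : Γ → Prop) (hU : ∀ b, U b → φ.IsoAt b (ρ b)) (a : Γ) (l : List S)
    (ha : AllSub U (l.map deg) a) : X.Good a l ↔ Y.Good a l := by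
  obtain ⟨e, -, -⟩ := GHom.IsoAt.cones φ ρ U hU l a ha
  exact e.contractible_iff

theorem GHom.D_eq [IsDomain R] {X Y : GSys.{u, v, w} R Γ S deg} (φ : GHom X Y) (ρ : Γ → Sg R)
    (U : Γ → Prop) (hU : ∀ b, U b → φ.IsoAt b (ρ b)) (a : Γ) (l : List S)
    (ha : AllSub U (l.map deg) a) (hg : X.Good a l) :
    Y.D a l = X.D a l * diffs (l.map deg) ρ a := by
  obtain ⟨e, -, he⟩ := GHom.IsoAt.cones φ ρ U hU l a ha
  rw [← he]
  exact e.tors hg

/-- The maps `i`, `p` form a short exact sequence in degree `a` with ratio `r`. -/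
def SesAt {X Y Z : GSys.{u, v, w} R Γ S deg} (i : GHom X Y) (p : GHom Y Z) (a : Γ)
    (r : Sg R) : Prop :=
  ∃ E : PC.SES (X.A a) (Y.A a) (Z.A a), E.i = i.f a ∧ E.p = p.f a ∧ E.ratio = r

theorem SesAt.cone {X Y Z : GSys.{u, v, w} R Γ S deg} {i : GHom X Y} {p : GHom Y Z}
    {ρ : Γ → Sg R} {a : Γ} (s : S) (h1 : SesAt i p a (ρ a))
    (h2 : SesAt i p (a - deg s) (ρ (a - deg s))) :
    SesAt (i.cone s) (p.cone s) a (diff (deg s) ρ a) := by
  obtain ⟨E, hi, hp, hr⟩ := h1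
  obtain ⟨E', hi', hp', hr'⟩ := h2
  have hn : (Y.op s (a - deg s) a (sub_add_cancel _ _)).comp E'.i =
      E.i.comp (X.op s (a - deg s) a (sub_add_cancel _ _)) := by
    rw [hi, hi']; exact i.nat s _ _ _
  have hn' : (Z.op s (a - deg s) a (sub_add_cancel _ _)).comp E'.p =
      E.p.comp (Y.op s (a - deg s) a (sub_add_cancel _ _)) := by
    rw [hp, hp']; exact p.nat s _ _ _
  refine ⟨E'.cone E _ _ _ hn hn', ?_, ?_, ?_⟩
  · refine PC.Hom.ext (LinearMap.ext ?_) (LinearMap.ext ?_)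
    · rintro ⟨x, y⟩
      exact Prod.ext (congrArg (fun h => h.f0 x) hi) (congrArg (fun h => h.f1 y) hi')
    · rintro ⟨x, y⟩
      exact Prod.ext (congrArg (fun h => h.f1 x) hi) (congrArg (fun h => h.f0 y) hi')
  · refine PC.Hom.ext (LinearMap.ext ?_) (LinearMap.ext ?_)
    · rintro ⟨x, y⟩
      exact Prod.ext (congrArg (fun h => h.f0 x) hp) (congrArg (fun h => h.f1 y) hp')
    · rintro ⟨x, y⟩
      exact Prod.ext (congrArg (fun h => h.f1 x) hp) (congrArg (fun h => h.f0 y) hp')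
  · refine (PC.SES.cone_ratio _ _ _ _ _ hn hn').trans ?_
    rw [hr, hr']
    rfl

theorem SesAt.cones {X Y Z : GSys.{u, v, w} R Γ S deg} (i : GHom X Y) (p : GHom Y Z)
    (ρ : Γ → Sg R) (U : Γ → Prop) (hU : ∀ b, U b → SesAt i p b (ρ b)) (l : List S) (a : Γ)
    (ha : AllSub U (l.map deg) a) : SesAt (i.cones l) (p.cones l) a (diffs (l.map deg) ρ a) := by
  induction l generalizing X Y Z ρ U with
  | nil => exact hU a ha
  | cons s l ih =>
    rw [List.map_cons, diffs_cons]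
    exact ih (i.cone s) (p.cone s) (diff (deg s) ρ) (fun b => U b ∧ U (b - deg s))
      (fun b hb => SesAt.cone s (hU b hb.1) (hU _ hb.2)) ha

theorem SesAt.good_mid {X Y Z : GSys.{u, v, w} R Γ S deg} (i : GHom X Y) (p : GHom Y Z)
    (ρ : Γ → Sg R) (U : Γ → Prop) (hU : ∀ b, U b → SesAt i p b (ρ b)) (a : Γ) (l : List S)
    (ha : AllSub U (l.map deg) a) (hX : X.Good a l) (hZ : Z.Good a l) : Y.Good a l := by
  obtain ⟨E, -, -, -⟩ := SesAt.cones i p ρ U hU l a ha
  exact E.contractible hX hZ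

theorem SesAt.good_right {X Y Z : GSys.{u, v, w} R Γ S deg} (i : GHom X Y) (p : GHom Y Z)
    (ρ : Γ → Sg R) (U : Γ → Prop) (hU : ∀ b, U b → SesAt i p b (ρ b)) (a : Γ) (l : List S)
    (ha : AllSub U (l.map deg) a) (hX : X.Good a l) (hY : Y.Good a l) : Z.Good a l := by
  obtain ⟨E, -, -, -⟩ := SesAt.cones i p ρ U hU l a ha
  exact E.contractible_right hX hY

theorem SesAt.good_left {X Y Z : GSys.{u, v, w} R Γ S deg} (i : GHom X Y) (p : GHom Y Z)
    (ρ : Γ → Sg R) (U : Γ → Prop) (hU : ∀ b, U b → SesAt i p b (ρ b)) (a : Γ) (l : List S)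
    (ha : AllSub U (l.map deg) a) (hY : Y.Good a l) (hZ : Z.Good a l) : X.Good a l := by
  obtain ⟨E, -, -, -⟩ := SesAt.cones i p ρ U hU l a ha
  exact E.contractible_left hY hZ

/-- (P5) in high degrees. -/
theorem SesAt.D_eq [IsDomain R] {X Y Z : GSys.{u, v, w} R Γ S deg} (i : GHom X Y)
    (p : GHom Y Z) (ρ : Γ → Sg R) (U : Γ → Prop) (hU : ∀ b, U b → SesAt i p b (ρ b)) (a : Γ)
    (l : List S) (ha : AllSub U (l.map deg) a) (hX : X.Good a l) (hZ : Z.Good a l) :
    Y.D a l = X.D a l * Z.D a l * diffs (l.map deg) ρ a := by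
  obtain ⟨E, -, -, hE⟩ := SesAt.cones i p ρ U hU l a ha
  rw [← hE]
  exact E.tors_eq hX hZ

/-- The map of `coneOne` of the shift to the cone of `s`. -/
noncomputable def oneToCone (X : GSys.{u, v, w} R Γ S deg) (s : S) :
    GHom ((X.shift (deg s)).coneOne) (X.cone s) where
  f a := PC.coneMap (PC.Hom.id (X.A (a - deg s))) (X.op s (a - deg s) a (sub_add_cancel _ _))
    (PC.Hom.id _) (X.op s (a - deg s) a (sub_add_cancel _ _)) rfl
  nat t a b h := by
    have e1 := X.comm t s (a - deg s) (b - deg s) a b (by rw [← h]; abel) (sub_add_cancel _ _)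
      (sub_add_cancel _ _) h
    refine PC.Hom.ext (LinearMap.ext ?_) (LinearMap.ext ?_)
    · rintro ⟨x, y⟩
      exact Prod.ext (congrArg (fun h => h.f0 x) e1).symm rfl
    · rintro ⟨x, y⟩
      exact Prod.ext (congrArg (fun h => h.f1 x) e1).symm rfl

/-- The map of the cone of `s` to a quotient on which `s` acts as zero. -/
noncomputable def coneToQuot {X Y : GSys.{u, v, w} R Γ S deg} (p : GHom X Y) (s : S)
    (hps : ∀ a b (h : a + deg s = b), (∀ x, (p.f b).f0 ((X.op s a b h).f0 x) = 0) ∧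
      (∀ x, (p.f b).f1 ((X.op s a b h).f1 x) = 0)) :
    GHom (X.cone s) Y where
  f a := ⟨(p.f a).f0.comp (LinearMap.fst R _ _), (p.f a).f1.comp (LinearMap.fst R _ _), by
      rintro ⟨b, c⟩
      change (Y.A a).d0 ((p.f a).f0 b) = (p.f a).f1 ((X.A a).d0 b + (X.op s _ a _).f1 c)
      rw [map_add, (hps _ _ _).2, add_zero, (p.f a).c0], by
      rintro ⟨b, c⟩
      change (Y.A a).d1 ((p.f a).f1 b) = (p.f a).f0 ((X.A a).d1 b + (X.op s _ a _).f0 c)
      rw [map_add, (hps _ _ _).1, add_zero, (p.f a).c1]⟩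
  nat t a b h := by
    have e1 := p.nat t a b h
    refine PC.Hom.ext (LinearMap.ext ?_) (LinearMap.ext ?_)
    · rintro ⟨x, y⟩
      exact congrArg (fun h => h.f0 x) e1
    · rintro ⟨x, y⟩
      exact congrArg (fun h => h.f1 x) e1

/-- In degree `a` the operator `s` (from degree `a - deg s`) is injective with quotient `Y`. -/
def NzdAt {X Y : GSys.{u, v, w} R Γ S deg} (p : GHom X Y) (s : S) (a : Γ) (r : Sg R) : Prop :=
  ∃ E : PC.SES (X.A (a - deg s)) (X.A a) (Y.A a),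
    E.i = X.op s (a - deg s) a (sub_add_cancel _ _) ∧ E.p = p.f a ∧ E.ratio = r

theorem NzdAt.sesAt {X Y : GSys.{u, v, w} R Γ S deg} (p : GHom X Y) (s : S)
    (hps : ∀ a b (h : a + deg s = b), (∀ x, (p.f b).f0 ((X.op s a b h).f0 x) = 0) ∧
      (∀ x, (p.f b).f1 ((X.op s a b h).f1 x) = 0)) {a : Γ} {r : Sg R} (h : NzdAt p s a r) :
    SesAt (X.oneToCone s) (coneToQuot p s hps) a r := by
  obtain ⟨E, hi, hp, hr⟩ := h
  refine ⟨(E.replace _ hi).nzd, rfl, ?_, ?_⟩
  · refine PC.Hom.ext (LinearMap.ext ?_) (LinearMap.ext ?_)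
    · rintro ⟨x, y⟩
      exact congrArg (fun h => h.f0 x) hp
    · rintro ⟨x, y⟩
      exact congrArg (fun h => h.f1 x) hp
  · exact (PC.SES.nzd_ratio _).trans ((PC.SES.replace_ratio _ _ _).trans hr)

/-- (R7) in high degrees. -/
theorem NzdAt.good_iff {X Y : GSys.{u, v, w} R Γ S deg} (p : GHom X Y) (s : S)
    (hps : ∀ a b (h : a + deg s = b), (∀ x, (p.f b).f0 ((X.op s a b h).f0 x) = 0) ∧
      (∀ x, (p.f b).f1 ((X.op s a b h).f1 x) = 0))
    (ρ : Γ → Sg R) (U : Γ → Prop) (hU : ∀ b, U b → NzdAt p s b (ρ b)) (a : Γ)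
    (l : List S) (ha : AllSub U (l.map deg) a) : X.Good a (s :: l) ↔ Y.Good a l := by
  obtain ⟨E, -, -, -⟩ := SesAt.cones (X.oneToCone s) (coneToQuot p s hps) ρ U
    (fun b hb => NzdAt.sesAt p s hps (hU b hb)) l a ha
  have h1 : PC.Contractible ((((X.shift (deg s)).coneOne).cones l).A a) := coneOne_good _ a l
  exact ⟨fun h => E.contractible_right h1 h, fun h => E.contractible h1 h⟩

theorem NzdAt.D_eq [IsDomain R] {X Y : GSys.{u, v, w} R Γ S deg} (p : GHom X Y) (s : S)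
    (hps : ∀ a b (h : a + deg s = b), (∀ x, (p.f b).f0 ((X.op s a b h).f0 x) = 0) ∧
      (∀ x, (p.f b).f1 ((X.op s a b h).f1 x) = 0))
    (ρ : Γ → Sg R) (U : Γ → Prop) (hU : ∀ b, U b → NzdAt p s b (ρ b)) (a : Γ)
    (l : List S) (ha : AllSub U (l.map deg) a) (hg : Y.Good a l) :
    X.D a (s :: l) = Y.D a l * diffs (l.map deg) ρ a := by
  have h1 := SesAt.D_eq (X.oneToCone s) (coneToQuot p s hps) ρ U
    (fun b hb => NzdAt.sesAt p s hps (hU b hb)) a l ha (coneOne_good _ a l) hg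
  rw [coneOne_D, one_mul] at h1
  exact h1

/-- If all pieces in the relevant degrees vanish, the cones are contractible with trivial
torsion. -/
theorem zero_cones {X : GSys.{u, v, w} R Γ S deg} (U : Γ → Prop)
    (hU : ∀ b, U b → Subsingleton (X.A b).C0 ∧ Subsingleton (X.A b).C1) (l : List S) (a : Γ)
    (ha : AllSub U (l.map deg) a) :
    Subsingleton ((X.cones l).A a).C0 ∧ Subsingleton ((X.cones l).A a).C1 := by
  induction l generalizing X U with
  | nil => exact hU a ha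
  | cons s l ih =>
    refine ih (X := X.cone s) (fun b => U b ∧ U (b - deg s)) ?_ ha
    rintro b ⟨h1, h2⟩
    obtain ⟨i1, i2⟩ := hU b h1
    obtain ⟨i3, i4⟩ := hU _ h2
    constructor
    · change Subsingleton ((X.A b).C0 × (X.A (b - deg s)).C1)
      infer_instance
    · change Subsingleton ((X.A b).C1 × (X.A (b - deg s)).C0)
      infer_instance

theorem _root_.Pool.Agent.Helper88.SSF.PC.contractible_of_subsingleton (A : PC.{u, v, w} R)
    [Subsingleton A.C0] [Subsingleton A.C1] : PC.Contractible A :=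
  ⟨⟨0, 0, fun _ => Subsingleton.elim _ _, fun _ => Subsingleton.elim _ _,
    fun _ => Subsingleton.elim _ _, fun _ => Subsingleton.elim _ _⟩⟩

theorem good_of_zero {X : GSys.{u, v, w} R Γ S deg} (U : Γ → Prop)
    (hU : ∀ b, U b → Subsingleton (X.A b).C0 ∧ Subsingleton (X.A b).C1) (l : List S) (a : Γ)
    (ha : AllSub U (l.map deg) a) : X.Good a l := by
  obtain ⟨h1, h2⟩ := zero_cones U hU l a ha
  exact PC.contractible_of_subsingleton _

/-- Base change maps which take bases to bases only in the relevant degrees. -/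
structure GSemi {T : Type u'} [CommRing T] (σ : R →+* T) (X : GSys.{u, v, w} R Γ S deg)
    (Y : GSys.{u', v', w'} T Γ S deg) where
  /-- even part -/
  f0 : ∀ a, (X.A a).C0 →ₛₗ[σ] (Y.A a).C0
  /-- odd part -/
  f1 : ∀ a, (X.A a).C1 →ₛₗ[σ] (Y.A a).C1
  nat0 : ∀ (s : S) (a b : Γ) (h : a + deg s = b) (x : (X.A a).C0),
    (Y.op s a b h).f0 (f0 a x) = f0 b ((X.op s a b h).f0 x)
  nat1 : ∀ (s : S) (a b : Γ) (h : a + deg s = b) (x : (X.A a).C1),
    (Y.op s a b h).f1 (f1 a x) = f1 b ((X.op s a b h).f1 x)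

/-- The semilinear maps of cones. -/
noncomputable def GSemi.cone {T : Type u'} [CommRing T] {σ : R →+* T} {X : GSys.{u, v, w} R Γ S deg}
    {Y : GSys.{u', v', w'} T Γ S deg} (φ : GSemi σ X Y) (s : S) :
    GSemi σ (X.cone s) (Y.cone s) where
  f0 a :=
    { toFun := fun x => (φ.f0 a x.1, φ.f1 (a - deg s) x.2)
      map_add' := fun x y => Prod.ext (map_add _ _ _) (map_add _ _ _)
      map_smul' := fun c x => Prod.ext (map_smulₛₗ _ _ _) (map_smulₛₗ _ _ _) }
  f1 a :=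
    { toFun := fun x => (φ.f1 a x.1, φ.f0 (a - deg s) x.2)
      map_add' := fun x y => Prod.ext (map_add _ _ _) (map_add _ _ _)
      map_smul' := fun c x => Prod.ext (map_smulₛₗ _ _ _) (map_smulₛₗ _ _ _) }
  nat0 t a b h := by
    rintro ⟨x, y⟩
    exact Prod.ext (φ.nat0 t a b h x)
      (φ.nat1 t (a - deg s) (b - deg s) (by rw [← h]; abel) y)
  nat1 t a b h := by
    rintro ⟨x, y⟩
    exact Prod.ext (φ.nat1 t a b h x)
      (φ.nat0 t (a - deg s) (b - deg s) (by rw [← h]; abel) y)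

/-- The semilinear maps of iterated cones. -/
noncomputable def GSemi.cones {T : Type u'} [CommRing T] {σ : R →+* T} :
    ∀ {X : GSys.{u, v, w} R Γ S deg} {Y : GSys.{u', v', w'} T Γ S deg} (_ : GSemi σ X Y)
      (l : List S), GSemi σ (X.cones l) (Y.cones l)
  | _, _, φ, [] => φ
  | _, _, φ, s :: l => (φ.cone s).cones l

/-- The semilinear map is a base change map in degree `a`. -/
def GSemi.BcAt {T : Type u'} [CommRing T] {σ : R →+* T} {X : GSys.{u, v, w} R Γ S deg}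
    {Y : GSys.{u', v', w'} T Γ S deg} (φ : GSemi σ X Y) (a : Γ) : Prop :=
  ∃ m : PC.BCMap σ (X.A a) (Y.A a), m.f0 = φ.f0 a ∧ m.f1 = φ.f1 a

theorem GSemi.BcAt.cone {T : Type u'} [CommRing T] {σ : R →+* T} {X : GSys.{u, v, w} R Γ S deg}
    {Y : GSys.{u', v', w'} T Γ S deg} {φ : GSemi σ X Y} {a : Γ} (s : S) (h1 : φ.BcAt a)
    (h2 : φ.BcAt (a - deg s)) : (φ.cone s).BcAt a := by
  obtain ⟨m, hm0, hm1⟩ := h1
  obtain ⟨m', hm0', hm1'⟩ := h2
  refine ⟨m'.cone m (X.op s (a - deg s) a (sub_add_cancel _ _))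
    (Y.op s (a - deg s) a (sub_add_cancel _ _)) ?_ ?_, ?_, ?_⟩
  · intro x
    rw [hm0', hm0]; exact φ.nat0 s _ _ _ x
  · intro x
    rw [hm1', hm1]; exact φ.nat1 s _ _ _ x
  · refine LinearMap.ext ?_
    rintro ⟨x, y⟩
    exact Prod.ext (congrArg (fun h => h x) hm0) (congrArg (fun h => h y) hm1')
  · refine LinearMap.ext ?_
    rintro ⟨x, y⟩
    exact Prod.ext (congrArg (fun h => h x) hm1) (congrArg (fun h => h y) hm0')

theorem GSemi.BcAt.cones {T : Type u'} [CommRing T] {σ : R →+* T}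
    {X : GSys.{u, v, w} R Γ S deg} {Y : GSys.{u', v', w'} T Γ S deg} (φ : GSemi σ X Y)
    (U : Γ → Prop) (hU : ∀ b, U b → φ.BcAt b) (l : List S) (a : Γ)
    (ha : AllSub U (l.map deg) a) : (φ.cones l).BcAt a := by
  induction l generalizing X Y U with
  | nil => exact hU a ha
  | cons s l ih =>
    exact ih (φ.cone s) (fun b => U b ∧ U (b - deg s))
      (fun b hb => GSemi.BcAt.cone s (hU b hb.1) (hU _ hb.2)) ha

theorem GSemi.good {T : Type u'} [CommRing T] {σ : R →+* T} {X : GSys.{u, v, w} R Γ S deg}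
    {Y : GSys.{u', v', w'} T Γ S deg} (φ : GSemi σ X Y) (U : Γ → Prop)
    (hU : ∀ b, U b → φ.BcAt b) (a : Γ) (l : List S) (ha : AllSub U (l.map deg) a)
    (h : X.Good a l) : Y.Good a l := by
  obtain ⟨m, -, -⟩ := GSemi.BcAt.cones φ U hU l a ha
  exact m.contractible h

theorem GSemi.D_eq {T : Type u'} [CommRing T] [IsDomain R] [IsDomain T] {σ : R →+* T}
    {X : GSys.{u, v, w} R Γ S deg} {Y : GSys.{u', v', w'} T Γ S deg} (φ : GSemi σ X Y)
    (U : Γ → Prop) (hU : ∀ b, U b → φ.BcAt b) (a : Γ) (l : List S)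
    (ha : AllSub U (l.map deg) a) (h : X.Good a l) : Y.D a l = Sg.map σ (X.D a l) := by
  obtain ⟨m, -, -⟩ := GSemi.BcAt.cones φ U hU l a ha
  exact m.tors_eq h

theorem GSemi.good_of_local {T : Type u'} [CommRing T] {σ : R →+* T}
    {X : GSys.{u, v, w} R Γ S deg} {Y : GSys.{u', v', w'} T Γ S deg} (φ : GSemi σ X Y)
    (hσ : Function.Surjective σ) [IsLocalHom σ] (U : Γ → Prop)
    (hU : ∀ b, U b → φ.BcAt b) (a : Γ) (l : List S) (ha : AllSub U (l.map deg) a)
    (h : Y.Good a l) : X.Good a l := by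
  obtain ⟨m, -, -⟩ := GSemi.BcAt.cones φ U hU l a ha
  exact m.contractible_of_local hσ h

end GSys

end Pool.Agent.Helper88.SSF
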