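import Pool.Agent.helper88.SSF.Local

/-!
Project SSF: graded systems attached to graded modules, in particular to quotients of a graded
algebra by an ideal.
-/

namespace Pool.Agent.Helper88.SSF

open Module

universe u v w x y u' v' w'

namespace PC

variable {R : Type u} [CommRing R]

/-- A module with a finite basis as a complex concentrated in even degree. -/
noncomputable abbrev ofModule {M : Type v} [AddCommGroup M] [Module R M] {I : Type w} [Finite I]
    (b : Basis I R M) : PC.{u, v, w} R where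
  C0 := M
  C1 := PUnit.{v + 1}
  I0 := I
  I1 := PEmpty.{w + 1}
  b0 := b
  b1 := Basis.empty PUnit.{v + 1}
  d0 := 0
  d1 := 0
  dd0 _ := rfl
  dd1 _ := rfl

section

variable {M N P : Type v} [AddCommGroup M] [Module R M] [AddCommGroup N] [Module R N]
  [AddCommGroup P] [Module R P] {I J K : Type w} [Finite I] [Finite J] [Finite K]
  (b : Basis I R M) (c : Basis J R N) (d : Basis K R P)

/-- A linear map as a map of complexes. -/
noncomputable def Hom.ofLin (f : M →ₗ[R] N) : Hom (ofModule b) (ofModule c) where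
  f0 := f
  f1 := 0
  c0 _ := rfl
  c1 _ := (map_zero f).symm

/-- A linear isomorphism as an isomorphism of complexes. -/
noncomputable def Iso.ofEquiv (e : M ≃ₗ[R] N) : Iso (ofModule b) (ofModule c) where
  e0 := e
  e1 := LinearEquiv.refl R _
  c0 _ := rfl
  c1 _ := (map_zero e).symm

theorem Iso.ofEquiv_hom (e : M ≃ₗ[R] N) :
    (Iso.ofEquiv b c e).hom = Hom.ofLin b c (e : M →ₗ[R] N) := by
  refine Hom.ext rfl (LinearMap.ext fun x => ?_)
  rfl

theorem Iso.ofEquiv_ratio (e : M ≃ₗ[R] N) : (Iso.ofEquiv b c e).ratio = (sdet b c e)⁻¹ := by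
  have h : sdet (ofModule b).b1 (ofModule c).b1 (Iso.ofEquiv b c e).e1 = 1 :=
    sdet_of_basis _ _ _ (Equiv.refl _) (fun i => i.elim)
  rw [Iso.ratio, h, one_div]
  rfl

/-- A short exact sequence of modules as a short exact sequence of complexes. -/
noncomputable def SES.ofModule (i : M →ₗ[R] N) (p : N →ₗ[R] P) (hi : Function.Injective i)
    (hpi : ∀ x, p (i x) = 0) (hex : ∀ y, p y = 0 → ∃ x, i x = y) (hp : Function.Surjective p) :
    SES (ofModule b) (ofModule c) (ofModule d) :=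
  SES.ofExact (Hom.ofLin b c i) (Hom.ofLin c d p) hi (fun _ _ _ => rfl) hpi (fun _ => rfl)
    hex (fun _ _ => ⟨PUnit.unit, rfl⟩) hp (fun _ => ⟨PUnit.unit, rfl⟩)

theorem SES.ofModule_i (i : M →ₗ[R] N) (p : N →ₗ[R] P) (hi : Function.Injective i)
    (hpi : ∀ x, p (i x) = 0) (hex : ∀ y, p y = 0 → ∃ x, i x = y) (hp : Function.Surjective p) :
    (SES.ofModule b c d i p hi hpi hex hp).i = Hom.ofLin b c i := rfl

theorem SES.ofModule_p (i : M →ₗ[R] N) (p : N →ₗ[R] P) (hi : Function.Injective i)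
    (hpi : ∀ x, p (i x) = 0) (hex : ∀ y, p y = 0 → ∃ x, i x = y) (hp : Function.Surjective p) :
    (SES.ofModule b c d i p hi hpi hex hp).p = Hom.ofLin c d p := rfl

end

/-- A semilinear map taking a basis to a basis as a base change map. -/
noncomputable def BCMap.ofSemi {T : Type u'} [CommRing T] (σ : R →+* T) {M : Type v}
    [AddCommGroup M] [Module R M] {I : Type w} [Finite I] (b : Basis I R M) {M' : Type v'}
    [AddCommGroup M'] [Module T M'] {I' : Type w'} [Finite I'] (b' : Basis I' T M')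
    (f : M →ₛₗ[σ] M') (j : I ≃ I') (hf : ∀ i, f (b i) = b' (j i)) :
    BCMap σ (ofModule b) (ofModule b') where
  f0 := f
  f1 := 0
  c0 _ := rfl
  c1 _ := (map_zero f).symm
  j0 := j
  j1 := Equiv.equivOfIsEmpty _ _
  hb0 := hf
  hb1 i := i.elim

end PC

set_option linter.checkUnivs false in
/-- A graded module: a module with a family of submodules with finite bases and commuting
endomorphisms which shift the family. -/
structure GrMod (R : Type u) [CommRing R] (Γ : Type x) [AddCommGroup Γ] (S : Type y)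
    (deg : S → Γ) where
  /-- the module -/
  N : Type v
  [acN : AddCommGroup N]
  [moN : Module R N]
  /-- the pieces -/
  P : Γ → Submodule R N
  /-- indices of the bases -/
  I : Γ → Type w
  [finI : ∀ a, Finite (I a)]
  /-- bases of the pieces -/
  b : ∀ a, Basis (I a) R (P a)
  /-- the endomorphisms -/
  act : S → N →ₗ[R] N
  act_mem : ∀ s a x, x ∈ P a → act s x ∈ P (a + deg s)
  act_comm : ∀ s t x, act s (act t x) = act t (act s x)

attribute [instance] GrMod.acN GrMod.moN GrMod.finI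

namespace GrMod

variable {R : Type u} [CommRing R] {Γ : Type x} [AddCommGroup Γ] {S : Type y} {deg : S → Γ}

/-- The action from one piece to another. -/
def map (X : GrMod.{u, v, w} R Γ S deg) (s : S) (a b : Γ) (h : a + deg s = b) :
    X.P a →ₗ[R] X.P b :=
  ((X.act s).comp (X.P a).subtype).codRestrict (X.P b)
    (fun x => h ▸ X.act_mem s a x.1 x.2)

theorem map_coe (X : GrMod.{u, v, w} R Γ S deg) (s : S) (a b : Γ) (h : a + deg s = b)
    (x : X.P a) : (X.map s a b h x : X.N) = X.act s x := rfl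

/-- The graded system of a graded module. -/
noncomputable def sys (X : GrMod.{u, v, w} R Γ S deg) : GSys.{u, v, w} R Γ S deg where
  A a := PC.ofModule (X.b a)
  op s a b h := PC.Hom.ofLin (X.b a) (X.b b) (X.map s a b h)
  comm s t a b c d h1 h2 h3 h4 := by
    refine PC.Hom.ext (LinearMap.ext fun x => Subtype.ext ?_) rfl
    exact X.act_comm t s x

theorem sys_op_f0 (X : GrMod.{u, v, w} R Γ S deg) (s : S) (a b : Γ) (h : a + deg s = b)
    (x : X.P a) : (X.sys.op s a b h).f0 x = X.map s a b h x := rfl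

theorem mulRel (X : GrMod.{u, v, w} R Γ S deg) {s t r : S}
    (h : ∀ x, X.act r x = X.act s (X.act t x)) : X.sys.MulRel s t r := by
  intro a b c h1 h2 h3
  exact PC.Hom.ext (LinearMap.ext fun (x : X.P a) => Subtype.ext (h x.1)) rfl

theorem addRel (X : GrMod.{u, v, w} R Γ S deg) {s' s h t : S}
    (H : ∀ x, X.act s' x = X.act s x + X.act h (X.act t x)) : X.sys.AddRel s' s h t := by
  intro a b c h1 h2 h3 h4
  exact ⟨fun (x : X.P a) => Subtype.ext (H x.1), fun x => rfl⟩

/-- A map of graded modules, of degree `g` (the piece of degree `a - g` is mapped to the piece of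
degree `a`). -/
structure Mor (X Y : GrMod.{u, v, w} R Γ S deg) (g : Γ) where
  /-- the linear map -/
  f : X.N →ₗ[R] Y.N
  mem : ∀ a x, x ∈ X.P (a - g) → f x ∈ Y.P a
  comm : ∀ s x, f (X.act s x) = Y.act s (f x)

/-- The restriction to a piece. -/
def Mor.res {X Y : GrMod.{u, v, w} R Γ S deg} {g : Γ} (φ : Mor X Y g) (a : Γ) :
    X.P (a - g) →ₗ[R] Y.P a :=
  (φ.f.comp (X.P (a - g)).subtype).codRestrict (Y.P a) (fun x => φ.mem a x.1 x.2)

/-- The map of graded systems. -/
noncomputable def Mor.ghom {X Y : GrMod.{u, v, w} R Γ S deg} {g : Γ} (φ : Mor X Y g) :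
    GSys.GHom (X.sys.shift g) Y.sys where
  f a := PC.Hom.ofLin (X.b (a - g)) (Y.b a) (φ.res a)
  nat s a b h := by
    refine PC.Hom.ext (LinearMap.ext fun x => Subtype.ext ?_) rfl
    exact (φ.comm s x.1).symm

/-- A map of graded modules of degree zero. -/
structure Mor0 (X Y : GrMod.{u, v, w} R Γ S deg) where
  /-- the linear map -/
  f : X.N →ₗ[R] Y.N
  mem : ∀ a x, x ∈ X.P a → f x ∈ Y.P a
  comm : ∀ s x, f (X.act s x) = Y.act s (f x)

/-- The restriction to a piece. -/
def Mor0.res {X Y : GrMod.{u, v, w} R Γ S deg} (φ : Mor0 X Y) (a : Γ) :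
    X.P a →ₗ[R] Y.P a :=
  (φ.f.comp (X.P a).subtype).codRestrict (Y.P a) (fun x => φ.mem a x.1 x.2)

/-- The map of graded systems. -/
noncomputable def Mor0.ghom {X Y : GrMod.{u, v, w} R Γ S deg} (φ : Mor0 X Y) :
    GSys.GHom X.sys Y.sys where
  f a := PC.Hom.ofLin (X.b a) (Y.b a) (φ.res a)
  nat s a b h := by
    refine PC.Hom.ext (LinearMap.ext fun x => Subtype.ext ?_) rfl
    exact (φ.comm s x.1).symm

/-- A map of degree zero which is bijective on the piece of degree `a`. -/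
theorem Mor0.isoAt {X Y : GrMod.{u, v, w} R Γ S deg} (φ : Mor0 X Y) (a : Γ)
    (hinj : ∀ x ∈ X.P a, φ.f x = 0 → x = 0) (hsurj : ∀ y ∈ Y.P a, ∃ x ∈ X.P a, φ.f x = y) :
    ∃ r, φ.ghom.IsoAt a r := by
  have hb : Function.Bijective (φ.res a) := by
    constructor
    · rw [← LinearMap.ker_eq_bot, LinearMap.ker_eq_bot']
      intro x hx
      exact Subtype.ext (hinj x.1 x.2 (congrArg Subtype.val hx))
    · intro y
      obtain ⟨x, hx, hxy⟩ := hsurj y.1 y.2
      exact ⟨⟨x, hx⟩, Subtype.ext hxy⟩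
  exact ⟨_, PC.Iso.ofEquiv (X.b a) (Y.b a) (LinearEquiv.ofBijective _ hb),
    PC.Iso.ofEquiv_hom (X.b a) (Y.b a) (LinearEquiv.ofBijective _ hb), rfl⟩

/-- A short exact sequence of graded modules in degree `a`; the first map has degree `g`. -/
theorem sesAt {X Y Z : GrMod.{u, v, w} R Γ S deg} {g : Γ} (i : Mor X Y g) (p : Mor0 Y Z) (a : Γ)
    (hi : ∀ x ∈ X.P (a - g), i.f x = 0 → x = 0) (hpi : ∀ x ∈ X.P (a - g), p.f (i.f x) = 0)
    (hex : ∀ y ∈ Y.P a, p.f y = 0 → ∃ x ∈ X.P (a - g), i.f x = y)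
    (hp : ∀ z ∈ Z.P a, ∃ y ∈ Y.P a, p.f y = z) : ∃ r, GSys.SesAt i.ghom p.ghom a r := by
  refine ⟨_, PC.SES.ofModule (X.b (a - g)) (Y.b a) (Z.b a) (i.res a) (p.res a) ?_ ?_ ?_ ?_,
    rfl, rfl, rfl⟩
  · rw [← LinearMap.ker_eq_bot, LinearMap.ker_eq_bot']
    intro x hx
    exact Subtype.ext (hi x.1 x.2 (congrArg Subtype.val hx))
  · intro x
    exact Subtype.ext (hpi x.1 x.2)
  · intro y hy
    obtain ⟨x, hx, hxy⟩ := hex y.1 y.2 (congrArg Subtype.val hy)
    exact ⟨⟨x, hx⟩, Subtype.ext hxy⟩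
  · intro z
    obtain ⟨y, hy, hyz⟩ := hp z.1 z.2
    exact ⟨⟨y, hy⟩, Subtype.ext hyz⟩

/-- The quotient by a section which acts injectively in degree `a`. -/
theorem nzdAt {Y Z : GrMod.{u, v, w} R Γ S deg} (s : S) (p : Mor0 Y Z) (a : Γ)
    (hi : ∀ x ∈ Y.P (a - deg s), Y.act s x = 0 → x = 0)
    (hpi : ∀ x ∈ Y.P (a - deg s), p.f (Y.act s x) = 0)
    (hex : ∀ y ∈ Y.P a, p.f y = 0 → ∃ x ∈ Y.P (a - deg s), Y.act s x = y)
    (hp : ∀ z ∈ Z.P a, ∃ y ∈ Y.P a, p.f y = z) : ∃ r, GSys.NzdAt p.ghom s a r := by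
  refine ⟨_, PC.SES.ofModule (Y.b (a - deg s)) (Y.b a) (Z.b a)
    (Y.map s (a - deg s) a (sub_add_cancel _ _)) (p.res a) ?_ ?_ ?_ ?_, rfl, rfl, rfl⟩
  · rw [← LinearMap.ker_eq_bot, LinearMap.ker_eq_bot']
    intro x hx
    exact Subtype.ext (hi x.1 x.2 (congrArg Subtype.val hx))
  · intro x
    exact Subtype.ext (hpi x.1 x.2)
  · intro y hy
    obtain ⟨x, hx, hxy⟩ := hex y.1 y.2 (congrArg Subtype.val hy)
    exact ⟨⟨x, hx⟩, Subtype.ext hxy⟩
  · intro z
    obtain ⟨y, hy, hyz⟩ := hp z.1 z.2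
    exact ⟨⟨y, hy⟩, Subtype.ext hyz⟩

/-- The hypothesis of `NzdAt.good_iff`: the quotient map kills the image of `s`. -/
theorem kills {Y Z : GrMod.{u, v, w} R Γ S deg} (s : S) (p : Mor0 Y Z)
    (h : ∀ x, p.f (Y.act s x) = 0) (a b : Γ) (hab : a + deg s = b) :
    (∀ x, (p.ghom.f b).f0 ((Y.sys.op s a b hab).f0 x) = 0) ∧
      (∀ x, (p.ghom.f b).f1 ((Y.sys.op s a b hab).f1 x) = 0) :=
  ⟨fun x => Subtype.ext (h x.1), fun _ => rfl⟩

/-- A semilinear map of graded modules. -/
structure Semi {T : Type u'} [CommRing T] (σ : R →+* T) (X : GrMod.{u, v, w} R Γ S deg)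
    (Y : GrMod.{u', v', w'} T Γ S deg) where
  /-- the semilinear map -/
  f : X.N →ₛₗ[σ] Y.N
  mem : ∀ a x, x ∈ X.P a → f x ∈ Y.P a
  comm : ∀ s x, f (X.act s x) = Y.act s (f x)

/-- The restriction to a piece. -/
def Semi.res {T : Type u'} [CommRing T] {σ : R →+* T} {X : GrMod.{u, v, w} R Γ S deg}
    {Y : GrMod.{u', v', w'} T Γ S deg} (φ : Semi σ X Y) (a : Γ) : X.P a →ₛₗ[σ] Y.P a where
  toFun x := ⟨φ.f x, φ.mem a x.1 x.2⟩
  map_add' x y := Subtype.ext (map_add φ.f x.1 y.1)
  map_smul' c x := Subtype.ext (map_smulₛₗ φ.f c x.1)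

/-- The semilinear map of graded systems. -/
noncomputable def Semi.gsemi {T : Type u'} [CommRing T] {σ : R →+* T}
    {X : GrMod.{u, v, w} R Γ S deg} {Y : GrMod.{u', v', w'} T Γ S deg} (φ : Semi σ X Y) :
    GSys.GSemi σ X.sys Y.sys where
  f0 a := φ.res a
  f1 _ := 0
  nat0 s _ _ _ x := Subtype.ext (φ.comm s x.1).symm
  nat1 _ _ _ _ _ := rfl

/-- The semilinear map is a base change map in degree `a` if it takes the basis to a basis. -/
theorem Semi.bcAt {T : Type u'} [CommRing T] {σ : R →+* T}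
    {X : GrMod.{u, v, w} R Γ S deg} {Y : GrMod.{u', v', w'} T Γ S deg} (φ : Semi σ X Y) (a : Γ)
    (j : X.I a ≃ Y.I a) (hj : ∀ i, φ.f (X.b a i) = Y.b a (j i)) : φ.gsemi.BcAt a :=
  ⟨PC.BCMap.ofSemi σ (X.b a) (Y.b a) (φ.res a) j (fun i => Subtype.ext (hj i)), rfl, rfl⟩

/-- Change the bases of the pieces. -/
abbrev withBases (X : GrMod.{u, v, w} R Γ S deg) (I' : Γ → Type w') [∀ a, Finite (I' a)]
    (b' : ∀ a, Basis (I' a) R (X.P a)) : GrMod.{u, v, w'} R Γ S deg where
  N := X.N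
  P := X.P
  I := I'
  b := b'
  act := X.act
  act_mem := X.act_mem
  act_comm := X.act_comm

/-- The same module with other bases: the torsion changes by the iterated difference of a
function on `Γ`. -/
theorem isoRatio_withBases (X : GrMod.{u, v, w} R Γ S deg) (I' : Γ → Type w)
    [∀ a, Finite (I' a)] (b' : ∀ a, Basis (I' a) R (X.P a)) :
    GSys.IsoRatio X.sys (X.withBases I' b').sys
      (fun a => (sdet (X.b a) (b' a) (LinearEquiv.refl R (X.P a)))⁻¹) := by
  refine ⟨⟨fun a => PC.Iso.ofEquiv (X.b a) (b' a) (LinearEquiv.refl R (X.P a)), ?_⟩, ?_⟩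
  · intro s a b h
    rfl
  · funext a
    exact PC.Iso.ofEquiv_ratio _ _ _

end GrMod

namespace GSys

variable {R : Type u} [CommRing R] {Γ : Type x} [AddCommGroup Γ] {S : Type y} {deg : S → Γ}

/-- A choice of ratios for all degrees in which the sequence is exact. -/
theorem exists_ratio_ses {X Y Z : GSys.{u, v, w} R Γ S deg} (i : GHom X Y) (p : GHom Y Z) :
    ∃ ρ : Γ → Sg R, ∀ a, (∃ r, SesAt i p a r) → SesAt i p a (ρ a) := by
  classical
  refine ⟨fun a => if h : ∃ r, SesAt i p a r then h.choose else 1, fun a h => ?_⟩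
  simp only [dif_pos h]
  exact h.choose_spec

theorem exists_ratio_nzd {X Y : GSys.{u, v, w} R Γ S deg} (p : GHom X Y) (s : S) :
    ∃ ρ : Γ → Sg R, ∀ a, (∃ r, NzdAt p s a r) → NzdAt p s a (ρ a) := by
  classical
  refine ⟨fun a => if h : ∃ r, NzdAt p s a r then h.choose else 1, fun a h => ?_⟩
  simp only [dif_pos h]
  exact h.choose_spec

theorem exists_ratio_iso {X Y : GSys.{u, v, w} R Γ S deg} (φ : GHom X Y) :
    ∃ ρ : Γ → Sg R, ∀ a, (∃ r, φ.IsoAt a r) → φ.IsoAt a (ρ a) := by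
  classical
  refine ⟨fun a => if h : ∃ r, φ.IsoAt a r then h.choose else 1, fun a h => ?_⟩
  simp only [dif_pos h]
  exact h.choose_spec

end GSys

/-! ### quotients of a graded algebra -/

section quot

variable (k : Type u) [CommRing k] {Γ : Type x} [AddCommGroup Γ] [DecidableEq Γ]
  {A : Type v} [CommRing A] [Algebra k A] (gA : Γ → Submodule k A) [GradedAlgebra gA]

/-- Homogeneous elements with their degrees: a commutative monoid. -/
abbrev HEl : Type (max x v) := GradedMonoid (fun γ => gA γ)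

variable {k}

/-- The degree of a homogeneous element. -/
def hdeg (s : HEl k gA) : Γ := s.fst

theorem hdeg_mul (s t : HEl k gA) : hdeg gA (s * t) = hdeg gA s + hdeg gA t := rfl

/-- The underlying element. -/
def hval (s : HEl k gA) : A := (s.snd : A)

theorem hval_mul (s t : HEl k gA) : hval gA (s * t) = hval gA s * hval gA t := rfl

omit [AddCommGroup Γ] [DecidableEq Γ] [GradedAlgebra gA] in
theorem hval_mem (s : HEl k gA) : hval gA s ∈ gA (hdeg gA s) := s.snd.2

/-- A homogeneous element with given degree. -/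
def hmk {γ : Γ} (x : A) (hx : x ∈ gA γ) : HEl k gA := GradedMonoid.mk γ ⟨x, hx⟩

omit [AddCommGroup Γ] [DecidableEq Γ] [GradedAlgebra gA] in
theorem hdeg_hmk {γ : Γ} (x : A) (hx : x ∈ gA γ) : hdeg gA (hmk gA x hx) = γ := rfl

omit [AddCommGroup Γ] [DecidableEq Γ] [GradedAlgebra gA] in
theorem hval_hmk {γ : Γ} (x : A) (hx : x ∈ gA γ) : hval gA (hmk gA x hx) = x := rfl

/-- The pieces of the quotient by an ideal. -/
def qpiece (J : Ideal A) (γ : Γ) : Submodule k (A ⧸ J) :=
  (gA γ).map (Ideal.Quotient.mkₐ k J).toLinearMap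

omit [AddCommGroup Γ] [DecidableEq Γ] [GradedAlgebra gA] in
theorem mem_qpiece (J : Ideal A) (γ : Γ) (x : A ⧸ J) :
    x ∈ qpiece gA J γ ↔ ∃ y ∈ gA γ, Ideal.Quotient.mk J y = x := Iff.rfl

/-- Multiplication by a homogeneous element on the quotient. -/
def qact (J : Ideal A) (s : HEl k gA) : (A ⧸ J) →ₗ[k] (A ⧸ J) :=
  LinearMap.mulLeft k (Ideal.Quotient.mk J (hval gA s))

omit [AddCommGroup Γ] [DecidableEq Γ] [GradedAlgebra gA] in
theorem qact_apply (J : Ideal A) (s : HEl k gA) (x : A ⧸ J) :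
    qact gA J s x = Ideal.Quotient.mk J (hval gA s) * x := rfl

/-- The graded module `A / J`, with given bases of the pieces. -/
def quot (J : Ideal A) (I : Γ → Type w) [∀ a, Finite (I a)]
    (b : ∀ a, Basis (I a) k (qpiece gA J a)) : GrMod.{u, v, w} k Γ (HEl k gA) (hdeg gA) where
  N := A ⧸ J
  P := qpiece gA J
  I := I
  b := b
  act := qact gA J
  act_mem s a x hx := by
    obtain ⟨y, hy, rfl⟩ := hx
    refine ⟨hval gA s * y, ?_, ?_⟩
    · rw [add_comm]
      exact SetLike.mul_mem_graded (hval_mem gA s) hy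
    · exact map_mul (Ideal.Quotient.mk J) _ _
  act_comm s t x := by
    rw [qact_apply, qact_apply, qact_apply, qact_apply, mul_left_comm]

theorem quot_mulRel (J : Ideal A) (I : Γ → Type w) [∀ a, Finite (I a)]
    (b : ∀ a, Basis (I a) k (qpiece gA J a)) (s t : HEl k gA) :
    (quot gA J I b).sys.MulRel s t (s * t) := by
  apply GrMod.mulRel
  intro (x : A ⧸ J)
  change Ideal.Quotient.mk J (hval gA s * hval gA t) * x =
    Ideal.Quotient.mk J (hval gA s) * (Ideal.Quotient.mk J (hval gA t) * x)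
  rw [map_mul, mul_assoc]

theorem quot_addRel (J : Ideal A) (I : Γ → Type w) [∀ a, Finite (I a)]
    (b : ∀ a, Basis (I a) k (qpiece gA J a)) (s' s h t : HEl k gA)
    (H : hval gA s' = hval gA s + hval gA h * hval gA t) :
    (quot gA J I b).sys.AddRel s' s h t := by
  apply GrMod.addRel
  intro (x : A ⧸ J)
  change Ideal.Quotient.mk J (hval gA s') * x = Ideal.Quotient.mk J (hval gA s) * x +
    Ideal.Quotient.mk J (hval gA h) * (Ideal.Quotient.mk J (hval gA t) * x)
  rw [H, map_add, map_mul, add_mul, mul_assoc]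

end quot

end Pool.Agent.Helper88.SSF
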