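import Pool.Agent.helper88.SSF.Comap

/-!
Project SSF: the cone of an operator which acts injectively, compared with the quotient.
-/

namespace Pool.Agent.Helper88.SSF

open Module

universe u v w x y

namespace PC

variable {R : Type u} [CommRing R]

namespace SES

variable {A B C : PC.{u, v, w} R} (E : SES A B C)

/-- The short exact sequence `cone (id A) → cone (A → B) → C`. -/
noncomputable def nzd : SES (PC.cone (Hom.id A)) (PC.cone E.i) C where
  i := coneMap (Hom.id A) E.i (Hom.id A) E.i rfl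
  p := ⟨E.p.f0.comp (LinearMap.fst R _ _), E.p.f1.comp (LinearMap.fst R _ _), by
      rintro ⟨b, a⟩
      change C.d0 (E.p.f0 b) = E.p.f1 (B.d0 b + E.i.f1 a)
      rw [map_add, E.pi1, add_zero, E.p.c0], by
      rintro ⟨b, a⟩
      change C.d1 (E.p.f1 b) = E.p.f0 (B.d1 b + E.i.f0 a)
      rw [map_add, E.pi0, add_zero, E.p.c1]⟩
  q0 := LinearMap.prod E.q0 0
  q1 := LinearMap.prod E.q1 0
  i0_inj := by
    rintro ⟨x, y⟩ ⟨x', y'⟩ h
    exact Prod.ext (E.i0_inj (Prod.ext_iff.1 h).1) (Prod.ext_iff.1 h).2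
  i1_inj := by
    rintro ⟨x, y⟩ ⟨x', y'⟩ h
    exact Prod.ext (E.i1_inj (Prod.ext_iff.1 h).1) (Prod.ext_iff.1 h).2
  pi0 := by
    rintro ⟨x, y⟩
    exact E.pi0 x
  pi1 := by
    rintro ⟨x, y⟩
    exact E.pi1 x
  ex0 := by
    rintro ⟨x, y⟩ h
    obtain ⟨x', hx⟩ := E.ex0 x h
    exact ⟨(x', y), Prod.ext hx rfl⟩
  ex1 := by
    rintro ⟨x, y⟩ h
    obtain ⟨x', hx⟩ := E.ex1 x h
    exact ⟨(x', y), Prod.ext hx rfl⟩
  pq0 := E.pq0
  pq1 := E.pq1

/-- A linear isomorphism `((M × N) × P) → (M × P) × N`. -/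
def rot {R M N P : Type*} [CommRing R] [AddCommGroup M] [AddCommGroup N] [AddCommGroup P]
    [Module R M] [Module R N] [Module R P] : ((M × N) × P) ≃ₗ[R] ((M × P) × N) where
  toFun x := ((x.1.1, x.2), x.1.2)
  invFun x := ((x.1.1, x.2), x.1.2)
  map_add' _ _ := rfl
  map_smul' _ _ := rfl
  left_inv _ := rfl
  right_inv _ := rfl

theorem sdet_rot {R M N P I J K : Type*} [CommRing R] [AddCommGroup M] [AddCommGroup N]
    [AddCommGroup P] [Module R M] [Module R N] [Module R P] [Finite I] [Finite J] [Finite K]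
    (b : Basis I R M) (c : Basis J R N) (d : Basis K R P) :
    sdet ((b.prod c).prod d) ((b.prod d).prod c) rot = 1 := by
  let e : (I ⊕ J) ⊕ K ≃ (I ⊕ K) ⊕ J :=
    { toFun := fun x => match x with
        | Sum.inl (Sum.inl i) => Sum.inl (Sum.inl i)
        | Sum.inl (Sum.inr i) => Sum.inr i
        | Sum.inr i => Sum.inl (Sum.inr i)
      invFun := fun x => match x with
        | Sum.inl (Sum.inl i) => Sum.inl (Sum.inl i)
        | Sum.inl (Sum.inr i) => Sum.inr i
        | Sum.inr i => Sum.inl (Sum.inr i)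
      left_inv := by rintro ((i | i) | i) <;> rfl
      right_inv := by rintro ((i | i) | i) <;> rfl }
  refine sdet_of_basis _ _ _ e ?_
  rintro ((i | i) | i) <;> simp [Basis.prod_apply, e, rot]

theorem nzd_ratio : E.nzd.ratio = E.ratio := by
  have e0 : sdet ((PC.cone (Hom.id A)).b0.prod C.b0) (PC.cone E.i).b0 E.nzd.E0 =
      sdet (A.b0.prod C.b0) B.b0 E.E0 := by
    have hE : E.nzd.E0 = rot.trans (E.E0.prodCongr (LinearEquiv.refl R A.C1)) := by
      refine LinearEquiv.ext ?_
      rintro ⟨⟨x, y⟩, z⟩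
      change (E.i.f0 x, y) + (E.q0 z, 0) = (E.i.f0 x + E.q0 z, y)
      rw [Prod.mk_add_mk, add_zero]
    rw [hE, sdet_trans _ ((A.b0.prod C.b0).prod A.b1) _, sdet_prod, sdet_refl]
    have : sdet ((PC.cone (Hom.id A)).b0.prod C.b0) ((A.b0.prod C.b0).prod A.b1) rot = 1 :=
      sdet_rot _ _ _
    rw [this, one_mul, mul_one]
  have e1 : sdet ((PC.cone (Hom.id A)).b1.prod C.b1) (PC.cone E.i).b1 E.nzd.E1 =
      sdet (A.b1.prod C.b1) B.b1 E.E1 := by
    have hE : E.nzd.E1 = rot.trans (E.E1.prodCongr (LinearEquiv.refl R A.C0)) := by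
      refine LinearEquiv.ext ?_
      rintro ⟨⟨x, y⟩, z⟩
      change (E.i.f1 x, y) + (E.q1 z, 0) = (E.i.f1 x + E.q1 z, y)
      rw [Prod.mk_add_mk, add_zero]
    rw [hE, sdet_trans _ ((A.b1.prod C.b1).prod A.b0) _, sdet_prod, sdet_refl]
    have : sdet ((PC.cone (Hom.id A)).b1.prod C.b1) ((A.b1.prod C.b1).prod A.b0) rot = 1 :=
      sdet_rot _ _ _
    rw [this, one_mul, mul_one]
  rw [ratio, e0, e1, ratio]

end SES

end PC

namespace GSys

variable {R : Type u} [CommRing R] {Γ : Type x} [AddCommGroup Γ] {S : Type y} {deg : S → Γ}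

/-- The system shifted by `g`: degree `a` is the old degree `a - g`. -/
def shift (X : GSys.{u, v, w} R Γ S deg) (g : Γ) : GSys.{u, v, w} R Γ S deg :=
  X.comap (fun a => a - g) id (fun a s => by
    change a + deg s - g = a - g + deg s
    abel)

theorem shift_good (X : GSys.{u, v, w} R Γ S deg) (g a : Γ) (l : List S) :
    (X.shift g).Good a l ↔ X.Good (a - g) l := by
  rw [shift, comap_good, List.map_id]

theorem shift_D [IsDomain R] (X : GSys.{u, v, w} R Γ S deg) (g a : Γ) (l : List S)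
    (hg : X.Good (a - g) l) : (X.shift g).D a l = X.D (a - g) l := by
  rw [shift, comap_D, List.map_id]
  rw [List.map_id]
  exact hg

/-- The operator `s` acts injectively on `X`, with quotient `Y`. -/
structure NZD (X : GSys.{u, v, w} R Γ S deg) (s : S) (Y : GSys.{u, v, w} R Γ S deg) where
  /-- the short exact sequence -/
  E : ∀ a, PC.SES (X.A (a - deg s)) (X.A a) (Y.A a)
  hi : ∀ a, (E a).i = X.op s (a - deg s) a (sub_add_cancel _ _)
  natp : ∀ (t : S) (a b : Γ) (h : a + deg t = b),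
    (Y.op t a b h).comp (E a).p = (E b).p.comp (X.op t a b h)

/-- The ratio of the bases. -/
noncomputable def NZD.ratio {X Y : GSys.{u, v, w} R Γ S deg} {s : S} (φ : NZD X s Y) :
    Γ → Sg R := fun a => (φ.E a).ratio

/-- Replace the inclusion by an equal map. -/
def _root_.Pool.Agent.Helper88.SSF.PC.SES.replace {A B C : PC.{u, v, w} R} (E : PC.SES A B C)
    (i : PC.Hom A B) (hi : E.i = i) : PC.SES A B C where
  i := i
  p := E.p
  q0 := E.q0
  q1 := E.q1
  i0_inj := hi ▸ E.i0_inj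
  i1_inj := hi ▸ E.i1_inj
  pi0 := hi ▸ E.pi0
  pi1 := hi ▸ E.pi1
  ex0 := hi ▸ E.ex0
  ex1 := hi ▸ E.ex1
  pq0 := E.pq0
  pq1 := E.pq1

theorem _root_.Pool.Agent.Helper88.SSF.PC.SES.replace_ratio {A B C : PC.{u, v, w} R}
    (E : PC.SES A B C) (i : PC.Hom A B) (hi : E.i = i) : (E.replace i hi).ratio = E.ratio := by
  subst hi
  rfl

/-- The short exact sequence comparing the cone with the quotient. -/
noncomputable def NZD.gses {X Y : GSys.{u, v, w} R Γ S deg} {s : S} (φ : NZD X s Y) :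
    GSES ((X.shift (deg s)).coneOne) (X.cone s) Y where
  E a := ((φ.E a).replace _ (φ.hi a)).nzd
  nati t a b h := by
    have e1 := X.comm t s (a - deg s) (b - deg s) a b (by rw [← h]; abel) (sub_add_cancel _ _)
      (sub_add_cancel _ _) h
    refine PC.Hom.ext (LinearMap.ext ?_) (LinearMap.ext ?_)
    · rintro ⟨x, y⟩
      exact Prod.ext (congrArg (fun h => h.f0 x) e1).symm rfl
    · rintro ⟨x, y⟩
      exact Prod.ext (congrArg (fun h => h.f1 x) e1).symm rfl
  natp t a b h := by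
    have e1 := φ.natp t a b h
    refine PC.Hom.ext (LinearMap.ext ?_) (LinearMap.ext ?_)
    · rintro ⟨x, y⟩
      exact congrArg (fun h => h.f0 x) e1
    · rintro ⟨x, y⟩
      exact congrArg (fun h => h.f1 x) e1

theorem NZD.exactRatio {X Y : GSys.{u, v, w} R Γ S deg} {s : S} (φ : NZD X s Y) :
    ExactRatio ((X.shift (deg s)).coneOne) (X.cone s) Y φ.ratio := by
  refine ⟨φ.gses, ?_⟩
  funext a
  exact (PC.SES.nzd_ratio _).trans (PC.SES.replace_ratio _ _ _)

/-- (R7) contractibility. -/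
theorem NZD.good_iff {X Y : GSys.{u, v, w} R Γ S deg} {s : S} (φ : NZD X s Y) (a : Γ)
    (l : List S) : X.Good a (s :: l) ↔ Y.Good a l := by
  constructor
  · intro h
    exact φ.exactRatio.good_right a l (coneOne_good _ a l) h
  · intro h
    exact φ.exactRatio.good_mid a l (coneOne_good _ a l) h

/-- (R7) The torsion of the Koszul complex on `X` with a section `s` acting injectively is the
torsion on the quotient, up to the change of bases. -/
theorem NZD.D_eq [IsDomain R] {X Y : GSys.{u, v, w} R Γ S deg} {s : S} (φ : NZD X s Y) (a : Γ)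
    (l : List S) (h : Y.Good a l) :
    X.D a (s :: l) = Y.D a l * diffs (l.map deg) φ.ratio a := by
  have h1 := φ.exactRatio.D_eq a l (coneOne_good _ a l) h
  rw [coneOne_D, one_mul] at h1
  exact h1

end GSys

end Pool.Agent.Helper88.SSF
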