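import Pool.Agent.helper88.SSF.Sdet

/-!
Project SSF: two-periodic complexes of free modules of finite rank with bases, contractions,
torsion up to sign.
-/

namespace Pool.Agent.Helper88.SSF

open Module

universe u v w

set_option linter.checkUnivs false in
/-- A two-periodic complex of based free modules of finite rank over `R`. -/
structure PC (R : Type u) [CommRing R] where
  /-- even part -/
  C0 : Type v
  /-- odd part -/
  C1 : Type v
  [ac0 : AddCommGroup C0]
  [ac1 : AddCommGroup C1]
  [mo0 : Module R C0]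
  [mo1 : Module R C1]
  /-- index of the even basis -/
  I0 : Type w
  /-- index of the odd basis -/
  I1 : Type w
  [fi0 : Finite I0]
  [fi1 : Finite I1]
  /-- even basis -/
  b0 : Basis I0 R C0
  /-- odd basis -/
  b1 : Basis I1 R C1
  /-- differential on the even part -/
  d0 : C0 →ₗ[R] C1
  /-- differential on the odd part -/
  d1 : C1 →ₗ[R] C0
  dd0 : ∀ x, d1 (d0 x) = 0
  dd1 : ∀ y, d0 (d1 y) = 0

attribute [instance] PC.ac0 PC.ac1 PC.mo0 PC.mo1 PC.fi0 PC.fi1

namespace PC

variable {R : Type u} [CommRing R]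

/-- A contraction of square zero. -/
structure Contr (A : PC.{u, v, w} R) where
  /-- even part -/
  k0 : A.C0 →ₗ[R] A.C1
  /-- odd part -/
  k1 : A.C1 →ₗ[R] A.C0
  h0 : ∀ x, A.d1 (k0 x) + k1 (A.d0 x) = x
  h1 : ∀ y, A.d0 (k1 y) + k0 (A.d1 y) = y
  kk0 : ∀ x, k1 (k0 x) = 0
  kk1 : ∀ y, k0 (k1 y) = 0

namespace Contr

variable {A : PC.{u, v, w} R}

/-- A contraction without the condition on the square can be made of square zero. -/
def ofWeak (A : PC.{u, v, w} R) (k0 : A.C0 →ₗ[R] A.C1) (k1 : A.C1 →ₗ[R] A.C0)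
    (h0 : ∀ x, A.d1 (k0 x) + k1 (A.d0 x) = x) (h1 : ∀ y, A.d0 (k1 y) + k0 (A.d1 y) = y) :
    Contr A where
  k0 := k0.comp (A.d1.comp k0)
  k1 := k1.comp (A.d0.comp k1)
  h0 := by
    have e1 : ∀ y, A.d1 (k0 (A.d1 y)) = A.d1 y := by
      intro y
      have := h0 (A.d1 y)
      rwa [A.dd1, map_zero, add_zero] at this
    have e0 : ∀ x, A.d0 (k1 (A.d0 x)) = A.d0 x := by
      intro x
      have := h1 (A.d0 x)
      rwa [A.dd0, map_zero, add_zero] at this
    intro x
    simp only [LinearMap.comp_apply, e1, e0, h0]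
  h1 := by
    have e1 : ∀ y, A.d1 (k0 (A.d1 y)) = A.d1 y := by
      intro y
      have := h0 (A.d1 y)
      rwa [A.dd1, map_zero, add_zero] at this
    have e0 : ∀ x, A.d0 (k1 (A.d0 x)) = A.d0 x := by
      intro x
      have := h1 (A.d0 x)
      rwa [A.dd0, map_zero, add_zero] at this
    intro y
    simp only [LinearMap.comp_apply, e1, e0, h1]
  kk0 := by
    intro x
    have e1 : ∀ y, A.d1 (k0 (A.d1 y)) = A.d1 y := by
      intro y
      have := h0 (A.d1 y)
      rwa [A.dd1, map_zero, add_zero] at this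
    have e2 : A.d0 (k1 (k0 (A.d1 (k0 x)))) = 0 := by
      have := h1 (k0 (A.d1 (k0 x)))
      rw [e1] at this
      exact add_eq_right.1 this
    simp only [LinearMap.comp_apply, e2, map_zero]
  kk1 := by
    intro y
    have e0 : ∀ x, A.d0 (k1 (A.d0 x)) = A.d0 x := by
      intro x
      have := h1 (A.d0 x)
      rwa [A.dd0, map_zero, add_zero] at this
    have e2 : A.d1 (k0 (k1 (A.d0 (k1 y)))) = 0 := by
      have := h0 (k1 (A.d0 (k1 y)))
      rw [e0] at this
      exact add_eq_right.1 this
    simp only [LinearMap.comp_apply, e2, map_zero]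

variable (k k' : Contr A)

theorem dkd1 (y : A.C1) : A.d1 (k.k0 (A.d1 y)) = A.d1 y := by
  have := k.h0 (A.d1 y)
  rwa [A.dd1, map_zero, add_zero] at this

theorem dkd0 (x : A.C0) : A.d0 (k.k1 (A.d0 x)) = A.d0 x := by
  have := k.h1 (A.d0 x)
  rwa [A.dd0, map_zero, add_zero] at this

theorem kdk0 (x : A.C0) : k.k0 (A.d1 (k.k0 x)) = k.k0 x := by
  have := k.h1 (k.k0 x)
  rwa [k.kk0, map_zero, zero_add] at this

theorem kdk1 (y : A.C1) : k.k1 (A.d0 (k.k1 y)) = k.k1 y := by
  have := k.h0 (k.k1 y)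
  rwa [k.kk1, map_zero, zero_add] at this

/-- The isomorphism `d + k`. -/
def D : A.C0 ≃ₗ[R] A.C1 :=
  LinearEquiv.ofLinearMap (A.d0 + k.k0) (A.d1 + k.k1)
    (by
      ext y
      have := k.h1 y
      simp only [LinearMap.comp_apply, LinearMap.add_apply, map_add, A.dd1, k.kk1, zero_add,
        add_zero, LinearMap.id_apply]
      exact (add_comm _ _).trans this)
    (by
      ext x
      have := k.h0 x
      simp only [LinearMap.comp_apply, LinearMap.add_apply, map_add, A.dd0, k.kk0, zero_add,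
        add_zero, LinearMap.id_apply]
      exact (add_comm _ _).trans this)

theorem D_apply (x : A.C0) : k.D x = A.d0 x + k.k0 x := rfl

theorem D_symm_apply (y : A.C1) : k.D.symm y = A.d1 y + k.k1 y := rfl

/-- The torsion computed with the contraction `k`. -/
noncomputable def tors : Sg R := sdet A.b0 A.b1 k.D

/-- The mixed contraction. -/
def mix : Contr A where
  k0 := k'.k0.comp (A.d1.comp k.k0)
  k1 := k.k1.comp (A.d0.comp k'.k1)
  h0 := by
    intro x
    simp only [LinearMap.comp_apply, k'.dkd1, k'.dkd0]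
    exact k.h0 x
  h1 := by
    intro y
    simp only [LinearMap.comp_apply, k.dkd1, k.dkd0]
    exact k'.h1 y
  kk0 := by
    intro x
    simp only [LinearMap.comp_apply, k'.kk0, map_zero]
  kk1 := by
    intro y
    simp only [LinearMap.comp_apply, k.kk1, map_zero]

theorem mix_k0 (x : A.C0) : (mix k k').k0 x = k'.k0 (A.d1 (k.k0 x)) := rfl

theorem tors_mix_left [IsDomain R] : k.tors = (mix k k').tors := by
  apply sdet_add_nilpotent
  intro x
  have hT : ∀ x, k.D.symm ((mix k k').D x) - x = k.k1 (k'.k0 (A.d1 (k.k0 x))) := by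
    intro x
    rw [D_symm_apply, D_apply, mix_k0, map_add, map_add, A.dd0, k'.dkd1, zero_add]
    have := k.h0 x
    conv_lhs => rw [← this]
    conv_lhs => lhs; rw [this]
    have h2 : A.d1 (k.k0 x) + (k.k1 (A.d0 x) + k.k1 (k'.k0 (A.d1 (k.k0 x)))) -
        (A.d1 (k.k0 x) + k.k1 (A.d0 x)) = k.k1 (k'.k0 (A.d1 (k.k0 x))) := by abel
    exact h2
  have h3 := hT (k.D.symm ((mix k k').D x) - x)
  rw [sub_eq_iff_eq_add] at h3
  rw [h3]
  have h4 : k.k0 (k.D.symm ((mix k k').D x) - x) = 0 := by rw [hT, k.kk1]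
  rw [h4, map_zero, map_zero, map_zero, zero_add]

theorem tors_mix_right [IsDomain R] : k'.tors = (mix k k').tors := by
  apply sdet_add_nilpotent
  intro x
  have hT : ∀ x, k'.D.symm ((mix k k').D x) - x = -A.d1 (k'.k0 (k.k1 (A.d0 x))) := by
    intro x
    rw [D_symm_apply, D_apply, mix_k0, map_add, map_add, A.dd0, k'.dkd1, zero_add, k'.kk0,
      add_zero]
    have h5 : A.d1 (k'.k0 x) = A.d1 (k'.k0 (A.d1 (k.k0 x))) + A.d1 (k'.k0 (k.k1 (A.d0 x))) := by
      rw [← map_add, ← map_add, k.h0]
    rw [k'.dkd1] at h5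
    have h6 := k'.h0 x
    rw [h5] at h6
    have h7 : ∀ P Q S x : A.C0, P + Q + S = x → P + S - x = -Q := by
      intro P Q S x h
      rw [← h]
      abel
    exact h7 _ _ _ _ h6
  have h3 := hT (k'.D.symm ((mix k k').D x) - x)
  rw [sub_eq_iff_eq_add] at h3
  rw [h3]
  have h4 : A.d0 (k'.D.symm ((mix k k').D x) - x) = 0 := by rw [hT, map_neg, A.dd1, neg_zero]
  rw [h4, map_zero, map_zero, map_zero, neg_zero, zero_add]

/-- The torsion does not depend on the contraction. -/
theorem tors_eq [IsDomain R] : k.tors = k'.tors :=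
  (tors_mix_left k k').trans (tors_mix_right k k').symm

end Contr

/-- A complex is contractible if it has a contraction. -/
def Contractible (A : PC.{u, v, w} R) : Prop := Nonempty (Contr A)

open Classical in
/-- The torsion of a complex, up to sign (one if the complex is not contractible). -/
noncomputable def tors (A : PC.{u, v, w} R) : Sg R :=
  if h : Nonempty (Contr A) then h.some.tors else 1

theorem tors_eq [IsDomain R] {A : PC.{u, v, w} R} (k : Contr A) : tors A = k.tors := by
  have h : Nonempty (Contr A) := ⟨k⟩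
  rw [tors, dif_pos h]
  exact Contr.tors_eq _ _

end PC

end Pool.Agent.Helper88.SSF
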