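import Pool.Agent.helper88.SSF.GSys

/-!
Project SSF: short exact sequences.
-/

namespace Pool.Agent.Helper88.SSF

open Module

universe u v w x y

namespace PC

variable {R : Type u} [CommRing R]

/-- A short exact sequence of two-periodic complexes with linear splittings. -/
structure SES (A B C : PC.{u, v, w} R) where
  /-- the inclusion -/
  i : Hom A B
  /-- the projection -/
  p : Hom B C
  /-- a linear section of the even part of the projection -/
  q0 : C.C0 →ₗ[R] B.C0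
  /-- a linear section of the odd part of the projection -/
  q1 : C.C1 →ₗ[R] B.C1
  i0_inj : Function.Injective i.f0
  i1_inj : Function.Injective i.f1
  pi0 : ∀ x, p.f0 (i.f0 x) = 0
  pi1 : ∀ x, p.f1 (i.f1 x) = 0
  ex0 : ∀ y, p.f0 y = 0 → ∃ x, i.f0 x = y
  ex1 : ∀ y, p.f1 y = 0 → ∃ x, i.f1 x = y
  pq0 : ∀ z, p.f0 (q0 z) = z
  pq1 : ∀ z, p.f1 (q1 z) = z

namespace SES

/-- A short exact sequence from exactness only. -/
noncomputable def ofExact {A B C : PC.{u, v, w} R} (i : Hom A B) (p : Hom B C)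
    (i0_inj : Function.Injective i.f0) (i1_inj : Function.Injective i.f1)
    (pi0 : ∀ x, p.f0 (i.f0 x) = 0) (pi1 : ∀ x, p.f1 (i.f1 x) = 0)
    (ex0 : ∀ y, p.f0 y = 0 → ∃ x, i.f0 x = y) (ex1 : ∀ y, p.f1 y = 0 → ∃ x, i.f1 x = y)
    (p0_surj : Function.Surjective p.f0) (p1_surj : Function.Surjective p.f1) : SES A B C where
  i := i
  p := p
  q0 := C.b0.constr R (fun j => (p0_surj (C.b0 j)).choose)
  q1 := C.b1.constr R (fun j => (p1_surj (C.b1 j)).choose)
  i0_inj := i0_inj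
  i1_inj := i1_inj
  pi0 := pi0
  pi1 := pi1
  ex0 := ex0
  ex1 := ex1
  pq0 z := by
    have : p.f0.comp (C.b0.constr R (fun j => (p0_surj (C.b0 j)).choose)) = LinearMap.id := by
      apply C.b0.ext
      intro j
      rw [LinearMap.comp_apply, Basis.constr_basis, (p0_surj (C.b0 j)).choose_spec]
      rfl
    exact congrArg (fun h => h z) this
  pq1 z := by
    have : p.f1.comp (C.b1.constr R (fun j => (p1_surj (C.b1 j)).choose)) = LinearMap.id := by
      apply C.b1.ext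
      intro j
      rw [LinearMap.comp_apply, Basis.constr_basis, (p1_surj (C.b1 j)).choose_spec]
      rfl
    exact congrArg (fun h => h z) this

variable {A B C : PC.{u, v, w} R} (E : SES A B C)

/-- The splitting of the even part. -/
noncomputable def E0 : (A.C0 × C.C0) ≃ₗ[R] B.C0 :=
  LinearEquiv.ofBijective (LinearMap.coprod E.i.f0 E.q0) (by
    constructor
    · rw [← LinearMap.ker_eq_bot, LinearMap.ker_eq_bot']
      rintro ⟨x, z⟩ h
      rw [LinearMap.coprod_apply] at h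
      have h1 := congrArg E.p.f0 h
      rw [map_add, E.pi0, E.pq0, zero_add, map_zero] at h1
      simp only at h1
      subst h1
      rw [map_zero, add_zero] at h
      have h2 := E.i0_inj (h.trans (map_zero _).symm)
      simp only at h2
      rw [h2]
      rfl
    · intro y
      obtain ⟨x, hx⟩ := E.ex0 (y - E.q0 (E.p.f0 y)) (by rw [map_sub, E.pq0, sub_self])
      refine ⟨(x, E.p.f0 y), ?_⟩
      rw [LinearMap.coprod_apply, hx, sub_add_cancel])

/-- The splitting of the odd part. -/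
noncomputable def E1 : (A.C1 × C.C1) ≃ₗ[R] B.C1 :=
  LinearEquiv.ofBijective (LinearMap.coprod E.i.f1 E.q1) (by
    constructor
    · rw [← LinearMap.ker_eq_bot, LinearMap.ker_eq_bot']
      rintro ⟨x, z⟩ h
      rw [LinearMap.coprod_apply] at h
      have h1 := congrArg E.p.f1 h
      rw [map_add, E.pi1, E.pq1, zero_add, map_zero] at h1
      simp only at h1
      subst h1
      rw [map_zero, add_zero] at h
      have h2 := E.i1_inj (h.trans (map_zero _).symm)
      simp only at h2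
      rw [h2]
      rfl
    · intro y
      obtain ⟨x, hx⟩ := E.ex1 (y - E.q1 (E.p.f1 y)) (by rw [map_sub, E.pq1, sub_self])
      refine ⟨(x, E.p.f1 y), ?_⟩
      rw [LinearMap.coprod_apply, hx, sub_add_cancel])

theorem E0_apply (x : A.C0) (z : C.C0) : E.E0 (x, z) = E.i.f0 x + E.q0 z := rfl

theorem E1_apply (x : A.C1) (z : C.C1) : E.E1 (x, z) = E.i.f1 x + E.q1 z := rfl

theorem E0_symm_snd (y : B.C0) : (E.E0.symm y).2 = E.p.f0 y := by
  obtain ⟨⟨x, z⟩, rfl⟩ := E.E0.surjective y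
  rw [LinearEquiv.symm_apply_apply, E0_apply, map_add, E.pi0, E.pq0, zero_add]

theorem E1_symm_snd (y : B.C1) : (E.E1.symm y).2 = E.p.f1 y := by
  obtain ⟨⟨x, z⟩, rfl⟩ := E.E1.surjective y
  rw [LinearEquiv.symm_apply_apply, E1_apply, map_add, E.pi1, E.pq1, zero_add]

/-- The ratio of the bases. -/
noncomputable def ratio : Sg R :=
  sdet (A.b1.prod C.b1) B.b1 E.E1 / sdet (A.b0.prod C.b0) B.b0 E.E0

/-- The twisting map. -/
noncomputable def t0 : C.C0 →ₗ[R] A.C1 :=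
  (LinearMap.fst R _ _).comp
    ((E.E1.symm : B.C1 →ₗ[R] (A.C1 × C.C1)).comp (B.d0.comp E.q0))

/-- The twisting map. -/
noncomputable def t1 : C.C1 →ₗ[R] A.C0 :=
  (LinearMap.fst R _ _).comp
    ((E.E0.symm : B.C0 →ₗ[R] (A.C0 × C.C0)).comp (B.d1.comp E.q1))

theorem i_t0 (z : C.C0) : E.i.f1 (E.t0 z) + E.q1 (C.d0 z) = B.d0 (E.q0 z) := by
  have h1 : (E.E1.symm (B.d0 (E.q0 z))).2 = C.d0 z := by
    rw [E1_symm_snd, ← E.p.c0, E.pq0]
  rw [← h1]
  change E.E1 (E.E1.symm (B.d0 (E.q0 z))) = _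
  exact LinearEquiv.apply_symm_apply _ _

theorem i_t1 (z : C.C1) : E.i.f0 (E.t1 z) + E.q0 (C.d1 z) = B.d1 (E.q1 z) := by
  have h1 : (E.E0.symm (B.d1 (E.q1 z))).2 = C.d1 z := by
    rw [E0_symm_snd, ← E.p.c1, E.pq1]
  rw [← h1]
  change E.E0 (E.E0.symm (B.d1 (E.q1 z))) = _
  exact LinearEquiv.apply_symm_apply _ _

theorem tt0 (z : C.C0) : A.d1 (E.t0 z) + E.t1 (C.d0 z) = 0 := by
  apply E.i0_inj
  rw [map_zero, map_add, ← E.i.c1]
  have h1 := congrArg B.d1 (E.i_t0 z)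
  have h2 := E.i_t1 (C.d0 z)
  rw [B.dd0, map_add, ← h2, C.dd0, map_zero, add_zero] at h1
  exact h1

theorem tt1 (z : C.C1) : A.d0 (E.t1 z) + E.t0 (C.d1 z) = 0 := by
  apply E.i1_inj
  rw [map_zero, map_add, ← E.i.c0]
  have h1 := congrArg B.d0 (E.i_t1 z)
  have h2 := E.i_t0 (C.d1 z)
  rw [B.dd1, map_add, ← h2, C.dd1, map_zero, add_zero] at h1
  exact h1

/-- The isomorphism with the twisted direct sum. -/
noncomputable def iso : Iso (ext A C E.t0 E.t1 E.tt0 E.tt1) B where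
  e0 := E.E0
  e1 := E.E1
  c0 := by
    rintro ⟨x, z⟩
    change B.d0 (E.i.f0 x + E.q0 z) = E.i.f1 (A.d0 x + E.t0 z) + E.q1 (C.d0 z)
    rw [map_add, map_add, E.i.c0, add_assoc, E.i_t0]
  c1 := by
    rintro ⟨x, z⟩
    change B.d1 (E.i.f1 x + E.q1 z) = E.i.f0 (A.d1 x + E.t1 z) + E.q0 (C.d1 z)
    rw [map_add, map_add, E.i.c1, add_assoc, E.i_t1]

include E in
theorem contractible (hA : Contractible A) (hC : Contractible C) : Contractible B :=
  E.iso.contractible (ext_contractible _ _ _ _ _ _ hA hC)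

/-- (P5) The torsion in a short exact sequence. -/
theorem tors_eq [IsDomain R] (hA : Contractible A) (hC : Contractible C) :
    PC.tors B = PC.tors A * PC.tors C * E.ratio := by
  rw [E.iso.tors (ext_contractible _ _ _ _ _ _ hA hC), ext_tors _ _ _ _ _ _ hA hC]
  rfl

include E in
/-- Two out of three. -/
theorem contractible_right (hA : Contractible A) (hB : Contractible B) : Contractible C := by
  refine contractible_of_retract (B := PC.cone E.i)
    ⟨LinearMap.prod E.q0 (-E.t0), LinearMap.prod E.q1 (-E.t1), fun z => ?_, fun z => ?_⟩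
    ⟨E.p.f0.comp (LinearMap.fst R _ _), E.p.f1.comp (LinearMap.fst R _ _), ?_, ?_⟩ ?_
    (cone_contractible E.i hA hB)
  · change (B.d0 (E.q0 z) + E.i.f1 (-E.t0 z), -A.d1 (-E.t0 z)) = (E.q1 (C.d0 z), -E.t1 (C.d0 z))
    have h1 := E.tt0 z
    rw [← E.i_t0, map_neg, map_neg, neg_neg]
    refine Prod.ext ?_ ?_
    · simp only; abel
    · simp only; rw [eq_neg_iff_add_eq_zero]; exact h1
  · change (B.d1 (E.q1 z) + E.i.f0 (-E.t1 z), -A.d0 (-E.t1 z)) = (E.q0 (C.d1 z), -E.t0 (C.d1 z))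
    have h1 := E.tt1 z
    rw [← E.i_t1, map_neg, map_neg, neg_neg]
    refine Prod.ext ?_ ?_
    · simp only; abel
    · simp only; rw [eq_neg_iff_add_eq_zero]; exact h1
  · rintro ⟨b, a⟩
    change C.d0 (E.p.f0 b) = E.p.f1 (B.d0 b + E.i.f1 a)
    rw [map_add, E.pi1, add_zero, E.p.c0]
  · rintro ⟨b, a⟩
    change C.d1 (E.p.f1 b) = E.p.f0 (B.d1 b + E.i.f0 a)
    rw [map_add, E.pi0, add_zero, E.p.c1]
  · refine Hom.ext (LinearMap.ext fun z => ?_) (LinearMap.ext fun z => ?_)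
    · exact E.pq0 z
    · exact E.pq1 z

/-- The projection to the sub of the even part. -/
noncomputable def r0 : B.C0 →ₗ[R] A.C0 :=
  (LinearMap.fst R _ _).comp (E.E0.symm : B.C0 →ₗ[R] (A.C0 × C.C0))

/-- The projection to the sub of the odd part. -/
noncomputable def r1 : B.C1 →ₗ[R] A.C1 :=
  (LinearMap.fst R _ _).comp (E.E1.symm : B.C1 →ₗ[R] (A.C1 × C.C1))

theorem r0_i (x : A.C0) : E.r0 (E.i.f0 x) = x := by
  have h1 : E.i.f0 x = E.E0 (x, 0) := by rw [E0_apply, map_zero, add_zero]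
  change (E.E0.symm (E.i.f0 x)).1 = x
  rw [h1, LinearEquiv.symm_apply_apply]

theorem r1_i (x : A.C1) : E.r1 (E.i.f1 x) = x := by
  have h1 : E.i.f1 x = E.E1 (x, 0) := by rw [E1_apply, map_zero, add_zero]
  change (E.E1.symm (E.i.f1 x)).1 = x
  rw [h1, LinearEquiv.symm_apply_apply]

theorem split0 (y : B.C0) : E.i.f0 (E.r0 y) + E.q0 (E.p.f0 y) = y := by
  rw [← E.E0_symm_snd]
  exact E.E0.apply_symm_apply y

theorem split1 (y : B.C1) : E.i.f1 (E.r1 y) + E.q1 (E.p.f1 y) = y := by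
  rw [← E.E1_symm_snd]
  exact E.E1.apply_symm_apply y

theorem r_d0 (y : B.C0) : E.r1 (B.d0 y) = A.d0 (E.r0 y) + E.t0 (E.p.f0 y) := by
  apply E.i1_inj
  have h1 := E.split1 (B.d0 y)
  rw [← E.p.c0] at h1
  have h2 := E.i_t0 (E.p.f0 y)
  have h3 := congrArg B.d0 (E.split0 y)
  rw [map_add, E.i.c0, ← h2] at h3
  rw [map_add]
  rw [← add_assoc] at h3
  exact add_right_cancel (h1.trans h3.symm)

theorem r_d1 (y : B.C1) : E.r0 (B.d1 y) = A.d1 (E.r1 y) + E.t1 (E.p.f1 y) := by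
  apply E.i0_inj
  have h1 := E.split0 (B.d1 y)
  rw [← E.p.c1] at h1
  have h2 := E.i_t1 (E.p.f1 y)
  have h3 := congrArg B.d1 (E.split1 y)
  rw [map_add, E.i.c1, ← h2] at h3
  rw [map_add]
  rw [← add_assoc] at h3
  exact add_right_cancel (h1.trans h3.symm)

include E in
/-- Two out of three. -/
theorem contractible_left (hB : Contractible B) (hC : Contractible C) : Contractible A := by
  have h : Contractible A.shift := by
    refine contractible_of_retract (B := PC.cone E.p)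
      ⟨LinearMap.prod 0 E.i.f1, LinearMap.prod 0 E.i.f0, fun z => ?_, fun z => ?_⟩
      ⟨(E.r1.comp (LinearMap.snd R _ _)) + (E.t0.comp (LinearMap.fst R _ _)),
        (E.r0.comp (LinearMap.snd R _ _)) + (E.t1.comp (LinearMap.fst R _ _)), ?_, ?_⟩ ?_
      (cone_contractible E.p hB hC)
    · change (C.d0 0 + E.p.f1 (E.i.f1 z), -B.d1 (E.i.f1 z)) = (0, E.i.f0 (-A.d1 z))
      rw [E.pi1, map_zero, add_zero, E.i.c1, map_neg]
    · change (C.d1 0 + E.p.f0 (E.i.f0 z), -B.d0 (E.i.f0 z)) = (0, E.i.f1 (-A.d0 z))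
      rw [E.pi0, map_zero, add_zero, E.i.c0, map_neg]
    · rintro ⟨c, b⟩
      change -A.d1 (E.r1 b + E.t0 c) = E.r0 (-B.d1 b) + E.t1 (C.d0 c + E.p.f1 b)
      have h1 := E.tt0 c
      rw [map_neg, E.r_d1, map_add, map_add]
      have h2 : E.t1 (C.d0 c) = -A.d1 (E.t0 c) := by
        rw [eq_neg_iff_add_eq_zero, add_comm]; exact h1
      rw [h2]
      abel
    · rintro ⟨c, b⟩
      change -A.d0 (E.r0 b + E.t1 c) = E.r1 (-B.d0 b) + E.t0 (C.d1 c + E.p.f0 b)
      have h1 := E.tt1 c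
      rw [map_neg, E.r_d0, map_add, map_add]
      have h2 : E.t0 (C.d1 c) = -A.d0 (E.t1 c) := by
        rw [eq_neg_iff_add_eq_zero, add_comm]; exact h1
      rw [h2]
      abel
    · refine Hom.ext (LinearMap.ext fun z => ?_) (LinearMap.ext fun z => ?_)
      · change E.r1 (E.i.f1 z) + E.t0 0 = z
        rw [E.r1_i, map_zero, add_zero]
      · change E.r0 (E.i.f0 z) + E.t1 0 = z
        rw [E.r0_i, map_zero, add_zero]
  obtain ⟨k⟩ := h
  exact ⟨shiftContr k |>.map ⟨LinearEquiv.refl R _, LinearEquiv.refl R _,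
    fun x => by simp, fun x => by simp⟩⟩

/-- The short exact sequence of cones. -/
noncomputable def cone {A' B' C' : PC.{u, v, w} R} (E' : SES A' B' C') (f : Hom A A')
    (g : Hom B B') (h : Hom C C') (h1 : g.comp E.i = E'.i.comp f)
    (h2 : h.comp E.p = E'.p.comp g) : SES (PC.cone f) (PC.cone g) (PC.cone h) where
  i := coneMap f g E.i E'.i h1
  p := coneMap g h E.p E'.p h2
  q0 := LinearMap.prodMap E'.q0 E.q1
  q1 := LinearMap.prodMap E'.q1 E.q0
  i0_inj := by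
    rintro ⟨x, y⟩ ⟨x', y'⟩ h
    exact Prod.ext (E'.i0_inj (congrArg Prod.fst h)) (E.i1_inj (congrArg Prod.snd h))
  i1_inj := by
    rintro ⟨x, y⟩ ⟨x', y'⟩ h
    exact Prod.ext (E'.i1_inj (congrArg Prod.fst h)) (E.i0_inj (congrArg Prod.snd h))
  pi0 := by
    rintro ⟨x, y⟩
    exact Prod.ext (E'.pi0 x) (E.pi1 y)
  pi1 := by
    rintro ⟨x, y⟩
    exact Prod.ext (E'.pi1 x) (E.pi0 y)
  ex0 := by
    rintro ⟨x, y⟩ h
    obtain ⟨x', hx⟩ := E'.ex0 x (congrArg Prod.fst h)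
    obtain ⟨y', hy⟩ := E.ex1 y (congrArg Prod.snd h)
    exact ⟨(x', y'), Prod.ext hx hy⟩
  ex1 := by
    rintro ⟨x, y⟩ h
    obtain ⟨x', hx⟩ := E'.ex1 x (congrArg Prod.fst h)
    obtain ⟨y', hy⟩ := E.ex0 y (congrArg Prod.snd h)
    exact ⟨(x', y'), Prod.ext hx hy⟩
  pq0 := by
    rintro ⟨x, y⟩
    exact Prod.ext (E'.pq0 x) (E.pq1 y)
  pq1 := by
    rintro ⟨x, y⟩
    exact Prod.ext (E'.pq1 x) (E.pq0 y)

theorem cone_ratio {A' B' C' : PC.{u, v, w} R} (E' : SES A' B' C') (f : Hom A A')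
    (g : Hom B B') (h : Hom C C') (h1 : g.comp E.i = E'.i.comp f)
    (h2 : h.comp E.p = E'.p.comp g) :
    (E.cone E' f g h h1 h2).ratio = E'.ratio / E.ratio := by
  have e0 : sdet ((PC.cone f).b0.prod (PC.cone h).b0) (PC.cone g).b0 (E.cone E' f g h h1 h2).E0 =
      sdet (A'.b0.prod C'.b0) B'.b0 E'.E0 * sdet (A.b1.prod C.b1) B.b1 E.E1 := by
    have hE : (E.cone E' f g h h1 h2).E0 = swapP.trans (E'.E0.prodCongr E.E1) := by
      ext <;> rfl
    rw [hE, sdet_trans _ ((A'.b0.prod C'.b0).prod (A.b1.prod C.b1)) _, sdet_prod]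
    have : sdet ((PC.cone f).b0.prod (PC.cone h).b0) ((A'.b0.prod C'.b0).prod (A.b1.prod C.b1))
      swapP = 1 := sdet_swapP _ _ _ _
    rw [this, one_mul]
  have e1 : sdet ((PC.cone f).b1.prod (PC.cone h).b1) (PC.cone g).b1 (E.cone E' f g h h1 h2).E1 =
      sdet (A'.b1.prod C'.b1) B'.b1 E'.E1 * sdet (A.b0.prod C.b0) B.b0 E.E0 := by
    have hE : (E.cone E' f g h h1 h2).E1 = swapP.trans (E'.E1.prodCongr E.E0) := by
      ext <;> rfl
    rw [hE, sdet_trans _ ((A'.b1.prod C'.b1).prod (A.b0.prod C.b0)) _, sdet_prod]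
    have : sdet ((PC.cone f).b1.prod (PC.cone h).b1) ((A'.b1.prod C'.b1).prod (A.b0.prod C.b0))
      swapP = 1 := sdet_swapP _ _ _ _
    rw [this, one_mul]
  rw [ratio, e0, e1, ratio, ratio, div_div_div_eq]

end SES

end PC

end Pool.Agent.Helper88.SSF
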