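import Mathlib

/-!
Project SSF: determinants up to sign of isomorphisms of based modules.
-/

namespace Pool.Agent.Helper88.SSF

open Module

variable {R : Type*} [CommRing R]

/-- Units of `R` modulo sign. -/
def Sg (R : Type*) [CommRing R] : Type _ := Rˣ ⧸ Subgroup.zpowers (-1 : Rˣ)

instance (R : Type*) [CommRing R] : CommGroup (Sg R) :=
  inferInstanceAs (CommGroup (Rˣ ⧸ Subgroup.zpowers (-1 : Rˣ)))

/-- The class of a unit modulo sign. -/
def sg (R : Type*) [CommRing R] : Rˣ →* Sg R :=
  QuotientGroup.mk' (Subgroup.zpowers (-1 : Rˣ))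

theorem sg_neg_one : sg R (-1) = 1 :=
  (QuotientGroup.eq_one_iff _).2 (Subgroup.mem_zpowers _)

theorem sg_eq_one_iff (u : Rˣ) : sg R u = 1 ↔ u = 1 ∨ u = -1 := by
  refine (QuotientGroup.eq_one_iff u).trans ?_
  rw [Subgroup.mem_zpowers_iff]
  constructor
  · rintro ⟨z, rfl⟩
    rcases Int.even_or_odd z with h | h
    · left; exact h.neg_one_zpow
    · right; exact h.neg_one_zpow
  · rintro (rfl | rfl)
    · exact ⟨0, by simp⟩
    · exact ⟨1, by simp⟩

theorem sg_eq_iff (u v : Rˣ) : sg R u = sg R v ↔ u = v ∨ u = -v := by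
  have h1 : sg R u = sg R v ↔ sg R (u / v) = 1 := by rw [map_div, div_eq_one]
  rw [h1, sg_eq_one_iff, div_eq_iff_eq_mul, div_eq_iff_eq_mul, one_mul, neg_one_mul]

theorem sg_surjective : Function.Surjective (sg R) := QuotientGroup.mk'_surjective _

/-- Functoriality of `Sg`. -/
def Sg.map {S : Type*} [CommRing S] (f : R →+* S) : Sg R →* Sg S :=
  QuotientGroup.map _ _ (Units.map (f : R →* S)) (by
    rw [Subgroup.zpowers_le]
    exact Subgroup.mem_comap.2 (by
      have : Units.map (f : R →* S) (-1) = -1 := by ext; simp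
      rw [this]
      exact Subgroup.mem_zpowers _))

theorem Sg.map_sg {S : Type*} [CommRing S] (f : R →+* S) (u : Rˣ) :
    Sg.map f (sg R u) = sg S (Units.map (f : R →* S) u) := rfl

/-- The determinant of a permutation of a basis is trivial up to sign. -/
theorem sg_det_equiv_perm {ι M : Type*} [Finite ι] [AddCommGroup M] [Module R M]
    (b : Basis ι R M) (σ : Equiv.Perm ι) : sg R (LinearEquiv.det (b.equiv b σ)) = 1 := by
  classical
  have := Fintype.ofFinite ι
  have h1 : ((LinearEquiv.det (b.equiv b σ) : Rˣ) : R) = ((Equiv.Perm.sign σ : ℤˣ) : ℤ) := by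
    rw [LinearEquiv.coe_det, ← LinearMap.det_toMatrix b]
    have h2 : LinearMap.toMatrix b b (b.equiv b σ : M →ₗ[R] M) =
        (1 : Matrix ι ι R).submatrix id σ := by
      ext i j
      rw [LinearMap.toMatrix_apply]
      simp [Matrix.one_apply, Finsupp.single_apply, eq_comm]
    rw [h2, Matrix.det_permute']
    simp
  rw [sg_eq_one_iff]
  rcases Int.units_eq_one_or (Equiv.Perm.sign σ) with h | h
  · left; ext; rw [h1, h]; simp
  · right; ext; rw [h1, h]; simp

section sdet

variable {ι κ lam : Type*} [Finite ι] [Finite κ] [Finite lam]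
variable {M N P : Type*} [AddCommGroup M] [AddCommGroup N] [AddCommGroup P]
variable [Module R M] [Module R N] [Module R P]

open Classical in
/-- The determinant up to sign of an isomorphism between modules with bases. -/
noncomputable def sdet (b : Basis ι R M) (c : Basis κ R N) (f : M ≃ₗ[R] N) : Sg R :=
  if h : Nonempty (ι ≃ κ) then sg R (LinearEquiv.det (f.trans (c.equiv b h.some.symm))) else 1

omit [Finite κ] in
theorem sdet_eq (b : Basis ι R M) (c : Basis κ R N) (f : M ≃ₗ[R] N) (e : ι ≃ κ) :
    sdet b c f = sg R (LinearEquiv.det (f.trans (c.equiv b e.symm))) := by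
  have h : Nonempty (ι ≃ κ) := ⟨e⟩
  rw [sdet, dif_pos h]
  have h1 : c.equiv b h.some.symm = (c.equiv b e.symm).trans (b.equiv b (e.trans h.some.symm)) := by
    rw [Basis.equiv_trans]
    congr 1
    ext x
    simp
  rw [h1, ← LinearEquiv.trans_assoc, LinearEquiv.det_trans, map_mul, sg_det_equiv_perm, one_mul]

omit [Finite ι] [Finite κ] in
theorem nonempty_equiv_of_linearEquiv [Nontrivial R] (b : Basis ι R M) (c : Basis κ R N)
    (f : M ≃ₗ[R] N) : Nonempty (ι ≃ κ) := ⟨(b.map f).indexEquiv c⟩

theorem sg_eq_one_of_subsingleton [Subsingleton R] (x : Sg R) : x = 1 := by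
  obtain ⟨u, rfl⟩ := sg_surjective x
  have : u = 1 := Units.ext (Subsingleton.elim _ _)
  rw [this, map_one]

omit [Finite lam] in
theorem sdet_trans (b : Basis ι R M) (c : Basis κ R N) (d : Basis lam R P) (f : M ≃ₗ[R] N)
    (g : N ≃ₗ[R] P) : sdet b d (f.trans g) = sdet b c f * sdet c d g := by
  cases subsingleton_or_nontrivial R
  · rw [sg_eq_one_of_subsingleton (sdet b d (f.trans g)),
      sg_eq_one_of_subsingleton (sdet b c f * sdet c d g)]
  obtain ⟨e⟩ := nonempty_equiv_of_linearEquiv b c f
  obtain ⟨e'⟩ := nonempty_equiv_of_linearEquiv c d g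
  rw [sdet_eq b d _ (e.trans e'), sdet_eq b c f e, sdet_eq c d g e', ← map_mul]
  congr 1
  have h1 : (d.equiv b (e.trans e').symm) = (d.equiv c e'.symm).trans (c.equiv b e.symm) := by
    rw [Basis.equiv_trans]; rfl
  rw [h1]
  have h2 : (f.trans g).trans ((d.equiv c e'.symm).trans (c.equiv b e.symm)) =
      (f.trans (c.equiv b e.symm)).trans
        (((c.equiv b e.symm).symm.trans (g.trans (d.equiv c e'.symm))).trans
          (c.equiv b e.symm)) := by
    ext x
    simp only [LinearEquiv.trans_apply, LinearEquiv.symm_apply_apply]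
  rw [h2, LinearEquiv.det_trans, mul_comm]
  congr 1
  exact LinearEquiv.det_conj (g.trans (d.equiv c e'.symm)) (c.equiv b e.symm)

theorem sdet_refl (b : Basis ι R M) : sdet b b (LinearEquiv.refl R M) = 1 := by
  rw [sdet_eq b b _ (Equiv.refl ι)]
  have : (LinearEquiv.refl R M).trans (b.equiv b (Equiv.refl ι).symm) = LinearEquiv.refl R M := by
    ext x; simp
  rw [this, LinearEquiv.det_refl, map_one]

theorem sdet_symm (b : Basis ι R M) (c : Basis κ R N) (f : M ≃ₗ[R] N) :
    sdet c b f.symm = (sdet b c f)⁻¹ := by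
  rw [eq_inv_iff_mul_eq_one, ← sdet_trans c b c f.symm f]
  have : f.symm.trans f = LinearEquiv.refl R N := by ext x; simp
  rw [this, sdet_refl]

omit [Finite κ] in
/-- A bijection between bases has trivial determinant. -/
theorem sdet_of_basis (b : Basis ι R M) (c : Basis κ R N) (f : M ≃ₗ[R] N) (e : ι ≃ κ)
    (h : ∀ i, f (b i) = c (e i)) : sdet b c f = 1 := by
  rw [sdet_eq b c f e]
  have : f.trans (c.equiv b e.symm) = LinearEquiv.refl R M := by
    apply b.ext'
    intro i
    rw [LinearEquiv.trans_apply, h, Basis.equiv_apply]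
    simp
  rw [this, LinearEquiv.det_refl, map_one]

theorem sdet_self (b : Basis ι R M) (f : M ≃ₗ[R] M) : sdet b b f = sg R (LinearEquiv.det f) := by
  rw [sdet_eq b b f (Equiv.refl ι)]
  congr 2
  ext x; simp

theorem det_block {ι' M' : Type*} [Finite ι'] [AddCommGroup M'] [Module R M']
    (b : Basis ι R M) (b' : Basis ι' R M') (F : M × M' →ₗ[R] M × M') (f1 : M →ₗ[R] M)
    (g : M' →ₗ[R] M) (f2 : M' →ₗ[R] M') (hF : ∀ x y, F (x, y) = (f1 x + g y, f2 y)) :
    LinearMap.det F = LinearMap.det f1 * LinearMap.det f2 := by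
  classical
  have := Fintype.ofFinite ι
  have := Fintype.ofFinite ι'
  rw [← LinearMap.det_toMatrix (b.prod b'), ← LinearMap.det_toMatrix b,
    ← LinearMap.det_toMatrix b', ← Matrix.det_fromBlocks_zero₂₁ (LinearMap.toMatrix b b f1)
      (LinearMap.toMatrix b' b g) (LinearMap.toMatrix b' b' f2)]
  congr 1
  ext i j
  rcases i with i | i <;> rcases j with j | j <;>
    simp [LinearMap.toMatrix_apply, Basis.prod_apply, hF]

omit [Finite κ] in
/-- The determinant up to sign of a block triangular isomorphism. -/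
theorem sdet_block {ι' κ' M' N' : Type*} [Finite ι'] [Finite κ'] [AddCommGroup M'] [Module R M']
    [AddCommGroup N'] [Module R N']
    (b : Basis ι R M) (b' : Basis ι' R M') (c : Basis κ R N) (c' : Basis κ' R N')
    (F : (M × M') ≃ₗ[R] (N × N')) (f1 : M ≃ₗ[R] N)
    (g : M' →ₗ[R] N) (f2 : M' ≃ₗ[R] N') (hF : ∀ x y, F (x, y) = (f1 x + g y, f2 y)) :
    sdet (b.prod b') (c.prod c') F = sdet b c f1 * sdet b' c' f2 := by
  cases subsingleton_or_nontrivial R
  · rw [sg_eq_one_of_subsingleton (sdet (b.prod b') (c.prod c') F),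
      sg_eq_one_of_subsingleton (sdet b c f1 * sdet b' c' f2)]
  obtain ⟨e⟩ := nonempty_equiv_of_linearEquiv b c f1
  obtain ⟨e'⟩ := nonempty_equiv_of_linearEquiv b' c' f2
  rw [sdet_eq (b.prod b') (c.prod c') F (e.sumCongr e'), sdet_eq b c f1 e, sdet_eq b' c' f2 e',
    ← map_mul]
  congr 1
  ext
  rw [Units.val_mul, LinearEquiv.coe_det, LinearEquiv.coe_det, LinearEquiv.coe_det]
  have hq : ∀ x y, ((c.prod c').equiv (b.prod b') (e.sumCongr e').symm) (x, y) =
      (c.equiv b e.symm x, c'.equiv b' e'.symm y) := by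
    intro x y
    have : ((c.prod c').equiv (b.prod b') (e.sumCongr e').symm : (N × N') →ₗ[R] (M × M')) =
        LinearMap.prodMap (c.equiv b e.symm : N →ₗ[R] M) (c'.equiv b' e'.symm : N' →ₗ[R] M') := by
      apply (c.prod c').ext
      rintro (i | i)
      · rw [LinearEquiv.coe_coe, Basis.equiv_apply]
        simp [Basis.prod_apply]
      · rw [LinearEquiv.coe_coe, Basis.equiv_apply]
        simp [Basis.prod_apply]
    exact congrArg (fun h => h (x, y)) this
  refine det_block b b' _ _ ((c.equiv b e.symm : N →ₗ[R] M).comp g) _ ?_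
  intro x y
  simp only [LinearEquiv.coe_coe, LinearEquiv.trans_apply, hF, hq, map_add, LinearMap.comp_apply]

/-- The determinant of a product of isomorphisms. -/
theorem sdet_prod {ι' κ' M' N' : Type*} [Finite ι'] [Finite κ'] [AddCommGroup M'] [Module R M']
    [AddCommGroup N'] [Module R N']
    (b : Basis ι R M) (b' : Basis ι' R M') (c : Basis κ R N) (c' : Basis κ' R N')
    (f1 : M ≃ₗ[R] N) (f2 : M' ≃ₗ[R] N') :
    sdet (b.prod b') (c.prod c') (f1.prodCongr f2) = sdet b c f1 * sdet b' c' f2 :=
  sdet_block b b' c c' _ f1 0 f2 (fun x y => by simp)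

/-- `1 + N` with `N` nilpotent has determinant one over a domain. -/
theorem det_one_add_nilpotent [IsDomain R] (b : Basis ι R M) (N : M →ₗ[R] M)
    (hN : IsNilpotent N) : LinearMap.det (LinearMap.id + N) = 1 := by
  classical
  have := Fintype.ofFinite ι
  have hfree : Module.Free R M := Module.Free.of_basis b
  have hfin : Module.Finite R M := Module.Finite.of_basis b
  have hN' : IsNilpotent (-N) := hN.neg
  have h1 := IsNilpotent.charpoly_eq_X_pow_finrank (φ := -N) hN'
  have h2 : (LinearMap.charpoly (-N)).eval 1 = LinearMap.det (LinearMap.id + N) := by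
    rw [← LinearMap.charpoly_toMatrix (-N) b, Matrix.charpoly, _root_.eval_det,
      Matrix.matPolyEquiv_charmatrix, ← LinearMap.det_toMatrix b]
    congr 1
    simp
  rw [← h2, h1]
  simp

/-- Isomorphisms which differ by a unipotent one have the same determinant. -/
theorem sdet_add_nilpotent [IsDomain R] (b : Basis ι R M) (c : Basis κ R N) (f g : M ≃ₗ[R] N)
    (hN : ∀ x, f.symm (g (f.symm (g x) - x)) = f.symm (g x) - x) : sdet b c f = sdet b c g := by
  have h1 : g = (g.trans f.symm).trans f := by ext x; simp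
  have h2 : sdet b c g = sdet b b (g.trans f.symm) * sdet b c f := by
    conv_lhs => rw [h1]
    rw [sdet_trans b b c]
  rw [h2, sdet_self]
  have h3 : LinearEquiv.det (g.trans f.symm) = 1 := by
    ext
    rw [LinearEquiv.coe_det, Units.val_one]
    let T : M →ₗ[R] M := ((g.trans f.symm : M ≃ₗ[R] M) : M →ₗ[R] M)
    have h4 : T = LinearMap.id + (T - LinearMap.id) := by abel
    change LinearMap.det T = 1
    rw [h4]
    apply det_one_add_nilpotent b
    refine ⟨2, ?_⟩
    ext x
    rw [pow_two]
    change T (T x - x) - (T x - x) = 0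
    rw [sub_eq_zero]
    exact hN x
  rw [h3, map_one, one_mul]

omit [Finite ι] [Finite κ] in
theorem repr_equiv (b : Basis ι R M) (c : Basis κ R N) (e : ι ≃ κ) (y : N) (i : ι) :
    b.repr (c.equiv b e.symm y) i = c.repr y (e i) := by
  classical
  have h : (b.coord i).comp (c.equiv b e.symm : N →ₗ[R] M) = c.coord (e i) := by
    apply c.ext
    intro k
    rw [LinearMap.comp_apply, LinearEquiv.coe_coe, Basis.equiv_apply, Basis.coord_apply,
      Basis.coord_apply, Basis.repr_self, Basis.repr_self, Finsupp.single_apply,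
      Finsupp.single_apply]
    congr 1
    rw [Equiv.symm_apply_eq]
  exact congrArg (fun h => h y) h

/-- Base change along a ring homomorphism, in the form of semilinear maps taking bases to
bases. -/
theorem sdet_map {S : Type*} [CommRing S] (σ : R →+* S) {M' N' : Type*} [AddCommGroup M']
    [Module S M'] [AddCommGroup N'] [Module S N']
    (b : Basis ι R M) (c : Basis κ R N) (b' : Basis ι S M') (c' : Basis κ S N')
    (φ : M →ₛₗ[σ] M') (ψ : N →ₛₗ[σ] N') (hφ : ∀ i, φ (b i) = b' i) (hψ : ∀ i, ψ (c i) = c' i)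
    (f : M ≃ₗ[R] N) (f' : M' ≃ₗ[S] N') (hf : ∀ x, f' (φ x) = ψ (f x)) :
    sdet b' c' f' = Sg.map σ (sdet b c f) := by
  classical
  have := Fintype.ofFinite ι
  have := Fintype.ofFinite κ
  cases subsingleton_or_nontrivial R
  · have hS : Subsingleton S := by
      refine ⟨fun x y => ?_⟩
      have h1 : (1 : S) = 0 := by
        rw [← map_one σ, Subsingleton.elim (1 : R) 0, map_zero]
      rw [← mul_one x, h1, ← mul_one y, h1, mul_zero, mul_zero]
    rw [sg_eq_one_of_subsingleton (sdet b' c' f'),
      sg_eq_one_of_subsingleton (Sg.map σ (sdet b c f))]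
  obtain ⟨e⟩ := nonempty_equiv_of_linearEquiv b c f
  rw [sdet_eq b' c' f' e, sdet_eq b c f e, Sg.map_sg]
  congr 1
  ext
  rw [LinearEquiv.coe_det]
  change _ = σ ((LinearEquiv.det (f.trans (c.equiv b e.symm)) : Rˣ) : R)
  rw [LinearEquiv.coe_det, ← LinearMap.det_toMatrix b', ← LinearMap.det_toMatrix b,
    RingHom.map_det]
  congr 1
  ext i j
  rw [RingHom.mapMatrix_apply, Matrix.map_apply, LinearMap.toMatrix_apply,
    LinearMap.toMatrix_apply]
  simp only [LinearEquiv.coe_coe, LinearEquiv.trans_apply]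
  rw [← hφ, hf]
  -- coordinates are compatible
  have hcoord : ∀ (y : N) (k : κ), c'.repr (ψ y) k = σ (c.repr y k) := by
    intro y k
    conv_lhs => rw [← c.sum_repr y]
    rw [map_sum, map_sum, Finsupp.finsetSum_apply]
    simp only [map_smulₛₗ, hψ, Finsupp.smul_apply, Basis.repr_self, smul_eq_mul,
      Finsupp.single_apply, mul_ite, mul_one, mul_zero]
    simp
  rw [repr_equiv, repr_equiv, hcoord]

theorem sdet_neg (b : Basis ι R M) (c : Basis κ R N) (f : M ≃ₗ[R] N) :
    sdet b c (f.trans (LinearEquiv.neg R)) = sdet b c f := by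
  classical
  have := Fintype.ofFinite κ
  rw [sdet_trans b c c, sdet_self]
  have : sg R (LinearEquiv.det (LinearEquiv.neg R : N ≃ₗ[R] N)) = 1 := by
    rw [sg_eq_one_iff]
    have h1 : ((LinearEquiv.det (LinearEquiv.neg R : N ≃ₗ[R] N) : Rˣ) : R) =
        (-1) ^ Fintype.card κ := by
      rw [LinearEquiv.coe_det, ← LinearMap.det_toMatrix c]
      have : LinearMap.toMatrix c c ((LinearEquiv.neg R : N ≃ₗ[R] N) : N →ₗ[R] N) =
          -(1 : Matrix κ κ R) := by
        ext i j
        simp [LinearMap.toMatrix_apply, Matrix.one_apply, Finsupp.single_apply, eq_comm]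
      rw [this, Matrix.det_neg]
      simp
    rcases neg_one_pow_eq_or R (Fintype.card κ) with h | h
    · left; ext; rw [h1, h]; simp
    · right; ext; rw [h1, h]; simp
  rw [this, mul_one]

end sdet

end Pool.Agent.Helper88.SSF
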