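import Pool.Agent.helper88.SSF.Cone2

/-!
Project SSF: the two iterated cones of a commutative square; homotopic maps.
-/

namespace Pool.Agent.Helper88.SSF

open Module

universe u v w

section lin

variable {R : Type*} [CommRing R] {M1 M2 M3 M4 N4 : Type*} [AddCommGroup M1] [AddCommGroup M2]
  [AddCommGroup M3] [AddCommGroup M4] [AddCommGroup N4] [Module R M1] [Module R M2] [Module R M3]
  [Module R M4] [Module R N4]

/-- Exchange of the two middle summands together with an isomorphism of the last one. -/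
def swapM (c : M4 ≃ₗ[R] N4) : ((M1 × M2) × (M3 × M4)) ≃ₗ[R] ((M1 × M3) × (M2 × N4)) where
  toFun x := ((x.1.1, x.2.1), (x.1.2, -c x.2.2))
  invFun x := ((x.1.1, x.2.1), (x.1.2, -c.symm x.2.2))
  map_add' x y := by
    ext <;> simp [add_comm]
  map_smul' c x := by
    ext <;> simp
  left_inv x := by
    ext <;> simp
  right_inv x := by
    ext <;> simp

theorem swapM_apply (c : M4 ≃ₗ[R] N4) (x1 : M1) (x2 : M2) (x3 : M3) (x4 : M4) :
    swapM c ((x1, x2), (x3, x4)) = ((x1, x3), (x2, -c x4)) := rfl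

/-- The plain exchange of the two middle summands. -/
def swapP : ((M1 × M2) × (M3 × M4)) ≃ₗ[R] ((M1 × M3) × (M2 × M4)) where
  toFun x := ((x.1.1, x.2.1), (x.1.2, x.2.2))
  invFun x := ((x.1.1, x.2.1), (x.1.2, x.2.2))
  map_add' _ _ := rfl
  map_smul' _ _ := rfl
  left_inv _ := rfl
  right_inv _ := rfl

theorem sdet_swapP {I1 I2 I3 I4 : Type*} [Finite I1] [Finite I2] [Finite I3]
    [Finite I4] (b1 : Basis I1 R M1) (b2 : Basis I2 R M2) (b3 : Basis I3 R M3)
    (b4 : Basis I4 R M4) :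
    sdet ((b1.prod b2).prod (b3.prod b4)) ((b1.prod b3).prod (b2.prod b4)) swapP = 1 := by
  let e : (I1 ⊕ I2) ⊕ (I3 ⊕ I4) ≃ (I1 ⊕ I3) ⊕ (I2 ⊕ I4) :=
    { toFun := fun x => match x with
        | Sum.inl (Sum.inl i) => Sum.inl (Sum.inl i)
        | Sum.inl (Sum.inr i) => Sum.inr (Sum.inl i)
        | Sum.inr (Sum.inl i) => Sum.inl (Sum.inr i)
        | Sum.inr (Sum.inr i) => Sum.inr (Sum.inr i)
      invFun := fun x => match x with
        | Sum.inl (Sum.inl i) => Sum.inl (Sum.inl i)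
        | Sum.inl (Sum.inr i) => Sum.inr (Sum.inl i)
        | Sum.inr (Sum.inl i) => Sum.inl (Sum.inr i)
        | Sum.inr (Sum.inr i) => Sum.inr (Sum.inr i)
      left_inv := by rintro ((i | i) | (i | i)) <;> rfl
      right_inv := by rintro ((i | i) | (i | i)) <;> rfl }
  refine sdet_of_basis _ _ _ e ?_
  rintro ((i | i) | (i | i)) <;> simp [Basis.prod_apply, e, swapP]

theorem sdet_swapM {I1 I2 I3 I4 J4 : Type*} [Finite I1] [Finite I2] [Finite I3]
    [Finite I4] [Finite J4] (b1 : Basis I1 R M1) (b2 : Basis I2 R M2) (b3 : Basis I3 R M3)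
    (b4 : Basis I4 R M4) (c4 : Basis J4 R N4) (c : M4 ≃ₗ[R] N4) :
    sdet ((b1.prod b2).prod (b3.prod b4)) ((b1.prod b3).prod (b2.prod c4)) (swapM c) =
      sdet b4 c4 c := by
  have h : (swapM c : ((M1 × M2) × (M3 × M4)) ≃ₗ[R] ((M1 × M3) × (M2 × N4))) =
      swapP.trans (((LinearEquiv.refl R M1).prodCongr (LinearEquiv.refl R M3)).prodCongr
        ((LinearEquiv.refl R M2).prodCongr (c.trans (LinearEquiv.neg R)))) := by
    ext <;> rfl
  rw [h, sdet_trans _ ((b1.prod b3).prod (b2.prod b4)) _, sdet_swapP, one_mul, sdet_prod,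
    sdet_prod, sdet_prod, sdet_refl, sdet_refl, sdet_refl, sdet_neg]
  simp

end lin

namespace PC

variable {R : Type u} [CommRing R]

section square

variable {X Y Z W W' : PC.{u, v, w} R} (s1 : Hom Y X) (t1 : Hom Z X) (s2 : Hom W Z)
  (tW : Hom W Y) (h : s1.comp tW = t1.comp s2) (t2 : Hom W' Y) (sW' : Hom W' Z)
  (h' : t1.comp sW' = s1.comp t2) (c : Iso W W') (hc1 : t2.comp c.hom = tW)
  (hc2 : sW'.comp c.hom = s2)

/-- The two iterated cones of a commutative square are isomorphic. -/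
noncomputable def squareIso :
    Iso (cone (coneMap s2 s1 tW t1 h)) (cone (coneMap t2 t1 sW' s1 h')) where
  e0 := swapM c.e0
  e1 := swapM c.e1
  c0 := by
    rintro ⟨⟨x, y⟩, ⟨z, w⟩⟩
    have e1 : t2.f0 (-c.e0 w) = -tW.f0 w := by
      rw [map_neg, ← hc1]; rfl
    have e2 : sW'.f0 (-c.e0 w) = -s2.f0 w := by
      rw [map_neg, ← hc2]; rfl
    have e3 : W'.d0 (-c.e0 w) = -c.e1 (W.d0 w) := by
      rw [map_neg, c.c0]
    change ((X.d0 x + t1.f1 z + s1.f1 y, -Z.d1 z + sW'.f0 (-c.e0 w)),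
        (-(Y.d1 y + t2.f0 (-c.e0 w)), - -W'.d0 (-c.e0 w))) =
      ((X.d0 x + s1.f1 y + t1.f1 z, -(Z.d1 z + s2.f0 w)),
        (-Y.d1 y + tW.f0 w, -c.e1 (- -W.d0 w)))
    rw [e1, e2, e3, neg_neg, neg_neg]
    refine Prod.ext (Prod.ext ?_ ?_) (Prod.ext ?_ rfl)
    · simp only; abel
    · simp only; abel
    · simp only; abel
  c1 := by
    rintro ⟨⟨x, y⟩, ⟨z, w⟩⟩
    have e1 : t2.f1 (-c.e1 w) = -tW.f1 w := by
      rw [map_neg, ← hc1]; rfl
    have e2 : sW'.f1 (-c.e1 w) = -s2.f1 w := by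
      rw [map_neg, ← hc2]; rfl
    have e3 : W'.d1 (-c.e1 w) = -c.e0 (W.d1 w) := by
      rw [map_neg, c.c1]
    change ((X.d1 x + t1.f0 z + s1.f0 y, -Z.d0 z + sW'.f1 (-c.e1 w)),
        (-(Y.d0 y + t2.f1 (-c.e1 w)), - -W'.d1 (-c.e1 w))) =
      ((X.d1 x + s1.f0 y + t1.f0 z, -(Z.d0 z + s2.f1 w)),
        (-Y.d0 y + tW.f1 w, -c.e0 (- -W.d1 w)))
    rw [e1, e2, e3, neg_neg, neg_neg]
    refine Prod.ext (Prod.ext ?_ ?_) (Prod.ext ?_ rfl)
    · simp only; abel
    · simp only; abel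
    · simp only; abel

theorem squareIso_ratio : (squareIso s1 t1 s2 tW h t2 sW' h' c hc1 hc2).ratio = c.ratio := by
  have h0 : sdet (cone (coneMap s2 s1 tW t1 h)).b0 (cone (coneMap t2 t1 sW' s1 h')).b0
      (squareIso s1 t1 s2 tW h t2 sW' h' c hc1 hc2).e0 = sdet W.b0 W'.b0 c.e0 :=
    sdet_swapM _ _ _ _ _ _
  have h1 : sdet (cone (coneMap s2 s1 tW t1 h)).b1 (cone (coneMap t2 t1 sW' s1 h')).b1
      (squareIso s1 t1 s2 tW h t2 sW' h' c hc1 hc2).e1 = sdet W.b1 W'.b1 c.e1 :=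
    sdet_swapM _ _ _ _ _ _
  rw [Iso.ratio, h0, h1, Iso.ratio]

end square

section homotopy

variable {A B : PC.{u, v, w} R} (f g : Hom A B) (k0 : A.C0 →ₗ[R] B.C1) (k1 : A.C1 →ₗ[R] B.C0)
  (h0 : ∀ x, g.f0 x = f.f0 x + (B.d1 (k0 x) + k1 (A.d0 x)))
  (h1 : ∀ x, g.f1 x = f.f1 x + (B.d0 (k1 x) + k0 (A.d1 x)))

/-- A unipotent automorphism. -/
def unip {R M N : Type*} [CommRing R] [AddCommGroup M] [AddCommGroup N] [Module R M] [Module R N]
    (k : N →ₗ[R] M) : (M × N) ≃ₗ[R] (M × N) where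
  toFun x := (x.1 + k x.2, x.2)
  invFun x := (x.1 - k x.2, x.2)
  map_add' x y := by ext <;> simp; abel
  map_smul' c x := by ext <;> simp
  left_inv x := by ext <;> simp
  right_inv x := by ext <;> simp

theorem sdet_unip {R M N I J : Type*} [CommRing R] [AddCommGroup M] [AddCommGroup N]
    [Module R M] [Module R N] [Finite I] [Finite J] (b : Basis I R M) (c : Basis J R N)
    (k : N →ₗ[R] M) : sdet (b.prod c) (b.prod c) (unip k) = 1 := by
  rw [sdet_block b c b c (unip k) (LinearEquiv.refl R M) k (LinearEquiv.refl R N)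
    (fun x y => rfl), sdet_refl, sdet_refl, one_mul]

/-- Cones of homotopic maps are isomorphic. -/
noncomputable def homotopyIso : Iso (cone g) (cone f) where
  e0 := unip k1
  e1 := unip k0
  c0 := by
    rintro ⟨b, a⟩
    change (B.d0 (b + k1 a) + f.f1 a, -A.d1 a) = (B.d0 b + g.f1 a + k0 (-A.d1 a), -A.d1 a)
    rw [h1, map_add, map_neg]
    refine Prod.ext ?_ rfl
    simp only
    abel
  c1 := by
    rintro ⟨b, a⟩
    change (B.d1 (b + k0 a) + f.f0 a, -A.d0 a) = (B.d1 b + g.f0 a + k1 (-A.d0 a), -A.d0 a)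
    rw [h0, map_add, map_neg]
    refine Prod.ext ?_ rfl
    simp only
    abel

theorem homotopyIso_ratio : (homotopyIso f g k0 k1 h0 h1).ratio = 1 := by
  have e0 : sdet (cone g).b0 (cone f).b0 (homotopyIso f g k0 k1 h0 h1).e0 = 1 :=
    sdet_unip _ _ _
  have e1 : sdet (cone g).b1 (cone f).b1 (homotopyIso f g k0 k1 h0 h1).e1 = 1 :=
    sdet_unip _ _ _
  rw [Iso.ratio, e0, e1, div_one]

end homotopy

end PC

end Pool.Agent.Helper88.SSF
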